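import Pool.Agent.Helper78.TS.Piece

/-!
# The lists for the states with own far cells of a two-row column

`LX`: one own far cell, cap on the low class; `LY`: two own far cells; `LR`: the crude states. The
entries are `u = X - s`, `v = Y - r`.
-/

set_option autoImplicit false

namespace Pool.Agent.Helper70.OL

open Pool.Agent.Helper84.TS Pool.Agent.Helper36.TS Pool.Agent.Helper74.TS Pool.Agent.Helper83.TS
  Pool.Agent.Helper78.TS

/-- the slot at the entry `-m` -/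
noncomputable def ng (c d m : ℝ) : ℝ := -(c * m) - (1 - d) * m ^ 2 / 2 + m ^ 3 / 3

/-- the signs of the symbols -/
structure Sg (nx ny k X Y : ℝ) : Prop where
  k0 : 0 ≤ k
  kx : 1 / 4 ≤ nx - k
  ky : 1 / 4 ≤ ny - k
  X0 : 0 ≤ X
  X1 : X ≤ 3 / 5
  Y0 : 0 ≤ Y
  Y1 : Y ≤ 3 / 5

/-- **One own far cell**, the field `x` of `St1`, both entries of kind A. -/
structure LX (nx ny k X Y W w A B φ : ℝ) : Prop where
  /-- `0 ≤ v ≤ u` -/
  f1 : ∀ s v, 0 ≤ s → s ≤ 13 / 20 → A - 1 ≤ s → 0 ≤ v → v ≤ X - s → v ≤ 1 - B + Y →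
    0 ≤ max w s + w - A - B →
    st nx X (X - s) + st (ny - k) Y v + bn s (max w s + w - A - B) + vl w A B ≤ W + φ
  /-- `u ≤ v`, `0 ≤ v` -/
  f2 : ∀ s v, 0 ≤ s → s ≤ 13 / 20 → A - 1 ≤ s → 0 ≤ v → v ≤ 1 → X - s ≤ v → v ≤ 1 - B + Y →
    0 ≤ max w s + w - A - B →
    mj (nx - k) (1 - X) X s + st ny Y v + bn s (max w s + w - A - B) + vl w A B ≤ W + φ
  /-- `v < 0`, `v ≤ u` -/
  f3 : 1 + Y < B → ∀ s, 0 ≤ s → s ≤ 13 / 20 → s ≤ X + (B - 1 - Y) →
    0 ≤ max w s + w - A - B →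
    mj nx (1 - X) X s + ng (ny - k) Y (B - 1 - Y) + bn s (max w s + w - A - B) + vl w A B ≤
      W + φ
  /-- `v < 0`, `u ≤ v` -/
  f4 : 1 + Y < B → ∀ s, 0 ≤ s → s ≤ 13 / 20 → X + (B - 1 - Y) ≤ s →
    0 ≤ max w s + w - A - B →
    mj (nx - k) (1 - X) X s + ng ny Y (B - 1 - Y) + bn s (max w s + w - A - B) + vl w A B ≤
      W + φ
  /-- a very low cap on `x` -/
  f5 : 13 / 20 < A - 1 → ∀ v, 0 ≤ v → v ≤ 1 → v ≤ 1 - B + Y → 0 ≤ 2 * w - A - B →
    mj (nx - k) (1 - X) X (A - 1) + st ny Y v + bn (13 / 20) (2 * w - A - B) + vl w A B ≤ W + φ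

/-- **No own far cell**, the field `c` of `St1`. -/
structure LC (nx ny k X Y W w A B φ : ℝ) : Prop where
  c1 : ∀ u v, 0 ≤ v → v ≤ u → u ≤ 1 → u ≤ 1 - A + X → v ≤ 1 - B + Y →
    st nx X u + st (ny - k) Y v + vl w A B ≤ W + φ
  c2 : ∀ u v, 0 ≤ u → u ≤ v → v ≤ 1 → u ≤ 1 - A + X → v ≤ 1 - B + Y →
    st (nx - k) X u + st ny Y v + vl w A B ≤ W + φ
  c3 : 1 + Y < B → ∀ u, 0 ≤ u → u ≤ 1 → u ≤ 1 - A + X →
    st nx X u + ng (ny - k) Y (B - 1 - Y) + vl w A B ≤ W + φ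
  c4 : 1 + X < A → ∀ v, 0 ≤ v → v ≤ 1 → v ≤ 1 - B + Y →
    ng (nx - k) X (A - 1 - X) + st ny Y v + vl w A B ≤ W + φ

/-- **Two own far cells**, the field `xy` of `St1`. -/
structure LY (nx ny k X Y W w A B φ : ℝ) : Prop where
  y1 : ∀ s r T, 0 ≤ s → s ≤ 13 / 20 → B - 1 ≤ r → r ≤ 13 / 20 → Y - r ≤ X - s →
    T = max w (13 / 20) + w - A - B → 0 ≤ T →
    mj nx (1 - X) X s + mj (ny - k) (1 - Y) Y r + (13 / 20 * s + r) * T + vl w A B ≤ W + φ
  y2 : ∀ s r T, 0 ≤ s → s ≤ 13 / 20 → B - 1 ≤ r → r ≤ 13 / 20 → X - s ≤ Y - r →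
    T = max w (13 / 20) + w - A - B → 0 ≤ T →
    mj (nx - k) (1 - X) X s + mj ny (1 - Y) Y r + (13 / 20 * s + r) * T + vl w A B ≤ W + φ
  y3 : 13 / 20 < B - 1 → ∀ s, 0 ≤ s → s ≤ 13 / 20 → Y - (B - 1) ≤ X - s →
    0 ≤ 2 * w - A - B →
    mj nx (1 - X) X s + mj (ny - k) (1 - Y) Y (B - 1)
      + (13 / 20 * s + 13 / 20) * (2 * w - A - B) + vl w A B ≤ W + φ
  y4 : 13 / 20 < B - 1 → ∀ s, 0 ≤ s → s ≤ 13 / 20 → X - s ≤ Y - (B - 1) →
    0 ≤ 2 * w - A - B →
    mj (nx - k) (1 - X) X s + mj ny (1 - Y) Y (B - 1)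
      + (13 / 20 * s + 13 / 20) * (2 * w - A - B) + vl w A B ≤ W + φ

/-- the volume of a crude own far cell -/
noncomputable def fo2 (o d : ℝ) : ℝ := o * (1 + o - d) ^ 2 / 4 - o ^ 3 / 3

/-- **The crude states**, the fields `r` and `xr` of `St1`. -/
structure LR (nx ny k X Y W w A B φ : ℝ) : Prop where
  r1 : ∀ d o, 0 ≤ d → d ≤ 3 / 10 → d ≤ X → A ≤ w + d - 1 → 0 ≤ o → o ≤ 13 / 20 → B ≤ 2 →
    Y - (B - 1) ≤ X - (d + o) →
    mj nx (1 - X) X (d + o) + mj (ny - k) (1 - Y) Y (B - 1) + fo2 o d + vl w A B ≤ W + φ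
  r2 : ∀ d o, 0 ≤ d → d ≤ 3 / 10 → d ≤ X → A ≤ w + d - 1 → 0 ≤ o → o ≤ 13 / 20 → B ≤ 2 →
    X - (d + o) ≤ Y - (B - 1) →
    mj (nx - k) (1 - X) X (d + o) + mj ny (1 - Y) Y (B - 1) + fo2 o d + vl w A B ≤ W + φ
  s1 : ∀ d o r, 0 ≤ d → d ≤ 3 / 10 → d ≤ X → A ≤ w + d - 1 → 0 ≤ o → o ≤ 13 / 20 →
    B - 1 ≤ r → r ≤ 13 / 20 → 0 ≤ 2 * w - A - B → Y - r ≤ X - (d + o) →
    mj nx (1 - X) X (d + o) + mj (ny - k) (1 - Y) Y r + fo2 o d + r * (2 * w - A - B)
      + vl w A B ≤ W + φ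
  s2 : ∀ d o r, 0 ≤ d → d ≤ 3 / 10 → d ≤ X → A ≤ w + d - 1 → 0 ≤ o → o ≤ 13 / 20 →
    B - 1 ≤ r → r ≤ 13 / 20 → 0 ≤ 2 * w - A - B → X - (d + o) ≤ Y - r →
    mj (nx - k) (1 - X) X (d + o) + mj ny (1 - Y) Y r + fo2 o d + r * (2 * w - A - B)
      + vl w A B ≤ W + φ
  t1 : 13 / 20 < B - 1 → ∀ d o, 0 ≤ d → d ≤ 3 / 10 → d ≤ X → A ≤ w + d - 1 → 0 ≤ o →
    o ≤ 13 / 20 → 0 ≤ 2 * w - A - B → Y - (B - 1) ≤ X - (d + o) →
    mj nx (1 - X) X (d + o) + mj (ny - k) (1 - Y) Y (B - 1) + fo2 o d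
      + 13 / 20 * (2 * w - A - B) + vl w A B ≤ W + φ
  t2 : 13 / 20 < B - 1 → ∀ d o, 0 ≤ d → d ≤ 3 / 10 → d ≤ X → A ≤ w + d - 1 → 0 ≤ o →
    o ≤ 13 / 20 → 0 ≤ 2 * w - A - B → X - (d + o) ≤ Y - (B - 1) →
    mj (nx - k) (1 - X) X (d + o) + mj ny (1 - Y) Y (B - 1) + fo2 o d
      + 13 / 20 * (2 * w - A - B) + vl w A B ≤ W + φ

/-- **All the lists of one side.** -/
structure LS (nx ny k X Y W w A B φ : ℝ) : Prop where
  c : LC nx ny k X Y W w A B φ
  x : LX nx ny k X Y W w A B φ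
  r : LR nx ny k X Y W w A B φ
  y : 1 < B → LY nx ny k X Y W w A B φ

section

variable {nx ny k X Y W w A B φ u v u' v' : ℝ}

theorem V2_le (h : v ≤ u) : V2 nx ny k X Y u v = sx nx X u + sx (ny - k) Y v := by
  unfold V2
  rw [min_eq_right h, sx_sub]
  ring

theorem V2_ge (h : u ≤ v) : V2 nx ny k X Y u v = sx (nx - k) X u + sx ny Y v := by
  unfold V2
  rw [min_eq_left h, sx_sub]
  ring

theorem V2_e1 (k0 : 0 ≤ k) : sx (nx - k) X u + sx ny Y v ≤ V2 nx ny k X Y u v := by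
  have := mul_le_mul_of_nonneg_left (min_le_left u v) k0
  rw [sx_sub]
  unfold V2
  linarith

/-- the first entry is raised -/
theorem V2_up (k0 : 0 ≤ k) (h : u ≤ u') (e : sx (nx - k) X u ≤ sx (nx - k) X u') :
    V2 nx ny k X Y u v ≤ V2 nx ny k X Y u' v := by
  have h1 : min u' v - min u v ≤ u' - u := by
    rcases le_total u v with h1 | h1
    · rw [min_eq_left h1]
      have := min_le_left u' v
      linarith
    · rw [min_eq_right h1, min_eq_right (h1.trans h)]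
      linarith
  have h2 := mul_le_mul_of_nonneg_left h1 k0
  rw [sx_sub, sx_sub] at e
  unfold V2
  linarith

theorem V2_up' (k0 : 0 ≤ k) (h : v ≤ v') (e : sx (ny - k) Y v ≤ sx (ny - k) Y v') :
    V2 nx ny k X Y u v ≤ V2 nx ny k X Y u v' := by
  rw [V2_swap nx ny k X Y u v, V2_swap nx ny k X Y u v']
  exact V2_up k0 h e

/-- a negative entry is raised -/
theorem sx_up {c d u u' : ℝ} (hc : 0 ≤ c) (hd : 0 ≤ 1 - d) (lo : -(1 - d) ≤ u) (h : u ≤ u')
    (h' : u' ≤ 0) : sx c d u ≤ sx c d u' :=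
  sx_mono hc hd lo (by linarith) h ((mul_nonpos_of_nonneg_of_nonpos hd h').trans hc)

theorem sx_ng {c d m : ℝ} (hm : 0 ≤ m) : sx c d (-m) = ng c d m := by
  rw [sx_of_nonpos (by linarith), ng]
  ring

theorem bn_comm (o t : ℝ) : bn o t = bn t o := by
  unfold bn
  rw [min_comm]
  ring

theorem bn_le {o t : ℝ} (h0 : 0 ≤ o) (h1 : 0 ≤ t) : bn o t ≤ o * t := by
  have := pow_nonneg (le_min h0 h1) 3
  unfold bn
  linarith

/-- both arguments are raised -/
theorem bn_mono2 {o o' t t' : ℝ} (o0 : 0 ≤ o) (ho : o ≤ o') (o1 : o' ≤ 1) (t0 : 0 ≤ t)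
    (ht : t ≤ t') (t1 : t' ≤ 1) : bn o t ≤ bn o' t' := by
  refine (bn_mono o0 (ho.trans o1) t0 ht).trans ?_
  rw [bn_comm o t', bn_comm o' t']
  exact bn_mono (t0.trans ht) t1 o0 ho

/-- **The field `x` from the list.** -/
theorem x_of (g : Sg nx ny k X Y) (L : LX nx ny k X Y W w A B φ) (w1 : w ≤ 1) (A0 : 0 ≤ A)
    (B0 : 0 ≤ B) (lo' : w + 9 / 20 < A + B) (hi : A + B ≤ 1 + w) (o : ℝ) (ru : Row X u)
    (rv : Row Y v) (qx : u ≤ 1 - A + X) (qy : v ≤ 1 - B + Y) (o0 : 0 < o) (o1 : o ≤ 13 / 20)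
    (ho : u ≤ X - o) (ht : 0 ≤ max w o + w - A - B) :
    V2 nx ny k X Y u v + bn o (max w o + w - A - B) + vl w A B ≤ W + φ := by
  obtain ⟨k0, kx, ky, X0, X1, Y0, Y1⟩ := g
  have lo := ru.lo
  have hi1 := ru.hi
  have lv := rv.lo
  have hv1 := rv.hi
  -- a larger cell
  have big : ∀ p, o ≤ p → p ≤ 13 / 20 → 0 ≤ max w p + w - A - B ∧
      bn o (max w o + w - A - B) ≤ bn p (max w p + w - A - B) := by
    intro p h1 h2
    have h3 := max_le_max_left w h1
    have h4 : max w p ≤ 1 := max_le w1 (by linarith)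
    exact ⟨by linarith, bn_mono2 o0.le h1 (by linarith) ht (by linarith) (by linarith)⟩
  -- the entry `v` is raised
  have key : ∀ u' p, Row X u' → u' ≤ 1 - A + X → 0 ≤ p → p ≤ 13 / 20 →
      0 ≤ max w p + w - A - B → (p = X - u' ∨ (13 / 20 < A - 1 ∧ X - u' = A - 1 ∧ p = 13 / 20)) →
      V2 nx ny k X Y u' v + bn p (max w p + w - A - B) + vl w A B ≤ W + φ := by
    intro u' p ru' qx' p0 p1 T0 hp
    have lo' := ru'.lo
    have hi' := ru'.hi
    rcases lt_or_ge (1 + Y) B with hB | hB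
    · -- `v` is negative
      have e1 : V2 nx ny k X Y u' v ≤ V2 nx ny k X Y u' (-(B - 1 - Y)) :=
        V2_up' k0 (by linarith) (sx_up (by linarith) (by linarith) lv (by linarith) (by linarith))
      have hA : A < w := by linarith
      rcases hp with hp | hp
      · rcases le_total (-(B - 1 - Y)) u' with h | h
        · rw [V2_le h, sx_ng (by linarith)] at e1
          have e2 := sx_le_mj (X := nx) (d := X) (u := u') X0 p0 hp hi'
          have := L.f3 hB p p0 p1 (by linarith) T0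
          linarith
        · rw [V2_ge h, sx_ng (by linarith)] at e1
          have e2 := sx_le_mj (X := nx - k) (d := X) (u := u') X0 p0 hp hi'
          have := L.f4 hB p p0 p1 (by linarith) T0
          linarith
      · linarith [hp.1]
    · have e1 : V2 nx ny k X Y u' v ≤ V2 nx ny k X Y u' (max v 0) := by
        rcases le_total v 0 with h | h
        · rw [max_eq_right h]
          exact V2_up' k0 h (sx_up (by linarith) (by linarith) lv h le_rfl)
        · rw [max_eq_left h]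
      have v0 := le_max_right v 0
      have v1 : max v 0 ≤ 1 := max_le hv1 zero_le_one
      have v2 : max v 0 ≤ 1 - B + Y := max_le qy (by linarith)
      generalize max v 0 = z at *
      rcases hp with hp | hp
      · rcases le_total z u' with h | h
        · rw [V2_le h, sx_eq_st (v0.trans h) hi', sx_eq_st v0 v1] at e1
          have := L.f1 p z p0 p1 (by linarith) v0 (by linarith) v2 T0
          rw [show X - p = u' by linarith] at this
          linarith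
        · rw [V2_ge h, sx_eq_st v0 v1] at e1
          have e2 := sx_le_mj (X := nx - k) (d := X) (u := u') X0 p0 hp hi'
          have := L.f2 p z p0 p1 (by linarith) v0 v1 (by linarith) v2 T0
          linarith
      · obtain ⟨h1, h2, h3⟩ := hp
        subst h3
        have hw : 13 / 20 ≤ w := by linarith
        rw [max_eq_left hw] at T0 ⊢
        rw [V2_ge (by linarith : u' ≤ z), sx_eq_st v0 v1] at e1
        have e2 := sx_le_mj (X := nx - k) (d := X) (u := u') (s := A - 1) X0 (by linarith)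
          h2.symm hi'
        have := L.f5 h1 z v0 v1 v2 (by linarith)
        rw [show w + w - A - B = 2 * w - A - B by ring]
        linarith
  rcases le_total (X - u) (13 / 20) with h | h
  · obtain ⟨b1, b2⟩ := big (X - u) (by linarith) h
    have := key u (X - u) ru qx (by linarith) h b1 (Or.inl rfl)
    linarith
  · obtain ⟨b1, b2⟩ := big (13 / 20) o1 le_rfl
    rcases le_or_gt (A - 1) (13 / 20) with hA | hA
    · have e1 : V2 nx ny k X Y u v ≤ V2 nx ny k X Y (X - 13 / 20) v :=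
        V2_up k0 (by linarith) (sx_up (by linarith) (by linarith) lo (by linarith) (by linarith))
      have := key (X - 13 / 20) (13 / 20) ⟨ru.d0, ru.d1, by linarith, by linarith⟩ (by linarith)
        (by norm_num) le_rfl b1 (Or.inl (by ring))
      linarith
    · have e1 : V2 nx ny k X Y u v ≤ V2 nx ny k X Y (1 - A + X) v :=
        V2_up k0 qx (sx_up (by linarith) (by linarith) lo qx (by linarith))
      have := key (1 - A + X) (13 / 20) ⟨ru.d0, ru.d1, by linarith, by linarith⟩ le_rfl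
        (by norm_num) le_rfl b1 (Or.inr ⟨hA, by ring, rfl⟩)
      linarith

/-- **The field `c` from the list.** -/
theorem c_of (g : Sg nx ny k X Y) (L : LC nx ny k X Y W w A B φ) (w1 : w ≤ 1) (A0 : 0 ≤ A)
    (B0 : 0 ≤ B) (hi : A + B ≤ 1 + w) (ru : Row X u) (rv : Row Y v) (qx : u ≤ 1 - A + X)
    (qy : v ≤ 1 - B + Y) : V2 nx ny k X Y u v + vl w A B ≤ W + φ := by
  obtain ⟨k0, kx, ky, X0, X1, Y0, Y1⟩ := g
  have lo := ru.lo
  have hi1 := ru.hi
  have lv := rv.lo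
  have hv1 := rv.hi
  rcases lt_or_ge (1 + Y) B with hB | hB
  · have e1 : V2 nx ny k X Y u v ≤ V2 nx ny k X Y u (-(B - 1 - Y)) :=
      V2_up' k0 (by linarith) (sx_up (by linarith) (by linarith) lv (by linarith) (by linarith))
    have e2 : V2 nx ny k X Y u (-(B - 1 - Y)) ≤ V2 nx ny k X Y (max u 0) (-(B - 1 - Y)) := by
      rcases le_total u 0 with h | h
      · rw [max_eq_right h]
        exact V2_up k0 h (sx_up (by linarith) (by linarith) lo h le_rfl)
      · rw [max_eq_left h]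
    have u0 := le_max_right u 0
    have u1 : max u 0 ≤ 1 := max_le hi1 zero_le_one
    have u2 : max u 0 ≤ 1 - A + X := max_le qx (by linarith)
    rw [V2_le (by linarith : -(B - 1 - Y) ≤ max u 0), sx_ng (by linarith), sx_eq_st u0 u1] at e2
    have := L.c3 hB _ u0 u1 u2
    linarith
  rcases lt_or_ge (1 + X) A with hA | hA
  · have e1 : V2 nx ny k X Y u v ≤ V2 nx ny k X Y (-(A - 1 - X)) v :=
      V2_up k0 (by linarith) (sx_up (by linarith) (by linarith) lo (by linarith) (by linarith))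
    have e2 : V2 nx ny k X Y (-(A - 1 - X)) v ≤ V2 nx ny k X Y (-(A - 1 - X)) (max v 0) := by
      rcases le_total v 0 with h | h
      · rw [max_eq_right h]
        exact V2_up' k0 h (sx_up (by linarith) (by linarith) lv h le_rfl)
      · rw [max_eq_left h]
    have u0 := le_max_right v 0
    have u1 : max v 0 ≤ 1 := max_le hv1 zero_le_one
    have u2 : max v 0 ≤ 1 - B + Y := max_le qy (by linarith)
    rw [V2_ge (by linarith : -(A - 1 - X) ≤ max v 0), sx_ng (by linarith), sx_eq_st u0 u1] at e2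
    have := L.c4 hA _ u0 u1 u2
    linarith
  have e1 : V2 nx ny k X Y u v ≤ V2 nx ny k X Y (max u 0) v := by
    rcases le_total u 0 with h | h
    · rw [max_eq_right h]
      exact V2_up k0 h (sx_up (by linarith) (by linarith) lo h le_rfl)
    · rw [max_eq_left h]
  have e2 : V2 nx ny k X Y (max u 0) v ≤ V2 nx ny k X Y (max u 0) (max v 0) := by
    rcases le_total v 0 with h | h
    · rw [max_eq_right h]
      exact V2_up' k0 h (sx_up (by linarith) (by linarith) lv h le_rfl)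
    · rw [max_eq_left h]
  have u0 := le_max_right u 0
  have u1 : max u 0 ≤ 1 := max_le hi1 zero_le_one
  have u2 : max u 0 ≤ 1 - A + X := max_le qx (by linarith)
  have v0 := le_max_right v 0
  have v1 : max v 0 ≤ 1 := max_le hv1 zero_le_one
  have v2 : max v 0 ≤ 1 - B + Y := max_le qy (by linarith)
  generalize max u 0 = a at *
  generalize max v 0 = b at *
  rcases le_total b a with h | h
  · rw [V2_le h, sx_eq_st u0 u1, sx_eq_st v0 v1] at e2
    have := L.c1 a b v0 h u1 u2 v2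
    linarith
  · rw [V2_ge h, sx_eq_st u0 u1, sx_eq_st v0 v1] at e2
    have := L.c2 a b u0 h v1 u2 v2
    linarith

/-- the entry `d - s` as an upper bound -/
theorem mono_top {c d u s : ℝ} (hc : 1 / 4 ≤ c) (d1 : d ≤ 3 / 5) (lo : -(1 - d) ≤ u)
    (hi : u ≤ 1) (s0 : 0 ≤ s) (h : u ≤ d - s) : sx c d u ≤ sx c d (d - s) := by
  refine sx_mono (by linarith) (by linarith) lo hi h ?_
  have h1 : (1 - d) * (d - s) ≤ (1 - d) * d := mul_le_mul_of_nonneg_left (by linarith) (by linarith)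
  nlinarith [sq_nonneg (d - 1 / 2)]

/-- **The field `xy` from the list.** -/
theorem xy_of (g : Sg nx ny k X Y) (L : LY nx ny k X Y W w A B φ) (w1 : w ≤ 1) (A0 : 0 ≤ A)
    (hi : A + B ≤ 1 + w) (hB1 : 1 < B) (o p : ℝ) (ru : Row X u) (rv : Row Y v)
    (qy : v ≤ 1 - B + Y) (o0 : 0 < o) (o1 : o ≤ 13 / 20) (ho : u ≤ X - o)
    (ht : 0 ≤ max w o + w - A - B) (p0 : 0 < p) (p1 : p ≤ 13 / 20) (hp : v ≤ Y - p)
    (ht' : 0 ≤ max w p + w - A - B) :
    V2 nx ny k X Y u v + 13 / 20 * o * (max w o + w - A - B) + bn p (max w p + w - A - B)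
      + vl w A B ≤ W + φ := by
  obtain ⟨k0, kx, ky, X0, X1, Y0, Y1⟩ := g
  have lo := ru.lo
  have hi1 := ru.hi
  have lv := rv.lo
  have hv1 := rv.hi
  obtain ⟨T, hT⟩ : ∃ T, T = max w (13 / 20) + w - A - B := ⟨_, rfl⟩
  have hTo : max w o + w - A - B ≤ T := by
    rw [hT]
    linarith [max_le_max_left w o1]
  have hTp : max w p + w - A - B ≤ T := by
    rw [hT]
    linarith [max_le_max_left w p1]
  have T0 : 0 ≤ T := ht.trans hTo
  have hb : o * (max w o + w - A - B) ≤ o * T := mul_le_mul_of_nonneg_left hTo o0.le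
  have hb' : bn p (max w p + w - A - B) ≤ p * T :=
    (bn_le p0.le ht').trans (mul_le_mul_of_nonneg_left hTp p0.le)
  -- the entry `u` is raised to `X - s`
  obtain ⟨s, s0, s1, hos, hus⟩ : ∃ s, 0 ≤ s ∧ s ≤ 13 / 20 ∧ o ≤ s ∧ u ≤ X - s := by
    rcases le_total (X - u) (13 / 20) with h | h
    · exact ⟨X - u, by linarith, h, by linarith, by linarith⟩
    · exact ⟨13 / 20, by norm_num, le_rfl, o1, by linarith⟩
  have e1 : V2 nx ny k X Y u v ≤ V2 nx ny k X Y (X - s) v :=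
    V2_up k0 hus (mono_top kx X1 lo hi1 s0 hus)
  have hs1 : X - s ≤ 1 := by linarith
  have b1 := mul_le_mul_of_nonneg_right hos T0
  rcases le_or_gt (B - 1) (13 / 20) with hB | hB
  · obtain ⟨r, r0, r1, hpr, hvr⟩ : ∃ r, B - 1 ≤ r ∧ r ≤ 13 / 20 ∧ p ≤ r ∧ v ≤ Y - r := by
      rcases le_total (Y - v) (13 / 20) with h | h
      · exact ⟨Y - v, by linarith, h, by linarith, by linarith⟩
      · exact ⟨13 / 20, by linarith, le_rfl, p1, by linarith⟩
    have rr : 0 ≤ r := by linarith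
    have e2 : V2 nx ny k X Y (X - s) v ≤ V2 nx ny k X Y (X - s) (Y - r) :=
      V2_up' k0 hvr (mono_top ky Y1 lv hv1 rr hvr)
    have hr1 : Y - r ≤ 1 := by linarith
    have b2 := mul_le_mul_of_nonneg_right hpr T0
    rcases le_total (Y - r) (X - s) with h | h
    · rw [V2_le h] at e2
      have m1 := sx_le_mj (X := nx) (d := X) (u := X - s) X0 s0 (by ring) hs1
      have m2 := sx_le_mj (X := ny - k) (d := Y) (u := Y - r) Y0 rr (by ring) hr1
      have := L.y1 s r T s0 s1 r0 r1 h hT T0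
      linarith
    · rw [V2_ge h] at e2
      have m1 := sx_le_mj (X := nx - k) (d := X) (u := X - s) X0 s0 (by ring) hs1
      have m2 := sx_le_mj (X := ny) (d := Y) (u := Y - r) Y0 rr (by ring) hr1
      have := L.y2 s r T s0 s1 r0 r1 h hT T0
      linarith
  · have hw : 13 / 20 ≤ w := by linarith
    rw [max_eq_left hw] at hT
    have rr : 0 ≤ B - 1 := by linarith
    have hvr : v ≤ Y - (B - 1) := by linarith
    have e2 : V2 nx ny k X Y (X - s) v ≤ V2 nx ny k X Y (X - s) (Y - (B - 1)) :=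
      V2_up' k0 hvr (mono_top ky Y1 lv hv1 rr hvr)
    have hr1 : Y - (B - 1) ≤ 1 := by linarith
    have b2 := mul_le_mul_of_nonneg_right p1 T0
    have hTe : T = 2 * w - A - B := by linarith
    rw [hTe] at b1 b2 hb hb' T0
    rcases le_total (Y - (B - 1)) (X - s) with h | h
    · rw [V2_le h] at e2
      have m1 := sx_le_mj (X := nx) (d := X) (u := X - s) X0 s0 (by ring) hs1
      have m2 := sx_le_mj (X := ny - k) (d := Y) (u := Y - (B - 1)) Y0 rr (by ring) hr1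
      have := L.y3 hB s s0 s1 h T0
      linarith
    · rw [V2_ge h] at e2
      have m1 := sx_le_mj (X := nx - k) (d := X) (u := X - s) X0 s0 (by ring) hs1
      have m2 := sx_le_mj (X := ny) (d := Y) (u := Y - (B - 1)) Y0 rr (by ring) hr1
      have := L.y4 hB s s0 s1 h T0
      linarith

/-- **The field `r` from the list.** -/
theorem r_of (g : Sg nx ny k X Y) (L : LR nx ny k X Y W w A B φ) (A0 : 0 ≤ A)
    (lo' : w + 9 / 20 < A + B) (hi : A + B ≤ 1 + w) (w1 : w ≤ 1) (o d : ℝ) (ru : Row X u)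
    (rv : Row Y v) (qy : v ≤ 1 - B + Y) (o0 : 0 < o) (o1 : o ≤ 13 / 20) (d0 : 0 ≤ d)
    (d1 : d ≤ 3 / 10) (dX : d ≤ X) (hA : A ≤ w + d - 1) (ho : u ≤ X - d - o) :
    V2 nx ny k X Y u v + (o * (1 + o - d) ^ 2 / 4 - o ^ 3 / 3) + vl w A B ≤ W + φ := by
  obtain ⟨k0, kx, ky, X0, X1, Y0, Y1⟩ := g
  have lo := ru.lo
  have hi1 := ru.hi
  have lv := rv.lo
  have hv1 := rv.hi
  have rr : 0 ≤ B - 1 := by linarith
  have ss : 0 ≤ d + o := by linarith
  have hvr : v ≤ Y - (B - 1) := by linarith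
  have hus : u ≤ X - (d + o) := by linarith
  have e1 : V2 nx ny k X Y u v ≤ V2 nx ny k X Y (X - (d + o)) v :=
    V2_up k0 hus (mono_top kx X1 lo hi1 ss hus)
  have e2 : V2 nx ny k X Y (X - (d + o)) v ≤ V2 nx ny k X Y (X - (d + o)) (Y - (B - 1)) :=
    V2_up' k0 hvr (mono_top ky Y1 lv hv1 rr hvr)
  have hs1 : X - (d + o) ≤ 1 := by linarith
  have hr1 : Y - (B - 1) ≤ 1 := by linarith
  have ef : fo2 o d = o * (1 + o - d) ^ 2 / 4 - o ^ 3 / 3 := rfl
  rw [← ef]
  rcases le_total (Y - (B - 1)) (X - (d + o)) with h | h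
  · rw [V2_le h] at e2
    have m1 := sx_le_mj (X := nx) (d := X) (u := X - (d + o)) X0 ss (by ring) hs1
    have m2 := sx_le_mj (X := ny - k) (d := Y) (u := Y - (B - 1)) Y0 rr (by ring) hr1
    have := L.r1 d o d0 d1 dX hA o0.le o1 (by linarith) h
    linarith
  · rw [V2_ge h] at e2
    have m1 := sx_le_mj (X := nx - k) (d := X) (u := X - (d + o)) X0 ss (by ring) hs1
    have m2 := sx_le_mj (X := ny) (d := Y) (u := Y - (B - 1)) Y0 rr (by ring) hr1
    have := L.r2 d o d0 d1 dX hA o0.le o1 (by linarith) h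
    linarith

/-- **The field `xr` from the list.** -/
theorem xr_of (g : Sg nx ny k X Y) (L : LR nx ny k X Y W w A B φ) (A0 : 0 ≤ A)
    (lo' : w + 9 / 20 < A + B) (hi : A + B ≤ 1 + w) (w1 : w ≤ 1) (o d p : ℝ) (ru : Row X u)
    (rv : Row Y v) (qy : v ≤ 1 - B + Y) (o0 : 0 < o) (o1 : o ≤ 13 / 20) (d0 : 0 ≤ d)
    (d1 : d ≤ 3 / 10) (dX : d ≤ X) (hA : A ≤ w + d - 1) (ho : u ≤ X - d - o) (p0 : 0 < p)
    (p1 : p ≤ 13 / 20) (hp : v ≤ Y - p) (hT : 0 ≤ 2 * w - A - B) :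
    V2 nx ny k X Y u v + (o * (1 + o - d) ^ 2 / 4 - o ^ 3 / 3) + bn p (2 * w - A - B)
      + vl w A B ≤ W + φ := by
  obtain ⟨k0, kx, ky, X0, X1, Y0, Y1⟩ := g
  have lo := ru.lo
  have hi1 := ru.hi
  have lv := rv.lo
  have hv1 := rv.hi
  have ss : 0 ≤ d + o := by linarith
  have hus : u ≤ X - (d + o) := by linarith
  have e1 : V2 nx ny k X Y u v ≤ V2 nx ny k X Y (X - (d + o)) v :=
    V2_up k0 hus (mono_top kx X1 lo hi1 ss hus)
  have hs1 : X - (d + o) ≤ 1 := by linarith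
  have ef : fo2 o d = o * (1 + o - d) ^ 2 / 4 - o ^ 3 / 3 := rfl
  have hbn := bn_le p0.le hT
  rw [← ef]
  rcases le_or_gt (B - 1) (13 / 20) with hB | hB
  · obtain ⟨r, r0, r1, hpr, hvr⟩ : ∃ r, B - 1 ≤ r ∧ r ≤ 13 / 20 ∧ p ≤ r ∧ v ≤ Y - r := by
      rcases le_total (Y - v) (13 / 20) with h | h
      · exact ⟨Y - v, by linarith, h, by linarith, by linarith⟩
      · exact ⟨13 / 20, by linarith, le_rfl, p1, by linarith⟩
    have rr : 0 ≤ r := by linarith
    have e2 : V2 nx ny k X Y (X - (d + o)) v ≤ V2 nx ny k X Y (X - (d + o)) (Y - r) :=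
      V2_up' k0 hvr (mono_top ky Y1 lv hv1 rr hvr)
    have hr1 : Y - r ≤ 1 := by linarith
    have b2 := mul_le_mul_of_nonneg_right hpr hT
    rcases le_total (Y - r) (X - (d + o)) with h | h
    · rw [V2_le h] at e2
      have m1 := sx_le_mj (X := nx) (d := X) (u := X - (d + o)) X0 ss (by ring) hs1
      have m2 := sx_le_mj (X := ny - k) (d := Y) (u := Y - r) Y0 rr (by ring) hr1
      have := L.s1 d o r d0 d1 dX hA o0.le o1 r0 r1 hT h
      linarith
    · rw [V2_ge h] at e2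
      have m1 := sx_le_mj (X := nx - k) (d := X) (u := X - (d + o)) X0 ss (by ring) hs1
      have m2 := sx_le_mj (X := ny) (d := Y) (u := Y - r) Y0 rr (by ring) hr1
      have := L.s2 d o r d0 d1 dX hA o0.le o1 r0 r1 hT h
      linarith
  · have rr : 0 ≤ B - 1 := by linarith
    have hvr : v ≤ Y - (B - 1) := by linarith
    have e2 : V2 nx ny k X Y (X - (d + o)) v ≤ V2 nx ny k X Y (X - (d + o)) (Y - (B - 1)) :=
      V2_up' k0 hvr (mono_top ky Y1 lv hv1 rr hvr)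
    have hr1 : Y - (B - 1) ≤ 1 := by linarith
    have b2 := mul_le_mul_of_nonneg_right p1 hT
    rcases le_total (Y - (B - 1)) (X - (d + o)) with h | h
    · rw [V2_le h] at e2
      have m1 := sx_le_mj (X := nx) (d := X) (u := X - (d + o)) X0 ss (by ring) hs1
      have m2 := sx_le_mj (X := ny - k) (d := Y) (u := Y - (B - 1)) Y0 rr (by ring) hr1
      have := L.t1 hB d o d0 d1 dX hA o0.le o1 hT h
      linarith
    · rw [V2_ge h] at e2
      have m1 := sx_le_mj (X := nx - k) (d := X) (u := X - (d + o)) X0 ss (by ring) hs1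
      have m2 := sx_le_mj (X := ny) (d := Y) (u := Y - (B - 1)) Y0 rr (by ring) hr1
      have := L.t2 hB d o d0 d1 dX hA o0.le o1 hT h
      linarith

/-- **All the states of one side from the lists.** -/
theorem st1_of (g : Sg nx ny k X Y) (L : LS nx ny k X Y W w A B φ) (w1 : w ≤ 1)
    (A0 : 0 ≤ A) (B0 : 0 ≤ B) (lo : w + 9 / 20 < A + B) (hi : A + B ≤ 1 + w) :
    St1 nx ny k X Y W (fun _ _ => True) True True w A B φ where
  c := fun _ _ ru rv _ qx qy => c_of g L.c w1 A0 B0 hi ru rv (qx trivial) (qy trivial)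
  x := fun _ _ o ru rv _ qx qy o0 o1 ho ht =>
    x_of g L.x w1 A0 B0 lo hi o ru rv (qx trivial) (qy trivial) o0 o1 ho ht
  r := fun _ _ o d ru rv _ _ qy o0 o1 d0 d1 dX hA ho =>
    r_of g L.r A0 lo hi w1 o d ru rv (qy trivial) o0 o1 d0 d1 dX hA ho
  xy := fun _ hB _ _ o p ru rv _ _ qy o0 o1 ho ht p0 p1 hp ht' =>
    xy_of g (L.y hB) w1 A0 hi hB o p ru rv qy o0 o1 ho ht p0 p1 hp ht'
  xr := fun _ _ _ _ o d p ru rv _ _ qy o0 o1 d0 d1 dX hA ho p0 p1 hp hT =>
    xr_of g L.r A0 lo hi w1 o d p ru rv qy o0 o1 d0 d1 dX hA ho p0 p1 hp hT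

end

end Pool.Agent.Helper70.OL
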