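import Pool.Agent.Helper70.OL.Lists

/-!
# The values of the gain in the case `OL0'`
-/

set_option autoImplicit false
set_option linter.unusedSimpArgs false
set_option linter.unusedVariables false

namespace Pool.Agent.Helper70.OL

open Pool.Agent.Helper74.TS Pool.Agent.Helper83.TS Pool.Agent.Helper78.TS
  Pool.Agent.Helper19.TS.OL0

/-- the signs -/
theorem sg_of {x y : ℝ} (x0 : 0 ≤ x) (x1 : x ≤ 3 / 5) (y0 : 0 ≤ y) (y1 : y ≤ 3 / 5) :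
    Sg (nu x) (nu y) (kk x y) x y := by
  have h := mul_nonneg x0 y0
  have h1 := mul_nonneg (sub_nonneg.2 x1) (sub_nonneg.2 y1)
  have h2 := mul_nonneg x0 (sub_nonneg.2 x1)
  have h3 := mul_nonneg y0 (sub_nonneg.2 y1)
  have h4 := mul_nonneg x0 (sub_nonneg.2 y1)
  have h5 := mul_nonneg y0 (sub_nonneg.2 x1)
  refine ⟨?_, ?_, ?_, x0, x1, y0, y1⟩
  · unfold kk
    linarith
  · unfold nu kk
    linarith
  · unfold nu kk
    linarith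

theorem side_of {x y : ℝ} (x0 : 0 ≤ x) (x1 : x ≤ 3 / 5) (y0 : 0 ≤ y) (y1 : y ≤ 3 / 5) :
    Side (nu x - kk x y) x := by
  have h2 := mul_nonneg x0 (sub_nonneg.2 x1)
  have h5 := mul_nonneg y0 (sub_nonneg.2 x1)
  refine ⟨?_, fun _ => ?_, fun h7 => ?_⟩
  · unfold nu kk
    linarith
  · unfold nu kk
    linarith
  · have h8 := mul_nonneg x0 (sub_nonneg.2 h7)
    unfold nu kk
    linarith

theorem st2_1 {x y w A B : ℝ} (g : Hc x y w A B) (lo : w + 9 / 20 < A + B)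
    (hv : ph w x y + (W0 x y - W1 x y) < vl w A B) :
    St2 (nu x) (nu y) (kk x y) x y (W0 x y) (fun _ _ => True) True True w A B
      (ph w x y) := by
  have e : ph w y x = ph w x y := ph_comm w y x
  have hv' : ph w y x + (W0 y x - W1 y x) < vl w B A := by
    rw [W0_comm y x, W1_comm y x, vl_comm w B A, e]
    exact hv
  have h := ls1 g.swap hv'
  rw [kk_comm y x, W0_comm y x, e] at h
  have s := sg_of g.x0 g.x1 g.y0 g.y1
  have s2 := side_of g.y0 g.y1 g.x0 g.x1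
  rw [kk_comm y x] at s2
  exact St2.of (side_of g.x0 g.x1 g.y0 g.y1) s2 s.k0 ⟨fun _ _ _ _ => trivial, fun _ _ _ _ => trivial⟩
    ⟨fun _ _ _ _ => trivial, fun _ _ _ _ => trivial⟩ g.w1 g.A0 g.B0
    (st1_of s (ls1 g hv) g.w1 g.A0 g.B0 lo g.hi)
    (st1_of ⟨s.k0, s.ky, s.kx, s.Y0, s.Y1, s.X0, s.X1⟩ h g.w1 g.B0 g.A0 (by linarith)
      (by linarith [g.hi]))

theorem st2_2 {x y z w A B : ℝ} (g : Hc x y w A B) (z0 : 0 ≤ z) (z1 : z ≤ 3 / 5) (A1 : A ≤ 1) (lo : w + 9 / 20 < A + B)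
    (hv : gg x y z - ph (1 - A) x z + (W0 x y - W1 x y) < vl w A B) :
    St2 (nu x) (nu y) (kk x y) x y (W0 x y) (fun _ _ => True) True True w A B
      (gg x y z - ph (1 - A) x z) := by
  have e : gg y x z - ph (1 - A) x z = gg x y z - ph (1 - A) x z := by rw [gg_comm y x z]
  have hv' : gg y x z - ph (1 - A) x z + (W0 y x - W1 y x) < vl w B A := by
    rw [W0_comm y x, W1_comm y x, vl_comm w B A, e]
    exact hv
  have h := ls3 g.swap z0 z1 A1 hv'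
  rw [kk_comm y x, W0_comm y x, e] at h
  have s := sg_of g.x0 g.x1 g.y0 g.y1
  have s2 := side_of g.y0 g.y1 g.x0 g.x1
  rw [kk_comm y x] at s2
  exact St2.of (side_of g.x0 g.x1 g.y0 g.y1) s2 s.k0 ⟨fun _ _ _ _ => trivial, fun _ _ _ _ => trivial⟩
    ⟨fun _ _ _ _ => trivial, fun _ _ _ _ => trivial⟩ g.w1 g.A0 g.B0
    (st1_of s (ls2 g z0 z1 A1 hv) g.w1 g.A0 g.B0 lo g.hi)
    (st1_of ⟨s.k0, s.ky, s.kx, s.Y0, s.Y1, s.X0, s.X1⟩ h g.w1 g.B0 g.A0 (by linarith)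
      (by linarith [g.hi]))

theorem st2_3 {x y z w A B : ℝ} (g : Hc x y w A B) (z0 : 0 ≤ z) (z1 : z ≤ 3 / 5) (B1 : B ≤ 1) (lo : w + 9 / 20 < A + B)
    (hv : gg x y z - ph (1 - B) y z + (W0 x y - W1 x y) < vl w A B) :
    St2 (nu x) (nu y) (kk x y) x y (W0 x y) (fun _ _ => True) True True w A B
      (gg x y z - ph (1 - B) y z) := by
  have e : gg y x z - ph (1 - B) y z = gg x y z - ph (1 - B) y z := by rw [gg_comm y x z]
  have hv' : gg y x z - ph (1 - B) y z + (W0 y x - W1 y x) < vl w B A := by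
    rw [W0_comm y x, W1_comm y x, vl_comm w B A, e]
    exact hv
  have h := ls2 g.swap z0 z1 B1 hv'
  rw [kk_comm y x, W0_comm y x, e] at h
  have s := sg_of g.x0 g.x1 g.y0 g.y1
  have s2 := side_of g.y0 g.y1 g.x0 g.x1
  rw [kk_comm y x] at s2
  exact St2.of (side_of g.x0 g.x1 g.y0 g.y1) s2 s.k0 ⟨fun _ _ _ _ => trivial, fun _ _ _ _ => trivial⟩
    ⟨fun _ _ _ _ => trivial, fun _ _ _ _ => trivial⟩ g.w1 g.A0 g.B0
    (st1_of s (ls3 g z0 z1 B1 hv) g.w1 g.A0 g.B0 lo g.hi)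
    (st1_of ⟨s.k0, s.ky, s.kx, s.Y0, s.Y1, s.X0, s.X1⟩ h g.w1 g.B0 g.A0 (by linarith)
      (by linarith [g.hi]))

theorem st2_4 {x y z w A B : ℝ} (g : Hc x y w A B) (z0 : 0 ≤ z) (z1 : z ≤ 3 / 5) (A1 : A ≤ 1) (B1 : B ≤ 1) (ft : 3 / 100 + (W0 x y - W1 x y) < vl w A B) (lo : w + 9 / 20 < A + B)
    (hv : gg x y z + 3 / 100 - ph (1 - A) x z - ph (1 - B) y z + (W0 x y - W1 x y) < vl w A B) :
    St2 (nu x) (nu y) (kk x y) x y (W0 x y) (fun _ _ => True) True True w A B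
      (gg x y z + 3 / 100 - ph (1 - A) x z - ph (1 - B) y z) := by
  have ft' : 3 / 100 + (W0 y x - W1 y x) < vl w B A := by
    rw [W0_comm y x, W1_comm y x, vl_comm w B A]
    exact ft
  have e : gg y x z + 3 / 100 - ph (1 - B) y z - ph (1 - A) x z = gg x y z + 3 / 100 - ph (1 - A) x z - ph (1 - B) y z := by
    rw [gg_comm y x z]
    ring
  have hv' : gg y x z + 3 / 100 - ph (1 - B) y z - ph (1 - A) x z + (W0 y x - W1 y x) < vl w B A := by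
    rw [W0_comm y x, W1_comm y x, vl_comm w B A, e]
    exact hv
  have h := ls4 g.swap z0 z1 B1 A1 ft' hv'
  rw [kk_comm y x, W0_comm y x, e] at h
  have s := sg_of g.x0 g.x1 g.y0 g.y1
  have s2 := side_of g.y0 g.y1 g.x0 g.x1
  rw [kk_comm y x] at s2
  exact St2.of (side_of g.x0 g.x1 g.y0 g.y1) s2 s.k0 ⟨fun _ _ _ _ => trivial, fun _ _ _ _ => trivial⟩
    ⟨fun _ _ _ _ => trivial, fun _ _ _ _ => trivial⟩ g.w1 g.A0 g.B0
    (st1_of s (ls4 g z0 z1 A1 B1 ft hv) g.w1 g.A0 g.B0 lo g.hi)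
    (st1_of ⟨s.k0, s.ky, s.kx, s.Y0, s.Y1, s.X0, s.X1⟩ h g.w1 g.B0 g.A0 (by linarith)
      (by linarith [g.hi]))

theorem st2_5 {x y w A B : ℝ} (g : Hc x y w A B) (A1 : A ≤ 1) (lo : w + 9 / 20 < A + B)
    (hv : bb w (1 - A) x y + (W0 x y - W1 x y) < vl w A B) :
    St2 (nu x) (nu y) (kk x y) x y (W0 x y) (fun _ _ => True) True True w A B
      (bb w (1 - A) x y) := by
  have e : bb w (1 - A) y x = bb w (1 - A) x y := bb_comm w (1 - A) y x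
  have hv' : bb w (1 - A) y x + (W0 y x - W1 y x) < vl w B A := by
    rw [W0_comm y x, W1_comm y x, vl_comm w B A, e]
    exact hv
  have h := ls6 g.swap A1 hv'
  rw [kk_comm y x, W0_comm y x, e] at h
  have s := sg_of g.x0 g.x1 g.y0 g.y1
  have s2 := side_of g.y0 g.y1 g.x0 g.x1
  rw [kk_comm y x] at s2
  exact St2.of (side_of g.x0 g.x1 g.y0 g.y1) s2 s.k0 ⟨fun _ _ _ _ => trivial, fun _ _ _ _ => trivial⟩
    ⟨fun _ _ _ _ => trivial, fun _ _ _ _ => trivial⟩ g.w1 g.A0 g.B0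
    (st1_of s (ls5 g A1 hv) g.w1 g.A0 g.B0 lo g.hi)
    (st1_of ⟨s.k0, s.ky, s.kx, s.Y0, s.Y1, s.X0, s.X1⟩ h g.w1 g.B0 g.A0 (by linarith)
      (by linarith [g.hi]))

theorem st2_6 {x y w A B : ℝ} (g : Hc x y w A B) (B1 : B ≤ 1) (lo : w + 9 / 20 < A + B)
    (hv : bb w (1 - B) x y + (W0 x y - W1 x y) < vl w A B) :
    St2 (nu x) (nu y) (kk x y) x y (W0 x y) (fun _ _ => True) True True w A B
      (bb w (1 - B) x y) := by
  have e : bb w (1 - B) y x = bb w (1 - B) x y := bb_comm w (1 - B) y x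
  have hv' : bb w (1 - B) y x + (W0 y x - W1 y x) < vl w B A := by
    rw [W0_comm y x, W1_comm y x, vl_comm w B A, e]
    exact hv
  have h := ls5 g.swap B1 hv'
  rw [kk_comm y x, W0_comm y x, e] at h
  have s := sg_of g.x0 g.x1 g.y0 g.y1
  have s2 := side_of g.y0 g.y1 g.x0 g.x1
  rw [kk_comm y x] at s2
  exact St2.of (side_of g.x0 g.x1 g.y0 g.y1) s2 s.k0 ⟨fun _ _ _ _ => trivial, fun _ _ _ _ => trivial⟩
    ⟨fun _ _ _ _ => trivial, fun _ _ _ _ => trivial⟩ g.w1 g.A0 g.B0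
    (st1_of s (ls6 g B1 hv) g.w1 g.A0 g.B0 lo g.hi)
    (st1_of ⟨s.k0, s.ky, s.kx, s.Y0, s.Y1, s.X0, s.X1⟩ h g.w1 g.B0 g.A0 (by linarith)
      (by linarith [g.hi]))

/-- the value `two, the column x`: a cell of height at least `11/20` -/
theorem ll3 {x y z w A B : ℝ} (x0 : 0 ≤ x) (x1 : x ≤ 3 / 5) (y0 : 0 ≤ y) (y1 : y ≤ 3 / 5)
    (z0 : 0 ≤ z) (z1 : z ≤ 3 / 5) (w0 : 0 ≤ w) (w1 : w ≤ 1) (A0 : 0 ≤ A) (B0 : 0 ≤ B) (B1 : B ≤ 1)
    (lo : w ≤ A + B) (hi : A + B ≤ w + 9 / 20) :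
    vl w A B ≤ gg x y z - ph (1 - B) y z + (W0 x y - W1 x y) := by
  rw [vl_comm w A B, gg_comm x y z, W0_comm x y, W1_comm x y]
  exact ll2 y0 y1 x0 x1 z0 z1 w0 w1 B0 A0 B1 (by linarith) (by linarith)

/-- the value `the cap of the column x`: a cell of height at least `11/20` -/
theorem ll6 {x y w A B : ℝ} (x0 : 0 ≤ x) (x1 : x ≤ 3 / 5) (y0 : 0 ≤ y) (y1 : y ≤ 3 / 5)
    (w0 : 0 ≤ w) (w1 : w ≤ 1) (A0 : 0 ≤ A) (B0 : 0 ≤ B) (B1 : B ≤ 1)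
    (lo : w ≤ A + B) (hi : A + B ≤ w + 9 / 20) :
    vl w A B ≤ bb w (1 - B) x y + (W0 x y - W1 x y) := by
  rw [vl_comm w A B, bb_comm w _ x y, W0_comm x y, W1_comm x y]
  exact ll5 y0 y1 x0 x1 w0 w1 B0 A0 B1 (by linarith) (by linarith)

/-- the value `one` -/
theorem bd1 {x y w A B : ℝ} (x0 : 0 ≤ x) (x1 : x ≤ 3 / 5) (y0 : 0 ≤ y) (y1 : y ≤ 3 / 5)
    (c : Cl w A B) :
    Bd (nu x) (nu y) (kk x y) x y (W1 x y) (W0 x y) (fun _ _ => True) flA w A B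
      (ph w x y) :=
  Bd.free (fun h => ll1 x0 x1 y0 y1 c.w0.le c.w1 c.A0 c.B0 c.lo h)
    fun h h2 => st2_1 ⟨x0, x1, y0, y1, c.w0.le, c.w1, c.A0, c.B0, c.hi, h.le⟩ h (h2 trivial)

/-- the value `two, the column `y`` -/
theorem bd2 {x y z w A B : ℝ} (x0 : 0 ≤ x) (x1 : x ≤ 3 / 5) (y0 : 0 ≤ y) (y1 : y ≤ 3 / 5) (z0 : 0 ≤ z) (z1 : z ≤ 3 / 5)
    (c : Cl w A B) (A1 : A ≤ 1) :
    Bd (nu x) (nu y) (kk x y) x y (W1 x y) (W0 x y) (fun _ _ => True) flA w A B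
      (gg x y z - ph (1 - A) x z) :=
  Bd.free (fun h => ll2 x0 x1 y0 y1 z0 z1 c.w0.le c.w1 c.A0 c.B0 A1 c.lo h)
    fun h h2 => st2_2 ⟨x0, x1, y0, y1, c.w0.le, c.w1, c.A0, c.B0, c.hi, h.le⟩ z0 z1 A1 h (h2 trivial)

/-- the value `two, the column `x`` -/
theorem bd3 {x y z w A B : ℝ} (x0 : 0 ≤ x) (x1 : x ≤ 3 / 5) (y0 : 0 ≤ y) (y1 : y ≤ 3 / 5) (z0 : 0 ≤ z) (z1 : z ≤ 3 / 5)
    (c : Cl w A B) (B1 : B ≤ 1) :
    Bd (nu x) (nu y) (kk x y) x y (W1 x y) (W0 x y) (fun _ _ => True) flA w A B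
      (gg x y z - ph (1 - B) y z) :=
  Bd.free (fun h => ll3 x0 x1 y0 y1 z0 z1 c.w0.le c.w1 c.A0 c.B0 B1 c.lo h)
    fun h h2 => st2_3 ⟨x0, x1, y0, y1, c.w0.le, c.w1, c.A0, c.B0, c.hi, h.le⟩ z0 z1 B1 h (h2 trivial)

/-- the value `three` -/
theorem bd4 {x y z w A B : ℝ} (x0 : 0 ≤ x) (x1 : x ≤ 3 / 5) (y0 : 0 ≤ y) (y1 : y ≤ 3 / 5) (z0 : 0 ≤ z) (z1 : z ≤ 3 / 5)
    (c : Cl w A B) (A1 : A ≤ 1) (B1 : B ≤ 1)
    (ft : 3 / 100 + (W0 x y - W1 x y) < vl w A B) :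
    Bd (nu x) (nu y) (kk x y) x y (W1 x y) (W0 x y) (fun _ _ => True) flA w A B
      (gg x y z + 3 / 100 - ph (1 - A) x z - ph (1 - B) y z) :=
  Bd.free (fun h => ll4 x0 x1 y0 y1 z0 z1 c.w0.le c.w1 c.A0 c.B0 A1 B1 c.lo h ft)
    fun h h2 => st2_4 ⟨x0, x1, y0, y1, c.w0.le, c.w1, c.A0, c.B0, c.hi, h.le⟩ z0 z1 A1 B1 ft h (h2 trivial)

/-- the value `the cap of the column `y`` -/
theorem bd5 {x y w A B : ℝ} (x0 : 0 ≤ x) (x1 : x ≤ 3 / 5) (y0 : 0 ≤ y) (y1 : y ≤ 3 / 5)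
    (c : Cl w A B) (A1 : A ≤ 1) :
    Bd (nu x) (nu y) (kk x y) x y (W1 x y) (W0 x y) (fun _ _ => True) flA w A B
      (bb w (1 - A) x y) :=
  Bd.free (fun h => ll5 x0 x1 y0 y1 c.w0.le c.w1 c.A0 c.B0 A1 c.lo h)
    fun h h2 => st2_5 ⟨x0, x1, y0, y1, c.w0.le, c.w1, c.A0, c.B0, c.hi, h.le⟩ A1 h (h2 trivial)

/-- the value `the cap of the column `x`` -/
theorem bd6 {x y w A B : ℝ} (x0 : 0 ≤ x) (x1 : x ≤ 3 / 5) (y0 : 0 ≤ y) (y1 : y ≤ 3 / 5)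
    (c : Cl w A B) (B1 : B ≤ 1) :
    Bd (nu x) (nu y) (kk x y) x y (W1 x y) (W0 x y) (fun _ _ => True) flA w A B
      (bb w (1 - B) x y) :=
  Bd.free (fun h => ll6 x0 x1 y0 y1 c.w0.le c.w1 c.A0 c.B0 B1 c.lo h)
    fun h h2 => st2_6 ⟨x0, x1, y0, y1, c.w0.le, c.w1, c.A0, c.B0, c.hi, h.le⟩ B1 h (h2 trivial)

/-- `ph ≤ gg` -/
theorem ph_le_gg {x y z w : ℝ} (x0 : 0 ≤ x) (x1 : x ≤ 3 / 5) (y0 : 0 ≤ y) (y1 : y ≤ 3 / 5)
    (z0 : 0 ≤ z) (z1 : z ≤ 3 / 5) (w0 : 0 ≤ w) (w1 : w ≤ 1) : ph w x y ≤ gg x y z := by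
  have h1 : w ^ 2 ≤ w := by nlinarith
  have h2 : w ^ 3 ≤ w := by nlinarith [mul_nonneg w0 w0]
  have hxy := mul_nonneg x0 y0
  have h3 := mul_nonneg x0 z0
  have h4 := mul_nonneg y0 z0
  have e1 : 0 ≤ 1299 / 10000 + 1262 / 10000 * (x + y) := by linarith
  have e2 := mul_le_mul_of_nonneg_right h1 e1
  have hx := mul_nonneg x0 (sub_nonneg.2 x1)
  have hy := mul_nonneg y0 (sub_nonneg.2 y1)
  have hz := mul_nonneg z0 (sub_nonneg.2 z1)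
  have e3 : 0 ≤ 1046 / 10000 + 1280 / 10000 * (x + y) - 585 / 10000 * (x ^ 2 + y ^ 2)
    + 3631 / 10000 * (x * y) + (1299 / 10000 + 1262 / 10000 * (x + y)) + 426 / 10000 := by
    nlinarith
  have e4 := mul_le_mul_of_nonneg_right w1 e3
  unfold ph gg
  nlinarith

/-- `bb` is decreasing in the support -/
theorem bb_anti {x y w c c' : ℝ} (x0 : 0 ≤ x) (y0 : 0 ≤ y) (w0 : 0 ≤ w) (c0 : 0 ≤ c) (h : c ≤ c') :
    bb w c' x y ≤ bb w c x y := by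
  have h1 : w * c ^ 2 ≤ w * c' ^ 2 :=
    mul_le_mul_of_nonneg_left (pow_le_pow_left₀ c0 h 2) w0
  have h2 : w ^ 2 * c ≤ w ^ 2 * c' := mul_le_mul_of_nonneg_left h (sq_nonneg w)
  have h3 : w * c * (x + y) ≤ w * c' * (x + y) :=
    mul_le_mul_of_nonneg_right (mul_le_mul_of_nonneg_left h w0) (add_nonneg x0 y0)
  unfold bb
  linarith

/-- **All the values of the gain of a two-row column in the case `OL0'`.** -/
theorem modes {x y z : ℝ} (x0 : 0 ≤ x) (x1 : x ≤ 3 / 5) (y0 : 0 ≤ y) (y1 : y ≤ 3 / 5)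
    (z0 : 0 ≤ z) (z1 : z ≤ 3 / 5) :
    Modes (nu x) (nu y) (kk x y) x y (W1 x y) (W0 x y) 0 (gg x y z) (3 / 100)
      (fun _ _ _ _ _ => True) flA (fun w => ph w x y) (fun w => ph w y z) (fun w => ph w x z)
      (fun w c => bb w c x y) (fun w c => bb w c x y) where
  one := fun w A B c => by
    rw [zero_mul, add_zero]
    exact bd1 x0 x1 y0 y1 c
  top := fun w A B c => by
    rw [zero_mul, add_zero]
    exact (bd1 x0 x1 y0 y1 c).mono (ph_le_gg x0 x1 y0 y1 z0 z1 c.w0.le c.w1)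
  twoy := fun w A B c A1 => by
    rw [zero_mul, add_zero]
    exact bd2 x0 x1 y0 y1 z0 z1 c A1
  twox := fun w A B c B1 => by
    rw [zero_mul, add_zero]
    exact bd3 x0 x1 y0 y1 z0 z1 c B1
  three := fun w A B c A1 B1 => by
    rw [zero_mul, add_zero, add_zero]
    rcases lt_or_ge (3 / 100 + (W0 x y - W1 x y)) (vl w A B) with h | h
    · exact Or.inl (bd4 x0 x1 y0 y1 z0 z1 c A1 B1 h)
    · exact Or.inr (Bd.small trivial h)
  capy := fun w A B s c s0 s1 => by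
    rw [zero_mul, add_zero]
    exact (bd5 x0 x1 y0 y1 c (by linarith)).mono (bb_anti x0 y0 c.w0.le s0 s1)
  capx := fun w A B s c s0 s1 => by
    rw [zero_mul, add_zero]
    exact (bd6 x0 x1 y0 y1 c (by linarith)).mono (bb_anti x0 y0 c.w0.le s0 s1)

end Pool.Agent.Helper70.OL
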