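import Pool.Agent.Helper70.OL.Lst

/-!
# The lists of a two-row column whose row `x` is weak

As `Lst`, but the row `x` has only `SideW`: its far cells of height up to `7/20` are in the fields `r`
and `xr` of `St1W`. The row `y` has `Side`. Kind A on both rows.
-/

set_option autoImplicit false

namespace Pool.Agent.Helper70.OL

open Pool.Agent.Helper84.TS Pool.Agent.Helper36.TS Pool.Agent.Helper74.TS Pool.Agent.Helper83.TS
  Pool.Agent.Helper78.TS

/-- the signs of the symbols -/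
structure S0 (nx ny k X Y : ℝ) : Prop where
  k0 : 0 ≤ k
  kx : 0 ≤ nx - k
  ky : 0 ≤ ny - k
  X0 : 0 ≤ X
  X1 : X ≤ 3 / 5
  Y0 : 0 ≤ Y
  Y1 : Y ≤ 3 / 5

/-- **The crude states of the weak row `x`.** -/
structure LRW (nx ny k X Y W w A B φ : ℝ) : Prop where
  r1 : ∀ d o, 0 ≤ d → d ≤ 7 / 20 → d ≤ X → A ≤ w + d - 1 → 0 ≤ o → o ≤ 13 / 20 → B ≤ 2 →
    Y - (B - 1) ≤ X - (d + o) →
    mj nx (1 - X) X (d + o) + mj (ny - k) (1 - Y) Y (B - 1) + fo2 o d + vl w A B ≤ W + φ
  r2 : ∀ d o, 0 ≤ d → d ≤ 7 / 20 → d ≤ X → A ≤ w + d - 1 → 0 ≤ o → o ≤ 13 / 20 → B ≤ 2 →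
    X - (d + o) ≤ Y - (B - 1) →
    mj (nx - k) (1 - X) X (d + o) + mj ny (1 - Y) Y (B - 1) + fo2 o d + vl w A B ≤ W + φ
  s1 : ∀ d o r, 0 ≤ d → d ≤ 7 / 20 → d ≤ X → A ≤ w + d - 1 → 0 ≤ o → o ≤ 13 / 20 →
    B - 1 ≤ r → r ≤ 13 / 20 → 0 ≤ 2 * w - A - B → Y - r ≤ X - (d + o) →
    mj nx (1 - X) X (d + o) + mj (ny - k) (1 - Y) Y r + fo2 o d + r * (2 * w - A - B)
      + vl w A B ≤ W + φ
  s2 : ∀ d o r, 0 ≤ d → d ≤ 7 / 20 → d ≤ X → A ≤ w + d - 1 → 0 ≤ o → o ≤ 13 / 20 →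
    B - 1 ≤ r → r ≤ 13 / 20 → 0 ≤ 2 * w - A - B → X - (d + o) ≤ Y - r →
    mj (nx - k) (1 - X) X (d + o) + mj ny (1 - Y) Y r + fo2 o d + r * (2 * w - A - B)
      + vl w A B ≤ W + φ
  t1 : 13 / 20 < B - 1 → ∀ d o, 0 ≤ d → d ≤ 7 / 20 → d ≤ X → A ≤ w + d - 1 → 0 ≤ o →
    o ≤ 13 / 20 → 0 ≤ 2 * w - A - B → Y - (B - 1) ≤ X - (d + o) →
    mj nx (1 - X) X (d + o) + mj (ny - k) (1 - Y) Y (B - 1) + fo2 o d
      + 13 / 20 * (2 * w - A - B) + vl w A B ≤ W + φ
  t2 : 13 / 20 < B - 1 → ∀ d o, 0 ≤ d → d ≤ 7 / 20 → d ≤ X → A ≤ w + d - 1 → 0 ≤ o →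
    o ≤ 13 / 20 → 0 ≤ 2 * w - A - B → X - (d + o) ≤ Y - (B - 1) →
    mj (nx - k) (1 - X) X (d + o) + mj ny (1 - Y) Y (B - 1) + fo2 o d
      + 13 / 20 * (2 * w - A - B) + vl w A B ≤ W + φ
  /-- the far cell is higher than the row -/
  p1 : ∀ d o, d ≤ 7 / 20 → X ≤ d → A ≤ w + d - 1 → 0 ≤ o → o ≤ 13 / 20 → B ≤ 2 →
    Y - (B - 1) ≤ -o →
    ng nx X o + mj (ny - k) (1 - Y) Y (B - 1) + fo2 o d + vl w A B ≤ W + φ
  p2 : ∀ d o, d ≤ 7 / 20 → X ≤ d → A ≤ w + d - 1 → 0 ≤ o → o ≤ 13 / 20 → B ≤ 2 →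
    -o ≤ Y - (B - 1) →
    ng (nx - k) X o + mj ny (1 - Y) Y (B - 1) + fo2 o d + vl w A B ≤ W + φ
  q1 : ∀ d o r, d ≤ 7 / 20 → X ≤ d → A ≤ w + d - 1 → 0 ≤ o → o ≤ 13 / 20 →
    B - 1 ≤ r → r ≤ 13 / 20 → 0 ≤ 2 * w - A - B → Y - r ≤ -o →
    ng nx X o + mj (ny - k) (1 - Y) Y r + fo2 o d + r * (2 * w - A - B) + vl w A B ≤ W + φ
  q2 : ∀ d o r, d ≤ 7 / 20 → X ≤ d → A ≤ w + d - 1 → 0 ≤ o → o ≤ 13 / 20 →
    B - 1 ≤ r → r ≤ 13 / 20 → 0 ≤ 2 * w - A - B → -o ≤ Y - r →
    ng (nx - k) X o + mj ny (1 - Y) Y r + fo2 o d + r * (2 * w - A - B) + vl w A B ≤ W + φ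
  u1 : 13 / 20 < B - 1 → ∀ d o, d ≤ 7 / 20 → X ≤ d → A ≤ w + d - 1 → 0 ≤ o →
    o ≤ 13 / 20 → 0 ≤ 2 * w - A - B → Y - (B - 1) ≤ -o →
    ng nx X o + mj (ny - k) (1 - Y) Y (B - 1) + fo2 o d + 13 / 20 * (2 * w - A - B)
      + vl w A B ≤ W + φ
  u2 : 13 / 20 < B - 1 → ∀ d o, d ≤ 7 / 20 → X ≤ d → A ≤ w + d - 1 → 0 ≤ o →
    o ≤ 13 / 20 → 0 ≤ 2 * w - A - B → -o ≤ Y - (B - 1) →
    ng (nx - k) X o + mj ny (1 - Y) Y (B - 1) + fo2 o d + 13 / 20 * (2 * w - A - B)
      + vl w A B ≤ W + φ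

/-- all the lists of the weak row `x` -/
structure LSW (nx ny k X Y W w A B φ : ℝ) : Prop where
  c : LC nx ny k X Y W w A B φ
  x : LX nx ny k X Y W w A B φ
  r : LRW nx ny k X Y W w A B φ
  y : 1 < B → LY nx ny k X Y W w A B φ

section

variable {nx ny k X Y W w A B φ u v u' v' : ℝ}

/-- **The field `c`.** -/
theorem c_of0 (g : S0 nx ny k X Y) (L : LC nx ny k X Y W w A B φ) (w1 : w ≤ 1) (A0 : 0 ≤ A)
    (B0 : 0 ≤ B) (hi : A + B ≤ 1 + w) (ru : Row X u) (rv : Row Y v) (qx : u ≤ 1 - A + X)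
    (qy : v ≤ 1 - B + Y) : V2 nx ny k X Y u v + vl w A B ≤ W + φ := by
  obtain ⟨k0, kx, ky, X0, X1, Y0, Y1⟩ := g
  have lo := ru.lo
  have hi1 := ru.hi
  have lv := rv.lo
  have hv1 := rv.hi
  rcases lt_or_ge (1 + Y) B with hB | hB
  · have e1 : V2 nx ny k X Y u v ≤ V2 nx ny k X Y u (-(B - 1 - Y)) :=
      V2_up' k0 (by linarith) (sx_up (by linarith) (by linarith) lv (by linarith) (by linarith))
    have e2 : V2 nx ny k X Y u (-(B - 1 - Y)) ≤ V2 nx ny k X Y (max u 0) (-(B - 1 - Y)) := by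
      rcases le_total u 0 with h | h
      · rw [max_eq_right h]
        exact V2_up k0 h (sx_up (by linarith) (by linarith) lo h le_rfl)
      · rw [max_eq_left h]
    have u0 := le_max_right u 0
    have u1 : max u 0 ≤ 1 := max_le hi1 zero_le_one
    have u2 : max u 0 ≤ 1 - A + X := max_le qx (by linarith)
    rw [V2_le (by linarith : -(B - 1 - Y) ≤ max u 0), sx_ng (by linarith), sx_eq_st u0 u1] at e2
    have := L.c3 hB _ u0 u1 u2
    linarith
  rcases lt_or_ge (1 + X) A with hA | hA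
  · have e1 : V2 nx ny k X Y u v ≤ V2 nx ny k X Y (-(A - 1 - X)) v :=
      V2_up k0 (by linarith) (sx_up (by linarith) (by linarith) lo (by linarith) (by linarith))
    have e2 : V2 nx ny k X Y (-(A - 1 - X)) v ≤ V2 nx ny k X Y (-(A - 1 - X)) (max v 0) := by
      rcases le_total v 0 with h | h
      · rw [max_eq_right h]
        exact V2_up' k0 h (sx_up (by linarith) (by linarith) lv h le_rfl)
      · rw [max_eq_left h]
    have u0 := le_max_right v 0
    have u1 : max v 0 ≤ 1 := max_le hv1 zero_le_one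
    have u2 : max v 0 ≤ 1 - B + Y := max_le qy (by linarith)
    rw [V2_ge (by linarith : -(A - 1 - X) ≤ max v 0), sx_ng (by linarith), sx_eq_st u0 u1] at e2
    have := L.c4 hA _ u0 u1 u2
    linarith
  have e1 : V2 nx ny k X Y u v ≤ V2 nx ny k X Y (max u 0) v := by
    rcases le_total u 0 with h | h
    · rw [max_eq_right h]
      exact V2_up k0 h (sx_up (by linarith) (by linarith) lo h le_rfl)
    · rw [max_eq_left h]
  have e2 : V2 nx ny k X Y (max u 0) v ≤ V2 nx ny k X Y (max u 0) (max v 0) := by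
    rcases le_total v 0 with h | h
    · rw [max_eq_right h]
      exact V2_up' k0 h (sx_up (by linarith) (by linarith) lv h le_rfl)
    · rw [max_eq_left h]
  have u0 := le_max_right u 0
  have u1 : max u 0 ≤ 1 := max_le hi1 zero_le_one
  have u2 : max u 0 ≤ 1 - A + X := max_le qx (by linarith)
  have v0 := le_max_right v 0
  have v1 : max v 0 ≤ 1 := max_le hv1 zero_le_one
  have v2 : max v 0 ≤ 1 - B + Y := max_le qy (by linarith)
  generalize max u 0 = a at *
  generalize max v 0 = b at *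
  rcases le_total b a with h | h
  · rw [V2_le h, sx_eq_st u0 u1, sx_eq_st v0 v1] at e2
    have := L.c1 a b v0 h u1 u2 v2
    linarith
  · rw [V2_ge h, sx_eq_st u0 u1, sx_eq_st v0 v1] at e2
    have := L.c2 a b u0 h v1 u2 v2
    linarith

/-- **The field `x`.** -/
theorem x_of0 (g : S0 nx ny k X Y) (L : LX nx ny k X Y W w A B φ) (w1 : w ≤ 1) (A0 : 0 ≤ A)
    (B0 : 0 ≤ B) (lo' : w + 9 / 20 < A + B) (hi : A + B ≤ 1 + w) (o : ℝ) (ru : Row X u)
    (rv : Row Y v) (qx : u ≤ 1 - A + X) (qy : v ≤ 1 - B + Y) (o0 : 0 < o) (o1 : o ≤ 13 / 20)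
    (ho : u ≤ X - o) (ht : 0 ≤ max w o + w - A - B) :
    V2 nx ny k X Y u v + bn o (max w o + w - A - B) + vl w A B ≤ W + φ := by
  obtain ⟨k0, kx, ky, X0, X1, Y0, Y1⟩ := g
  have lo := ru.lo
  have hi1 := ru.hi
  have lv := rv.lo
  have hv1 := rv.hi
  -- a larger cell
  have big : ∀ p, o ≤ p → p ≤ 13 / 20 → 0 ≤ max w p + w - A - B ∧
      bn o (max w o + w - A - B) ≤ bn p (max w p + w - A - B) := by
    intro p h1 h2
    have h3 := max_le_max_left w h1
    have h4 : max w p ≤ 1 := max_le w1 (by linarith)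
    exact ⟨by linarith, bn_mono2 o0.le h1 (by linarith) ht (by linarith) (by linarith)⟩
  -- the entry `v` is raised
  have key : ∀ u' p, Row X u' → u' ≤ 1 - A + X → 0 ≤ p → p ≤ 13 / 20 →
      0 ≤ max w p + w - A - B → (p = X - u' ∨ (13 / 20 < A - 1 ∧ X - u' = A - 1 ∧ p = 13 / 20)) →
      V2 nx ny k X Y u' v + bn p (max w p + w - A - B) + vl w A B ≤ W + φ := by
    intro u' p ru' qx' p0 p1 T0 hp
    have lo' := ru'.lo
    have hi' := ru'.hi
    rcases lt_or_ge (1 + Y) B with hB | hB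
    · -- `v` is negative
      have e1 : V2 nx ny k X Y u' v ≤ V2 nx ny k X Y u' (-(B - 1 - Y)) :=
        V2_up' k0 (by linarith) (sx_up (by linarith) (by linarith) lv (by linarith) (by linarith))
      have hA : A < w := by linarith
      rcases hp with hp | hp
      · rcases le_total (-(B - 1 - Y)) u' with h | h
        · rw [V2_le h, sx_ng (by linarith)] at e1
          have e2 := sx_le_mj (X := nx) (d := X) (u := u') X0 p0 hp hi'
          have := L.f3 hB p p0 p1 (by linarith) T0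
          linarith
        · rw [V2_ge h, sx_ng (by linarith)] at e1
          have e2 := sx_le_mj (X := nx - k) (d := X) (u := u') X0 p0 hp hi'
          have := L.f4 hB p p0 p1 (by linarith) T0
          linarith
      · linarith [hp.1]
    · have e1 : V2 nx ny k X Y u' v ≤ V2 nx ny k X Y u' (max v 0) := by
        rcases le_total v 0 with h | h
        · rw [max_eq_right h]
          exact V2_up' k0 h (sx_up (by linarith) (by linarith) lv h le_rfl)
        · rw [max_eq_left h]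
      have v0 := le_max_right v 0
      have v1 : max v 0 ≤ 1 := max_le hv1 zero_le_one
      have v2 : max v 0 ≤ 1 - B + Y := max_le qy (by linarith)
      generalize max v 0 = z at *
      rcases hp with hp | hp
      · rcases le_total z u' with h | h
        · rw [V2_le h, sx_eq_st (v0.trans h) hi', sx_eq_st v0 v1] at e1
          have := L.f1 p z p0 p1 (by linarith) v0 (by linarith) v2 T0
          rw [show X - p = u' by linarith] at this
          linarith
        · rw [V2_ge h, sx_eq_st v0 v1] at e1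
          have e2 := sx_le_mj (X := nx - k) (d := X) (u := u') X0 p0 hp hi'
          have := L.f2 p z p0 p1 (by linarith) v0 v1 (by linarith) v2 T0
          linarith
      · obtain ⟨h1, h2, h3⟩ := hp
        subst h3
        have hw : 13 / 20 ≤ w := by linarith
        rw [max_eq_left hw] at T0 ⊢
        rw [V2_ge (by linarith : u' ≤ z), sx_eq_st v0 v1] at e1
        have e2 := sx_le_mj (X := nx - k) (d := X) (u := u') (s := A - 1) X0 (by linarith)
          h2.symm hi'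
        have := L.f5 h1 z v0 v1 v2 (by linarith)
        rw [show w + w - A - B = 2 * w - A - B by ring]
        linarith
  rcases le_total (X - u) (13 / 20) with h | h
  · obtain ⟨b1, b2⟩ := big (X - u) (by linarith) h
    have := key u (X - u) ru qx (by linarith) h b1 (Or.inl rfl)
    linarith
  · obtain ⟨b1, b2⟩ := big (13 / 20) o1 le_rfl
    rcases le_or_gt (A - 1) (13 / 20) with hA | hA
    · have e1 : V2 nx ny k X Y u v ≤ V2 nx ny k X Y (X - 13 / 20) v :=
        V2_up k0 (by linarith) (sx_up (by linarith) (by linarith) lo (by linarith) (by linarith))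
      have := key (X - 13 / 20) (13 / 20) ⟨ru.d0, ru.d1, by linarith, by linarith⟩ (by linarith)
        (by norm_num) le_rfl b1 (Or.inl (by ring))
      linarith
    · have e1 : V2 nx ny k X Y u v ≤ V2 nx ny k X Y (1 - A + X) v :=
        V2_up k0 qx (sx_up (by linarith) (by linarith) lo qx (by linarith))
      have := key (1 - A + X) (13 / 20) ⟨ru.d0, ru.d1, by linarith, by linarith⟩ le_rfl
        (by norm_num) le_rfl b1 (Or.inr ⟨hA, by ring, rfl⟩)
      linarith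

/-- the entries are raised: `u = X - s` or `s = 13/20` -/
theorem V2_s (k0 : 0 ≤ k) (kx : 0 ≤ nx - k) (X1 : X ≤ 3 / 5) (ru : Row X u) {o : ℝ} (o0 : 0 ≤ o)
    (o1 : o ≤ 13 / 20) (ho : u ≤ X - o) :
    ∃ s, 0 ≤ s ∧ s ≤ 13 / 20 ∧ o ≤ s ∧ X - s ≤ 1 ∧ V2 nx ny k X Y u v ≤ V2 nx ny k X Y (X - s) v := by
  rcases le_total (X - u) (13 / 20) with h | h
  · exact ⟨X - u, by linarith, h, by linarith, by linarith, by rw [show X - (X - u) = u by ring]⟩
  · exact ⟨13 / 20, by norm_num, le_rfl, o1, by linarith,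
      V2_up k0 (by linarith) (sx_up kx (by linarith) ru.lo (by linarith) (by linarith))⟩

theorem V2_s' (k0 : 0 ≤ k) (ky : 0 ≤ ny - k) (Y1 : Y ≤ 3 / 5) (rv : Row Y v) {p : ℝ}
    (p1 : p ≤ 13 / 20) (hp : v ≤ Y - p) (qy : v ≤ 1 - B + Y) (hB : B - 1 ≤ 13 / 20) :
    ∃ r, B - 1 ≤ r ∧ r ≤ 13 / 20 ∧ p ≤ r ∧ V2 nx ny k X Y u v ≤ V2 nx ny k X Y u (Y - r) := by
  rcases le_total (Y - v) (13 / 20) with h | h
  · exact ⟨Y - v, by linarith, h, by linarith, by rw [show Y - (Y - v) = v by ring]⟩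
  · exact ⟨13 / 20, hB, le_rfl, p1,
      V2_up' k0 (by linarith) (sx_up ky (by linarith) rv.lo (by linarith) (by linarith))⟩

/-- **The field `xy`.** -/
theorem xy_of0 (g : S0 nx ny k X Y) (L : LY nx ny k X Y W w A B φ) (w1 : w ≤ 1) (A0 : 0 ≤ A)
    (hi : A + B ≤ 1 + w) (hB1 : 1 < B) (o p : ℝ) (ru : Row X u) (rv : Row Y v)
    (qy : v ≤ 1 - B + Y) (o0 : 0 < o) (o1 : o ≤ 13 / 20) (ho : u ≤ X - o)
    (ht : 0 ≤ max w o + w - A - B) (p0 : 0 < p) (p1 : p ≤ 13 / 20) (hp : v ≤ Y - p)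
    (ht' : 0 ≤ max w p + w - A - B) :
    V2 nx ny k X Y u v + 13 / 20 * o * (max w o + w - A - B) + bn p (max w p + w - A - B)
      + vl w A B ≤ W + φ := by
  obtain ⟨k0, kx, ky, X0, X1, Y0, Y1⟩ := g
  have lv := rv.lo
  obtain ⟨T, hT⟩ : ∃ T, T = max w (13 / 20) + w - A - B := ⟨_, rfl⟩
  have hTo : max w o + w - A - B ≤ T := by
    rw [hT]
    linarith [max_le_max_left w o1]
  have hTp : max w p + w - A - B ≤ T := by
    rw [hT]
    linarith [max_le_max_left w p1]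
  have T0 : 0 ≤ T := ht.trans hTo
  have hb : o * (max w o + w - A - B) ≤ o * T := mul_le_mul_of_nonneg_left hTo o0.le
  have hb' : bn p (max w p + w - A - B) ≤ p * T :=
    (bn_le p0.le ht').trans (mul_le_mul_of_nonneg_left hTp p0.le)
  obtain ⟨s, s0, s1, hos, hs1, e1⟩ := V2_s (ny := ny) (Y := Y) (v := v) k0 kx X1 ru o0.le o1 ho
  have b1 := mul_le_mul_of_nonneg_right hos T0
  rcases le_or_gt (B - 1) (13 / 20) with hB | hB
  · obtain ⟨r, r0, r1, hpr, e2⟩ := V2_s' (nx := nx) (X := X) (u := X - s) k0 ky Y1 rv p1 hp qy hB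
    have rr : 0 ≤ r := by linarith
    have hr1 : Y - r ≤ 1 := by linarith
    have b2 := mul_le_mul_of_nonneg_right hpr T0
    rcases le_total (Y - r) (X - s) with h | h
    · rw [V2_le h] at e2
      have m1 := sx_le_mj (X := nx) (d := X) (u := X - s) X0 s0 (by ring) hs1
      have m2 := sx_le_mj (X := ny - k) (d := Y) (u := Y - r) Y0 rr (by ring) hr1
      have := L.y1 s r T s0 s1 r0 r1 h hT T0
      linarith
    · rw [V2_ge h] at e2
      have m1 := sx_le_mj (X := nx - k) (d := X) (u := X - s) X0 s0 (by ring) hs1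
      have m2 := sx_le_mj (X := ny) (d := Y) (u := Y - r) Y0 rr (by ring) hr1
      have := L.y2 s r T s0 s1 r0 r1 h hT T0
      linarith
  · have hw : 13 / 20 ≤ w := by linarith
    rw [max_eq_left hw] at hT
    have rr : 0 ≤ B - 1 := by linarith
    have e2 : V2 nx ny k X Y (X - s) v ≤ V2 nx ny k X Y (X - s) (Y - (B - 1)) :=
      V2_up' k0 (by linarith) (sx_up ky (by linarith) lv (by linarith) (by linarith))
    have hr1 : Y - (B - 1) ≤ 1 := by linarith
    have b2 := mul_le_mul_of_nonneg_right p1 T0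
    have hTe : T = 2 * w - A - B := by linarith
    rw [hTe] at b1 b2 hb hb' T0
    rcases le_total (Y - (B - 1)) (X - s) with h | h
    · rw [V2_le h] at e2
      have m1 := sx_le_mj (X := nx) (d := X) (u := X - s) X0 s0 (by ring) hs1
      have m2 := sx_le_mj (X := ny - k) (d := Y) (u := Y - (B - 1)) Y0 rr (by ring) hr1
      have := L.y3 hB s s0 s1 h T0
      linarith
    · rw [V2_ge h] at e2
      have m1 := sx_le_mj (X := nx - k) (d := X) (u := X - s) X0 s0 (by ring) hs1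
      have m2 := sx_le_mj (X := ny) (d := Y) (u := Y - (B - 1)) Y0 rr (by ring) hr1
      have := L.y4 hB s s0 s1 h T0
      linarith

/-- a crude far cell grows with its base -/
theorem fo2_mono {o o' d : ℝ} (o0 : 0 ≤ o) (h : o ≤ o') (o1 : o' ≤ 13 / 20) (d1 : d ≤ 7 / 20) :
    fo2 o d ≤ fo2 o' d := by
  unfold fo2
  have h1 : 0 ≤ o' - o := by linarith
  have h2 : 13 / 20 ≤ 1 - d := by linarith
  obtain ⟨e, he⟩ : ∃ e, e = 1 - d := ⟨_, rfl⟩
  rw [show 1 + o - d = e + o by rw [he]; ring, show 1 + o' - d = e + o' by rw [he]; ring]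
  rw [← he] at h2
  have o0' : 0 ≤ o' := by linarith
  have k1 : 0 ≤ (o' - o) * (3 * (e ^ 2) + 6 * e * (o + o') - (o ^ 2 + o * o' + o' ^ 2)) := by
    refine mul_nonneg h1 ?_
    nlinarith [mul_nonneg o0 o0', mul_nonneg o0 (sub_nonneg.2 h2), mul_nonneg o0'
      (sub_nonneg.2 h2), mul_nonneg o0 (sub_nonneg.2 (h.trans o1)), mul_nonneg o0'
      (sub_nonneg.2 o1)]
  nlinarith

/-- the entry of the weak row: `u = X - (d + o)` or `o = 13/20` -/
theorem V2_d (k0 : 0 ≤ k) (kx : 0 ≤ nx - k) (X1 : X ≤ 3 / 5) (ru : Row X u) {o d : ℝ}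
    (o0 : 0 ≤ o) (o1 : o ≤ 13 / 20) (d0 : 0 ≤ d) (d1 : d ≤ 7 / 20) (ho : u ≤ X - d - o) :
    ∃ p, 0 ≤ p ∧ p ≤ 13 / 20 ∧ fo2 o d ≤ fo2 p d ∧ X - (d + p) ≤ 1 ∧
      V2 nx ny k X Y u v ≤ V2 nx ny k X Y (X - (d + p)) v := by
  rcases le_total (X - u - d) (13 / 20) with h | h
  · exact ⟨X - u - d, by linarith, h, fo2_mono o0 (by linarith) h d1, by linarith,
      by rw [show X - (d + (X - u - d)) = u by ring]⟩
  · exact ⟨13 / 20, by norm_num, le_rfl, fo2_mono o0 o1 le_rfl d1, by linarith,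
      V2_up k0 (by linarith) (sx_up kx (by linarith) ru.lo (by linarith) (by linarith))⟩

/-- **The field `r` of the weak row.** -/
theorem r_ofW (g : S0 nx ny k X Y) (ky : 1 / 4 ≤ ny - k) (S : SideW (nx - k) X)
    (C : LC nx ny k X Y W w A B φ) (L : LRW nx ny k X Y W w A B φ) (A0 : 0 ≤ A)
    (B0 : 0 ≤ B) (lo' : w + 9 / 20 < A + B) (hi : A + B ≤ 1 + w) (w1 : w ≤ 1) (o d : ℝ)
    (ru : Row X u) (rv : Row Y v) (qy : v ≤ 1 - B + Y) (o0 : 0 < o)
    (o1 : o ≤ 13 / 20) (d0 : 0 ≤ d) (d1 : d ≤ 7 / 20) (hA : A ≤ max w o + d - 1)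
    (ho : u ≤ -o + max (X - d) 0) :
    V2 nx ny k X Y u v + (o * (1 + o - d) ^ 2 / 4 - o ^ 3 / 3) + vl w A B ≤ W + φ := by
  have X0 := g.X0
  have X1 := g.X1
  have Y0 := g.Y0
  have Y1 := g.Y1
  have kx := g.kx
  have lo := ru.lo
  have hv1 := rv.hi
  have hi1 := ru.hi
  rcases lt_or_ge w o with hwo | hwo
  · -- a very narrow cell
    rw [max_eq_right hwo.le] at hA
    have e1 : d = 7 / 20 := by linarith
    have e2 : o = 13 / 20 := by linarith
    have h1 := hipartW ru S o0.le o1 (by rw [e1] at ho; exact ho)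
    have h2 : u ≤ X := by
      have : max (X - d) 0 ≤ X := max_le (by linarith) X0
      linarith
    have h3 := v2_raise (nx := nx) (ny := ny) (Y := Y) (v := v) g.k0 h2 h1
    have h4 := c_of0 g C w1 A0 B0 hi (u := X) (v := v)
      ⟨ru.d0, ru.d1, by linarith, by linarith⟩ rv (by linarith) qy
    have h5 : o * (1 + o - d) ^ 2 / 4 - o ^ 3 / 3 = fm o := by
      unfold fm
      rw [e1]
      ring
    linarith
  rw [max_eq_left hwo] at hA
  have rr : 0 ≤ B - 1 := by linarith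
  have hvr : v ≤ Y - (B - 1) := by linarith
  have hr1 : Y - (B - 1) ≤ 1 := by linarith
  have ef : fo2 o d = o * (1 + o - d) ^ 2 / 4 - o ^ 3 / 3 := rfl
  rw [← ef]
  rcases le_total d X with hd | hd
  · rw [max_eq_left (by linarith : 0 ≤ X - d)] at ho
    obtain ⟨p, p0, p1, hf, hp1, e1⟩ := V2_d (ny := ny) (Y := Y) (v := v) g.k0 kx X1 ru o0.le o1 d0
      d1 (by linarith)
    have e2 : V2 nx ny k X Y (X - (d + p)) v ≤ V2 nx ny k X Y (X - (d + p)) (Y - (B - 1)) :=
      V2_up' g.k0 hvr (mono_top ky Y1 rv.lo hv1 rr hvr)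
    have ss : 0 ≤ d + p := by linarith
    rcases le_total (Y - (B - 1)) (X - (d + p)) with h | h
    · rw [V2_le h] at e2
      have m1 := sx_le_mj (X := nx) (d := X) (u := X - (d + p)) X0 ss (by ring) hp1
      have m2 := sx_le_mj (X := ny - k) (d := Y) (u := Y - (B - 1)) Y0 rr (by ring) hr1
      have := L.r1 d p d0 d1 hd hA p0 p1 (by linarith) h
      linarith
    · rw [V2_ge h] at e2
      have m1 := sx_le_mj (X := nx - k) (d := X) (u := X - (d + p)) X0 ss (by ring) hp1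
      have m2 := sx_le_mj (X := ny) (d := Y) (u := Y - (B - 1)) Y0 rr (by ring) hr1
      have := L.r2 d p d0 d1 hd hA p0 p1 (by linarith) h
      linarith
  · rw [max_eq_right (by linarith : X - d ≤ 0)] at ho
    have e1 : V2 nx ny k X Y u v ≤ V2 nx ny k X Y (-o) v :=
      V2_up g.k0 (by linarith) (sx_up kx (by linarith) lo (by linarith) (by linarith))
    have e2 : V2 nx ny k X Y (-o) v ≤ V2 nx ny k X Y (-o) (Y - (B - 1)) :=
      V2_up' g.k0 hvr (mono_top ky Y1 rv.lo hv1 rr hvr)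
    rcases le_total (Y - (B - 1)) (-o) with h | h
    · rw [V2_le h, sx_ng o0.le] at e2
      have m2 := sx_le_mj (X := ny - k) (d := Y) (u := Y - (B - 1)) Y0 rr (by ring) hr1
      have := L.p1 d o d1 hd hA o0.le o1 (by linarith) h
      linarith
    · rw [V2_ge h, sx_ng o0.le] at e2
      have m2 := sx_le_mj (X := ny) (d := Y) (u := Y - (B - 1)) Y0 rr (by ring) hr1
      have := L.p2 d o d1 hd hA o0.le o1 (by linarith) h
      linarith

/-- **The field `xr` of the weak row.** -/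
theorem xr_ofW (g : S0 nx ny k X Y) (S : SideW (nx - k) X)
    (D : ∀ v o, Row Y v → v ≤ 1 - B + Y → 0 < o → o ≤ 13 / 20 → v ≤ Y - o →
      0 ≤ max w o + w - A - B → V2 nx ny k X Y X v + bn o (max w o + w - A - B) + vl w A B ≤ W + φ)
    (L : LRW nx ny k X Y W w A B φ) (A0 : 0 ≤ A)
    (lo' : w + 9 / 20 < A + B) (hi : A + B ≤ 1 + w) (w1 : w ≤ 1) (o d p : ℝ)
    (ru : Row X u) (rv : Row Y v) (qy : v ≤ 1 - B + Y) (o0 : 0 < o)
    (o1 : o ≤ 13 / 20) (d0 : 0 ≤ d) (d1 : d ≤ 7 / 20) (hA : A ≤ max w o + d - 1)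
    (ho : u ≤ -o + max (X - d) 0) (p0 : 0 < p) (p1 : p ≤ 13 / 20) (hp : v ≤ Y - p)
    (hT : 0 ≤ max w p + w - A - B) :
    V2 nx ny k X Y u v + (o * (1 + o - d) ^ 2 / 4 - o ^ 3 / 3) + bn p (max w p + w - A - B)
      + vl w A B ≤ W + φ := by
  have X0 := g.X0
  have X1 := g.X1
  have Y0 := g.Y0
  have Y1 := g.Y1
  have kx := g.kx
  have ky := g.ky
  have lo := ru.lo
  have hv1 := rv.hi
  have hi1 := ru.hi
  rcases lt_or_ge w o with hwo | hwo
  · rw [max_eq_right hwo.le] at hA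
    have e1 : d = 7 / 20 := by linarith
    have e2 : o = 13 / 20 := by linarith
    have h1 := hipartW ru S o0.le o1 (by rw [e1] at ho; exact ho)
    have h2 : u ≤ X := by
      have : max (X - d) 0 ≤ X := max_le (by linarith) X0
      linarith
    have h3 := v2_raise (nx := nx) (ny := ny) (Y := Y) (v := v) g.k0 h2 h1
    have h4 := D v p rv qy p0 p1 hp hT
    have h5 : o * (1 + o - d) ^ 2 / 4 - o ^ 3 / 3 = fm o := by
      unfold fm
      rw [e1]
      ring
    linarith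
  rw [max_eq_left hwo] at hA
  have hwp : max w p = w := max_eq_left (by linarith)
  rw [hwp] at hT ⊢
  rw [show w + w - A - B = 2 * w - A - B by ring] at hT ⊢
  have hbn := bn_le p0.le hT
  have ef : fo2 o d = o * (1 + o - d) ^ 2 / 4 - o ^ 3 / 3 := rfl
  rw [← ef]
  -- the entry `v`
  have rr : 0 ≤ B - 1 := by linarith
  rcases le_total d X with hd | hd
  · rw [max_eq_left (by linarith : 0 ≤ X - d)] at ho
    obtain ⟨b, b0, b1, hf, hb1, e1⟩ := V2_d (ny := ny) (Y := Y) (v := v) g.k0 kx X1 ru o0.le o1 d0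
      d1 (by linarith)
    have ss : 0 ≤ d + b := by linarith
    rcases le_or_gt (B - 1) (13 / 20) with hB | hB
    · obtain ⟨r, r0, r1, hpr, e2⟩ := V2_s' (nx := nx) (X := X) (u := X - (d + b)) g.k0 ky Y1 rv p1
        hp qy hB
      have rr' : 0 ≤ r := by linarith
      have hr1 : Y - r ≤ 1 := by linarith
      have b2 := mul_le_mul_of_nonneg_right hpr hT
      rcases le_total (Y - r) (X - (d + b)) with h | h
      · rw [V2_le h] at e2
        have m1 := sx_le_mj (X := nx) (d := X) (u := X - (d + b)) X0 ss (by ring) hb1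
        have m2 := sx_le_mj (X := ny - k) (d := Y) (u := Y - r) Y0 rr' (by ring) hr1
        have := L.s1 d b r d0 d1 hd hA b0 b1 r0 r1 hT h
        linarith
      · rw [V2_ge h] at e2
        have m1 := sx_le_mj (X := nx - k) (d := X) (u := X - (d + b)) X0 ss (by ring) hb1
        have m2 := sx_le_mj (X := ny) (d := Y) (u := Y - r) Y0 rr' (by ring) hr1
        have := L.s2 d b r d0 d1 hd hA b0 b1 r0 r1 hT h
        linarith
    · have e2 : V2 nx ny k X Y (X - (d + b)) v ≤ V2 nx ny k X Y (X - (d + b)) (Y - (B - 1)) :=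
        V2_up' g.k0 (by linarith) (sx_up ky (by linarith) rv.lo (by linarith) (by linarith))
      have hr1 : Y - (B - 1) ≤ 1 := by linarith
      have b2 := mul_le_mul_of_nonneg_right p1 hT
      rcases le_total (Y - (B - 1)) (X - (d + b)) with h | h
      · rw [V2_le h] at e2
        have m1 := sx_le_mj (X := nx) (d := X) (u := X - (d + b)) X0 ss (by ring) hb1
        have m2 := sx_le_mj (X := ny - k) (d := Y) (u := Y - (B - 1)) Y0 rr (by ring) hr1
        have := L.t1 hB d b d0 d1 hd hA b0 b1 hT h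
        linarith
      · rw [V2_ge h] at e2
        have m1 := sx_le_mj (X := nx - k) (d := X) (u := X - (d + b)) X0 ss (by ring) hb1
        have m2 := sx_le_mj (X := ny) (d := Y) (u := Y - (B - 1)) Y0 rr (by ring) hr1
        have := L.t2 hB d b d0 d1 hd hA b0 b1 hT h
        linarith
  · rw [max_eq_right (by linarith : X - d ≤ 0)] at ho
    have e1 : V2 nx ny k X Y u v ≤ V2 nx ny k X Y (-o) v :=
      V2_up g.k0 (by linarith) (sx_up kx (by linarith) lo (by linarith) (by linarith))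
    rcases le_or_gt (B - 1) (13 / 20) with hB | hB
    · obtain ⟨r, r0, r1, hpr, e2⟩ := V2_s' (nx := nx) (X := X) (u := -o) g.k0 ky Y1 rv p1 hp qy hB
      have rr' : 0 ≤ r := by linarith
      have hr1 : Y - r ≤ 1 := by linarith
      have b2 := mul_le_mul_of_nonneg_right hpr hT
      rcases le_total (Y - r) (-o) with h | h
      · rw [V2_le h, sx_ng o0.le] at e2
        have m2 := sx_le_mj (X := ny - k) (d := Y) (u := Y - r) Y0 rr' (by ring) hr1
        have := L.q1 d o r d1 hd hA o0.le o1 r0 r1 hT h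
        linarith
      · rw [V2_ge h, sx_ng o0.le] at e2
        have m2 := sx_le_mj (X := ny) (d := Y) (u := Y - r) Y0 rr' (by ring) hr1
        have := L.q2 d o r d1 hd hA o0.le o1 r0 r1 hT h
        linarith
    · have e2 : V2 nx ny k X Y (-o) v ≤ V2 nx ny k X Y (-o) (Y - (B - 1)) :=
        V2_up' g.k0 (by linarith) (sx_up ky (by linarith) rv.lo (by linarith) (by linarith))
      have hr1 : Y - (B - 1) ≤ 1 := by linarith
      have b2 := mul_le_mul_of_nonneg_right p1 hT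
      rcases le_total (Y - (B - 1)) (-o) with h | h
      · rw [V2_le h, sx_ng o0.le] at e2
        have m2 := sx_le_mj (X := ny - k) (d := Y) (u := Y - (B - 1)) Y0 rr (by ring) hr1
        have := L.u1 hB d o d1 hd hA o0.le o1 hT h
        linarith
      · rw [V2_ge h, sx_ng o0.le] at e2
        have m2 := sx_le_mj (X := ny) (d := Y) (u := Y - (B - 1)) Y0 rr (by ring) hr1
        have := L.u2 hB d o d1 hd hA o0.le o1 hT h
        linarith

/-- the entry `d - s`, `s ≥ 3/20`, as an upper bound, for a weak row -/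
theorem mono_topW {c d u s : ℝ} (S : SideW c d) (d0 : 0 ≤ d) (d1 : d ≤ 3 / 5)
    (lo : -(1 - d) ≤ u) (hi : u ≤ 1) (s0 : 3 / 20 ≤ s) (h : u ≤ d - s) :
    sx c d u ≤ sx c d (d - s) := by
  unfold SideW at S
  refine sx_mono (by linarith) (by linarith) lo hi h ?_
  have h1 : (1 - d) * (d - s) ≤ (1 - d) * (d - 3 / 20) :=
    mul_le_mul_of_nonneg_left (by linarith) (by linarith)
  nlinarith [sq_nonneg (d - 91 / 200)]

/-- **The field `r` of the row `y` with `Side`, the other row is weak**; here `x` is the row with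
`Side` and `y` the weak one. -/
theorem r_ofS (g : S0 nx ny k X Y) (kx : 1 / 4 ≤ nx - k) (S : SideW (ny - k) Y)
    (L : LR nx ny k X Y W w A B φ) (A0 : 0 ≤ A)
    (lo' : w + 9 / 20 < A + B) (hi : A + B ≤ 1 + w) (o d : ℝ) (ru : Row X u)
    (rv : Row Y v) (qy : v ≤ 1 - B + Y) (o0 : 0 < o) (o1 : o ≤ 13 / 20) (d0 : 0 ≤ d)
    (d1 : d ≤ 3 / 10) (dX : d ≤ X) (hA : A ≤ w + d - 1) (ho : u ≤ X - d - o) (w1 : w ≤ 1) :
    V2 nx ny k X Y u v + (o * (1 + o - d) ^ 2 / 4 - o ^ 3 / 3) + vl w A B ≤ W + φ := by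
  obtain ⟨k0, -, ky, X0, X1, Y0, Y1⟩ := g
  have hi1 := ru.hi
  have hv1 := rv.hi
  have rr : 3 / 20 ≤ B - 1 := by linarith
  have rr0 : 0 ≤ B - 1 := by linarith
  have ss : 0 ≤ d + o := by linarith
  have hvr : v ≤ Y - (B - 1) := by linarith
  have hus : u ≤ X - (d + o) := by linarith
  have e1 : V2 nx ny k X Y u v ≤ V2 nx ny k X Y (X - (d + o)) v :=
    V2_up k0 hus (mono_top kx X1 ru.lo hi1 ss hus)
  have e2 : V2 nx ny k X Y (X - (d + o)) v ≤ V2 nx ny k X Y (X - (d + o)) (Y - (B - 1)) :=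
    V2_up' k0 hvr (mono_topW S Y0 Y1 rv.lo hv1 rr hvr)
  have hs1 : X - (d + o) ≤ 1 := by linarith
  have hr1 : Y - (B - 1) ≤ 1 := by linarith
  have ef : fo2 o d = o * (1 + o - d) ^ 2 / 4 - o ^ 3 / 3 := rfl
  rw [← ef]
  rcases le_total (Y - (B - 1)) (X - (d + o)) with h | h
  · rw [V2_le h] at e2
    have m1 := sx_le_mj (X := nx) (d := X) (u := X - (d + o)) X0 ss (by ring) hs1
    have m2 := sx_le_mj (X := ny - k) (d := Y) (u := Y - (B - 1)) Y0 rr0 (by ring) hr1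
    have := L.r1 d o d0 d1 dX hA o0.le o1 (by linarith) h
    linarith
  · rw [V2_ge h] at e2
    have m1 := sx_le_mj (X := nx - k) (d := X) (u := X - (d + o)) X0 ss (by ring) hs1
    have m2 := sx_le_mj (X := ny) (d := Y) (u := Y - (B - 1)) Y0 rr0 (by ring) hr1
    have := L.r2 d o d0 d1 dX hA o0.le o1 (by linarith) h
    linarith

/-- **The field `xr` of the row with `Side`, the other row is weak.** -/
theorem xr_ofS (g : S0 nx ny k X Y) (kx : 1 / 4 ≤ nx - k)
    (L : LR nx ny k X Y W w A B φ) (A0 : 0 ≤ A)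
    (lo' : w + 9 / 20 < A + B) (hi : A + B ≤ 1 + w) (w1 : w ≤ 1) (o d p : ℝ) (ru : Row X u)
    (rv : Row Y v) (qy : v ≤ 1 - B + Y) (o0 : 0 < o) (o1 : o ≤ 13 / 20) (d0 : 0 ≤ d)
    (d1 : d ≤ 3 / 10) (dX : d ≤ X) (hA : A ≤ w + d - 1) (ho : u ≤ X - d - o) (p0 : 0 < p)
    (p1 : p ≤ 13 / 20) (hp : v ≤ Y - p) (hT : 0 ≤ 2 * w - A - B) :
    V2 nx ny k X Y u v + (o * (1 + o - d) ^ 2 / 4 - o ^ 3 / 3) + bn p (2 * w - A - B)
      + vl w A B ≤ W + φ := by
  obtain ⟨k0, -, ky, X0, X1, Y0, Y1⟩ := g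
  have hi1 := ru.hi
  have hv1 := rv.hi
  have ss : 0 ≤ d + o := by linarith
  have hus : u ≤ X - (d + o) := by linarith
  have e1 : V2 nx ny k X Y u v ≤ V2 nx ny k X Y (X - (d + o)) v :=
    V2_up k0 hus (mono_top kx X1 ru.lo hi1 ss hus)
  have hs1 : X - (d + o) ≤ 1 := by linarith
  have ef : fo2 o d = o * (1 + o - d) ^ 2 / 4 - o ^ 3 / 3 := rfl
  have hbn := bn_le p0.le hT
  rw [← ef]
  rcases le_or_gt (B - 1) (13 / 20) with hB | hB
  · obtain ⟨r, r0, r1, hpr, e2⟩ := V2_s' (nx := nx) (X := X) (u := X - (d + o)) k0 ky Y1 rv p1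
      hp qy hB
    have rr : 0 ≤ r := by linarith
    have hr1 : Y - r ≤ 1 := by linarith
    have b2 := mul_le_mul_of_nonneg_right hpr hT
    rcases le_total (Y - r) (X - (d + o)) with h | h
    · rw [V2_le h] at e2
      have m1 := sx_le_mj (X := nx) (d := X) (u := X - (d + o)) X0 ss (by ring) hs1
      have m2 := sx_le_mj (X := ny - k) (d := Y) (u := Y - r) Y0 rr (by ring) hr1
      have := L.s1 d o r d0 d1 dX hA o0.le o1 r0 r1 hT h
      linarith
    · rw [V2_ge h] at e2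
      have m1 := sx_le_mj (X := nx - k) (d := X) (u := X - (d + o)) X0 ss (by ring) hs1
      have m2 := sx_le_mj (X := ny) (d := Y) (u := Y - r) Y0 rr (by ring) hr1
      have := L.s2 d o r d0 d1 dX hA o0.le o1 r0 r1 hT h
      linarith
  · have rr : 0 ≤ B - 1 := by linarith
    have e2 : V2 nx ny k X Y (X - (d + o)) v ≤ V2 nx ny k X Y (X - (d + o)) (Y - (B - 1)) :=
      V2_up' k0 (by linarith) (sx_up ky (by linarith) rv.lo (by linarith) (by linarith))
    have hr1 : Y - (B - 1) ≤ 1 := by linarith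
    have b2 := mul_le_mul_of_nonneg_right p1 hT
    rcases le_total (Y - (B - 1)) (X - (d + o)) with h | h
    · rw [V2_le h] at e2
      have m1 := sx_le_mj (X := nx) (d := X) (u := X - (d + o)) X0 ss (by ring) hs1
      have m2 := sx_le_mj (X := ny - k) (d := Y) (u := Y - (B - 1)) Y0 rr (by ring) hr1
      have := L.t1 hB d o d0 d1 dX hA o0.le o1 hT h
      linarith
    · rw [V2_ge h] at e2
      have m1 := sx_le_mj (X := nx - k) (d := X) (u := X - (d + o)) X0 ss (by ring) hs1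
      have m2 := sx_le_mj (X := ny) (d := Y) (u := Y - (B - 1)) Y0 rr (by ring) hr1
      have := L.t2 hB d o d0 d1 dX hA o0.le o1 hT h
      linarith

/-- **A column with a weak row `x` and a row `y` with `Side` from the lists**, kind A on both. -/
theorem st2_weak (g : S0 nx ny k X Y) (Sx : SideW (nx - k) X) (Sy : Side (ny - k) Y)
    (L : LSW nx ny k X Y W w A B φ) (L' : LS ny nx k Y X W w B A φ)
    (w1 : w ≤ 1) (A0 : 0 ≤ A) (B0 : 0 ≤ B) (lo : w + 9 / 20 < A + B) (hi : A + B ≤ 1 + w) :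
    St2 nx ny k X Y W (fun _ _ => True) True True w A B φ := by
  have ky := Sy.u4
  have g' : S0 ny nx k Y X := ⟨g.k0, g.ky, g.kx, g.Y0, g.Y1, g.X0, g.X1⟩
  have lo2 : w + 9 / 20 < B + A := by linarith
  have hi2 : B + A ≤ 1 + w := by linarith
  have hc : ∀ u v, Row X u → Row Y v → u ≤ 1 - A + X → v ≤ 1 - B + Y →
      V2 nx ny k X Y u v + vl w A B ≤ W + φ := fun u v ru rv hu hv =>
    c_of0 g L.c w1 A0 B0 hi ru rv hu hv
  have hx : ∀ u v o, Row X u → Row Y v → u ≤ 1 - A + X → v ≤ 1 - B + Y → 0 < o → o ≤ 13 / 20 →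
      u ≤ X - o → 0 ≤ max w o + w - A - B →
      V2 nx ny k X Y u v + bn o (max w o + w - A - B) + vl w A B ≤ W + φ :=
    fun u v o ru rv hu hv o0 o1 ho ht => x_of0 g L.x w1 A0 B0 lo hi o ru rv hu hv o0 o1 ho ht
  have hy : ∀ u v o, Row X u → Row Y v → u ≤ 1 - A + X → v ≤ 1 - B + Y → 0 < o → o ≤ 13 / 20 →
      v ≤ Y - o → 0 ≤ max w o + w - A - B →
      V2 nx ny k X Y u v + bn o (max w o + w - A - B) + vl w A B ≤ W + φ := by
    intro u v o ru rv hu hv o0 o1 ho ht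
    have := x_of0 g' L'.x w1 B0 A0 lo2 hi2 o rv ru hv hu o0 o1 ho (by linarith)
    rw [V2_swap ny nx, vl_comm w B A, show max w o + w - B - A = max w o + w - A - B by ring]
      at this
    exact this
  have hr : ∀ u v o d, Row X u → Row Y v → v ≤ 1 - B + Y → 0 < o → o ≤ 13 / 20 → 0 ≤ d →
      d ≤ 7 / 20 → A ≤ max w o + d - 1 → u ≤ -o + max (X - d) 0 →
      V2 nx ny k X Y u v + (o * (1 + o - d) ^ 2 / 4 - o ^ 3 / 3) + vl w A B ≤ W + φ :=
    fun u v o d ru rv hv o0 o1 d0 d1 hA ho =>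
      r_ofW g ky Sx L.c L.r A0 B0 lo hi w1 o d ru rv hv o0 o1 d0 d1 hA ho
  have hxy : 1 < B → ∀ u v o p, Row X u → Row Y v →
      v ≤ 1 - B + Y → 0 < o → o ≤ 13 / 20 → u ≤ X - o → 0 ≤ max w o + w - A - B →
      0 < p → p ≤ 13 / 20 → v ≤ Y - p → 0 ≤ max w p + w - A - B →
      V2 nx ny k X Y u v + 13 / 20 * o * (max w o + w - A - B) + bn p (max w p + w - A - B)
        + vl w A B ≤ W + φ := fun hB u v o p ru rv hv o0 o1 ho ht p0 p1 hp ht' =>
    xy_of0 g (L.y hB) w1 A0 hi hB o p ru rv hv o0 o1 ho ht p0 p1 hp ht'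
  have hxr : 1 < B → ∀ u v o d p, Row X u → Row Y v →
      v ≤ 1 - B + Y → 0 < o → o ≤ 13 / 20 → 0 ≤ d → d ≤ 7 / 20 → A ≤ max w o + d - 1 →
      u ≤ -o + max (X - d) 0 → 0 < p → p ≤ 13 / 20 → v ≤ Y - p → 0 ≤ max w p + w - A - B →
      V2 nx ny k X Y u v + (o * (1 + o - d) ^ 2 / 4 - o ^ 3 / 3) + bn p (max w p + w - A - B)
        + vl w A B ≤ W + φ := fun hB u v o d p ru rv hv o0 o1 d0 d1 hA ho p0 p1 hp hT => by
    have X0 := g.X0
    have X1 := g.X1
    have hm : max w o ≤ 1 := max_le w1 (by linarith)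
    refine xr_ofW g Sx (fun v' o' rv' hv' p0' p1' hp' hT' => ?_) L.r A0 lo hi w1 o d p ru rv hv o0
      o1 d0 d1 hA ho p0 p1 hp hT
    exact hy X v' o' ⟨X0, ru.d1, by linarith, by linarith⟩ rv' (by linarith) hv' p0' p1' hp' hT'
  have H' : St1 nx ny k X Y W (fun _ _ => True) True True w A B φ := by
    refine ⟨fun u v ru rv _ hu hv => hc u v ru rv (hu trivial) (hv trivial),
      fun u v o ru rv _ hu hv o0 o1 ho ht => hx u v o ru rv (hu trivial) (hv trivial) o0 o1 ho ht,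
      fun u v o d ru rv _ _ hv o0 o1 d0 d1 dX hA ho => ?_,
      fun _ hB u v o p ru rv _ _ hv o0 o1 ho ht p0 p1 hp ht' =>
        hxy hB u v o p ru rv hv o0 o1 ho ht p0 p1 hp ht',
      fun _ hB u v o d p ru rv _ _ hv o0 o1 d0 d1 dX hA ho p0 p1 hp hT => ?_⟩
    · exact hr u v o d ru rv (hv trivial) o0 o1 d0 (by linarith)
        (by linarith [le_max_left w o])
        (by rw [max_eq_left (by linarith : 0 ≤ X - d)]; linarith)
    · have hwp : max w p = w := max_eq_left (by linarith)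
      have := hxr hB u v o d p ru rv hv o0 o1 d0 (by linarith)
        (by linarith [le_max_left w o])
        (by rw [max_eq_left (by linarith : 0 ≤ X - d)]; linarith) p0 p1 hp
        (by rw [hwp]; linarith)
      rw [hwp, show w + w - A - B = 2 * w - A - B by ring] at this
      exact this
  have H : St1 ny nx k Y X W (fun _ _ => True) True True w B A φ := by
    refine ⟨fun v u rv ru _ hv hu => ?_, fun v u o rv ru _ hv hu o0 o1 ho ht => ?_,
      fun v u o d rv ru _ _ hu o0 o1 d0 d1 dY hB ho =>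
        r_ofS g' ky Sx L'.r B0 lo2 hi2 o d rv ru (hu trivial) o0 o1 d0 d1 dY hB ho w1,
      fun _ hA v u o p rv ru _ _ hu o0 o1 ho ht p0 p1 hp ht' =>
        xy_of0 g' (L'.y hA) w1 B0 hi2 hA o p rv ru hu o0 o1 ho ht p0 p1 hp ht',
      fun _ hA v u o d p rv ru _ _ hu o0 o1 d0 d1 dY hB ho p0 p1 hp hT =>
        xr_ofS g' ky L'.r B0 lo2 hi2 w1 o d p rv ru hu o0 o1 d0 d1 dY hB ho p0 p1 hp hT⟩
    · have := hc u v ru rv (hu trivial) (hv trivial)
      rw [V2_swap ny nx, vl_comm w B A]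
      exact this
    · have := hy u v o ru rv (hu trivial) (hv trivial) o0 o1 ho (by linarith)
      rw [V2_swap ny nx, vl_comm w B A, show max w o + w - B - A = max w o + w - A - B by ring]
      exact this
  refine ⟨⟨fun u v ru rv _ hu hv => hc u v ru rv (hu trivial) (hv trivial),
      fun u v o ru rv _ hu hv o0 o1 ho ht => hx u v o ru rv (hu trivial) (hv trivial) o0 o1 ho ht,
      fun u v o d ru rv _ _ hv o0 o1 d0 d1 hA ho => hr u v o d ru rv (hv trivial) o0 o1 d0 d1 hA ho,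
      fun _ hB u v o p ru rv _ _ hv o0 o1 ho ht p0 p1 hp ht' =>
        hxy hB u v o p ru rv hv o0 o1 ho ht p0 p1 hp ht',
      fun _ hB u v o d p ru rv _ _ hv o0 o1 d0 d1 hA ho p0 p1 hp hT =>
        hxr hB u v o d p ru rv hv o0 o1 d0 d1 hA ho p0 p1 hp hT⟩, ?_⟩
  exact H.toW Sy g.k0 ⟨fun _ _ _ _ => trivial, fun _ _ _ _ => trivial⟩ H' w1 B0

end

end Pool.Agent.Helper70.OL
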