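import Pool.Agent.Helper70.OL.Lst

/-!
# The lists of a witness column

The cell of the low class is of kind B on the row `x` (`1 - A + X < u`) and of kind A on the row `y`;
the row `x` may be weak (`SideW` is enough for it, it is not used here), the row `y` has `Side`.
Entries: `u ≥ 1 - A + X`, `v = Y - s`.
-/

set_option autoImplicit false

namespace Pool.Agent.Helper70.OL

open Pool.Agent.Helper84.TS Pool.Agent.Helper36.TS Pool.Agent.Helper74.TS Pool.Agent.Helper83.TS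
  Pool.Agent.Helper78.TS

/-- **All the lists of a witness column**, kind B on `x`. -/
structure LW (nx ny k X Y W w A B φ : ℝ) : Prop where
  /-- no own far cell, `v ≤ u` -/
  c1 : ∀ u v, 0 ≤ v → v ≤ u → u ≤ 1 → 1 - A + X ≤ u → v ≤ 1 - B + Y →
    st nx X u + st (ny - k) Y v + vl w A B ≤ W + φ
  /-- no own far cell, `u ≤ v` -/
  c2 : ∀ u v, 0 ≤ u → u ≤ v → v ≤ 1 → 1 - A + X ≤ u → v ≤ 1 - B + Y →
    st (nx - k) X u + st ny Y v + vl w A B ≤ W + φ
  /-- no own far cell, `v < 0` -/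
  c3 : 1 + Y < B → ∀ u, 0 ≤ u → u ≤ 1 → 1 - A + X ≤ u →
    st nx X u + ng (ny - k) Y (B - 1 - Y) + vl w A B ≤ W + φ
  /-- a far cell of `x`, `v ≤ u` -/
  x1 : ∀ s v, 0 ≤ s → s ≤ 13 / 20 → s ≤ A - 1 → 0 ≤ v → v ≤ X - s → v ≤ 1 - B + Y →
    0 ≤ 2 * w - A - B → st nx X (X - s) + st (ny - k) Y v + bn s (2 * w - A - B) + vl w A B ≤ W + φ
  /-- a far cell of `x`, `u ≤ v` -/
  x2 : ∀ s v, 0 ≤ s → s ≤ 13 / 20 → s ≤ A - 1 → 0 ≤ v → v ≤ 1 → X - s ≤ v → v ≤ 1 - B + Y →
    0 ≤ 2 * w - A - B →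
    mj (nx - k) (1 - X) X s + st ny Y v + bn s (2 * w - A - B) + vl w A B ≤ W + φ
  /-- a far cell of `y`, `v ≤ u` -/
  y1 : ∀ s u, 0 ≤ s → s ≤ 13 / 20 → B - 1 ≤ s → 0 ≤ u → u ≤ 1 → Y - s ≤ u → 1 - A + X ≤ u →
    0 ≤ max w s + w - A - B →
    st nx X u + mj (ny - k) (1 - Y) Y s + bn s (max w s + w - A - B) + vl w A B ≤ W + φ
  /-- a far cell of `y`, `u ≤ v` -/
  y2 : ∀ s u, 0 ≤ s → s ≤ 13 / 20 → B - 1 ≤ s → 0 ≤ u → u ≤ Y - s → 1 - A + X ≤ u →
    0 ≤ max w s + w - A - B →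
    st (nx - k) X u + st ny Y (Y - s) + bn s (max w s + w - A - B) + vl w A B ≤ W + φ
  /-- a far cell of `y`, a very low cap on `y` -/
  y3 : 13 / 20 < B - 1 → ∀ u, 0 ≤ u → u ≤ 1 → 1 - A + X ≤ u → 0 ≤ 2 * w - A - B →
    st nx X u + mj (ny - k) (1 - Y) Y (B - 1) + bn (13 / 20) (2 * w - A - B) + vl w A B ≤ W + φ
  /-- a crude far cell of `y`, `v ≤ u` -/
  r1 : ∀ u d o, 0 ≤ u → u ≤ 1 → 1 - A + X ≤ u → 0 ≤ d → d ≤ 3 / 10 → d ≤ Y → B ≤ w + d - 1 →
    0 ≤ o → o ≤ 13 / 20 → Y - (d + o) ≤ u →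
    st nx X u + mj (ny - k) (1 - Y) Y (d + o) + fo2 o d + vl w A B ≤ W + φ
  /-- a crude far cell of `y`, `u ≤ v` -/
  r2 : ∀ u d o, 0 ≤ u → u ≤ 1 → 1 - A + X ≤ u → 0 ≤ d → d ≤ 3 / 10 → d ≤ Y → B ≤ w + d - 1 →
    0 ≤ o → o ≤ 13 / 20 → u ≤ Y - (d + o) →
    st (nx - k) X u + mj ny (1 - Y) Y (d + o) + fo2 o d + vl w A B ≤ W + φ

section

variable {nx ny k X Y W w A B φ u v : ℝ}

/-- the signs of the symbols, the row `x` may be weak -/
structure Sw (nx ny k X Y : ℝ) : Prop where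
  k0 : 0 ≤ k
  kx : 0 ≤ nx - k
  ky : 1 / 4 ≤ ny - k
  X0 : 0 ≤ X
  X1 : X ≤ 3 / 5
  Y0 : 0 ≤ Y
  Y1 : Y ≤ 3 / 5

/-- a negative entry `u` is raised to `0` -/
theorem V2_z (g : Sw nx ny k X Y) (ru : Row X u) :
    V2 nx ny k X Y u v ≤ V2 nx ny k X Y (max u 0) v := by
  rcases le_total u 0 with h | h
  · rw [max_eq_right h]
    exact V2_up g.k0 h (sx_up g.kx (by linarith [g.X1]) ru.lo h le_rfl)
  · rw [max_eq_left h]

theorem V2_z' (g : Sw nx ny k X Y) (rv : Row Y v) :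
    V2 nx ny k X Y u v ≤ V2 nx ny k X Y u (max v 0) := by
  rcases le_total v 0 with h | h
  · rw [max_eq_right h]
    exact V2_up' g.k0 h (sx_up (by linarith [g.ky]) (by linarith [g.Y1]) rv.lo h le_rfl)
  · rw [max_eq_left h]

/-- the field `c` -/
theorem wc_of (g : Sw nx ny k X Y) (L : LW nx ny k X Y W w A B φ) (ru : Row X u) (rv : Row Y v)
    (q : 1 - A + X < u) (qy : v ≤ 1 - B + Y) (B1 : B ≤ 2) :
    V2 nx ny k X Y u v + vl w A B ≤ W + φ := by
  have X1 := g.X1
  have Y0 := g.Y0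
  have Y1 := g.Y1
  have ky := g.ky
  have u0 := le_max_right u 0
  have u1 : max u 0 ≤ 1 := max_le ru.hi zero_le_one
  have u2 : 1 - A + X ≤ max u 0 := q.le.trans (le_max_left _ _)
  have e1 := V2_z (v := v) g ru
  generalize max u 0 = a at *
  rcases lt_or_ge (1 + Y) B with hB | hB
  · have e2 : V2 nx ny k X Y a v ≤ V2 nx ny k X Y a (-(B - 1 - Y)) :=
      V2_up' g.k0 (by linarith) (sx_up (by linarith) (by linarith) rv.lo (by linarith)
        (by linarith))
    rw [V2_le (by linarith : -(B - 1 - Y) ≤ a), sx_ng (by linarith), sx_eq_st u0 u1] at e2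
    have := L.c3 hB a u0 u1 u2
    linarith
  · have e2 := V2_z' (u := a) g rv
    have v0 := le_max_right v 0
    have v1 : max v 0 ≤ 1 := max_le rv.hi zero_le_one
    have v2 : max v 0 ≤ 1 - B + Y := max_le qy (by linarith)
    generalize max v 0 = b at *
    rcases le_total b a with h | h
    · rw [V2_le h, sx_eq_st u0 u1, sx_eq_st v0 v1] at e2
      have := L.c1 a b v0 h u1 u2 v2
      linarith
    · rw [V2_ge h, sx_eq_st u0 u1, sx_eq_st v0 v1] at e2
      have := L.c2 a b u0 h v1 u2 v2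
      linarith

/-- the field `x` of the row `x` -/
theorem wx_of (g : Sw nx ny k X Y) (L : LW nx ny k X Y W w A B φ) (w1 : w ≤ 1) (B0 : 0 ≤ B)
    (hi : A + B ≤ 1 + w) (o : ℝ) (ru : Row X u) (rv : Row Y v) (q : 1 - A + X < u)
    (qy : v ≤ 1 - B + Y) (o0 : 0 < o) (ho : u ≤ X - o)
    (o1 : o ≤ 13 / 20) (ht : 0 ≤ max w o + w - A - B) :
    V2 nx ny k X Y u v + bn o (max w o + w - A - B) + vl w A B ≤ W + φ := by
  have X0 := g.X0
  have X1 := g.X1
  have Y0 := g.Y0
  have Y1 := g.Y1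
  have kx := g.kx
  have ky := g.ky
  have lo := ru.lo
  have hi1 := ru.hi
  have hA : 1 + o < A := by linarith
  have hw : max w o = w := max_eq_left (by linarith)
  rw [hw] at ht ⊢
  rw [show w + w - A - B = 2 * w - A - B by ring] at ht ⊢
  have e0 := V2_z' (u := u) g rv
  have v0 := le_max_right v 0
  have v1 : max v 0 ≤ 1 := max_le rv.hi zero_le_one
  have v2 : max v 0 ≤ 1 - B + Y := max_le qy (by linarith)
  generalize max v 0 = z at *
  -- the entry `u = X - s`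
  have key : ∀ u' s, u ≤ u' → V2 nx ny k X Y u z ≤ V2 nx ny k X Y u' z → u' ≤ 1 → 0 ≤ s →
      s = X - u' → s ≤ 13 / 20 → o ≤ s → V2 nx ny k X Y u v + bn o (2 * w - A - B) + vl w A B ≤ W + φ := by
    intro u' s hu e1 h1 s0 hs s1 hos
    have hT : 2 * w - A - B ≤ 1 := by linarith
    have hb := bn_mono2 o0.le hos (by linarith) ht le_rfl hT
    rcases le_total z u' with h | h
    · rw [V2_le h, sx_eq_st (v0.trans h) h1, sx_eq_st v0 v1] at e1
      have := L.x1 s z s0 s1 (by linarith) v0 (by linarith) v2 ht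
      rw [show X - s = u' by linarith] at this
      linarith
    · rw [V2_ge h, sx_eq_st v0 v1] at e1
      have e2 := sx_le_mj (X := nx - k) (d := X) (u := u') X0 s0 hs h1
      have := L.x2 s z s0 s1 (by linarith) v0 v1 (by linarith) v2 ht
      linarith
  rcases le_total (X - u) (13 / 20) with h | h
  · exact key u (X - u) le_rfl le_rfl hi1 (by linarith) rfl h (by linarith)
  · refine key (X - 13 / 20) (13 / 20) (by linarith) ?_ (by linarith) (by norm_num) (by ring) le_rfl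
      o1
    exact V2_up g.k0 (by linarith) (sx_up kx (by linarith) lo (by linarith) (by linarith))

/-- the field `x` of the row `y` -/
theorem wy_of (g : Sw nx ny k X Y) (L : LW nx ny k X Y W w A B φ) (w1 : w ≤ 1) (A0 : 0 ≤ A)
    (B0 : 0 ≤ B) (lo' : w + 9 / 20 < A + B) (hi : A + B ≤ 1 + w) (o : ℝ) (ru : Row X u)
    (rv : Row Y v) (q : 1 - A + X < u) (qy : v ≤ 1 - B + Y) (o0 : 0 < o) (o1 : o ≤ 13 / 20)
    (ho : v ≤ Y - o) (ht : 0 ≤ max w o + w - A - B) :
    V2 nx ny k X Y u v + bn o (max w o + w - A - B) + vl w A B ≤ W + φ := by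
  have X0 := g.X0
  have X1 := g.X1
  have Y0 := g.Y0
  have Y1 := g.Y1
  have ky := g.ky
  have lv := rv.lo
  have hv1 := rv.hi
  have u0 := le_max_right u 0
  have u1 : max u 0 ≤ 1 := max_le ru.hi zero_le_one
  have u2 : 1 - A + X ≤ max u 0 := q.le.trans (le_max_left _ _)
  have e1 := V2_z (v := v) g ru
  generalize max u 0 = a at *
  -- a larger cell
  have big : ∀ p, o ≤ p → p ≤ 13 / 20 → 0 ≤ max w p + w - A - B ∧
      bn o (max w o + w - A - B) ≤ bn p (max w p + w - A - B) := by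
    intro p h1 h2
    have h3 := max_le_max_left w h1
    have h4 : max w p ≤ 1 := max_le w1 (by linarith)
    exact ⟨by linarith, bn_mono2 o0.le h1 (by linarith) ht (by linarith) (by linarith)⟩
  have key : ∀ v' p, V2 nx ny k X Y a v ≤ V2 nx ny k X Y a v' → v' ≤ 1 → o ≤ p → p ≤ 13 / 20 →
      B - 1 ≤ p → p = Y - v' →
      V2 nx ny k X Y u v + bn o (max w o + w - A - B) + vl w A B ≤ W + φ := by
    intro v' p e2 h1 hop p1 hBp hp
    obtain ⟨T0, hb⟩ := big p hop p1
    have p0 : 0 ≤ p := by linarith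
    rcases le_total v' a with h | h
    · rw [V2_le h, sx_eq_st u0 u1] at e2
      have m := sx_le_mj (X := ny - k) (d := Y) (u := v') Y0 p0 hp h1
      have := L.y1 p a p0 p1 hBp u0 u1 (by linarith) u2 T0
      linarith
    · rw [V2_ge h, sx_eq_st u0 u1, sx_eq_st (u0.trans h) h1] at e2
      have := L.y2 p a p0 p1 hBp u0 (by linarith) u2 T0
      rw [show Y - p = v' by linarith] at this
      linarith
  rcases le_total (Y - v) (13 / 20) with h | h
  · exact key v (Y - v) le_rfl hv1 (by linarith) h (by linarith) rfl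
  · rcases le_or_gt (B - 1) (13 / 20) with hB | hB
    · refine key (Y - 13 / 20) (13 / 20) ?_ (by linarith) o1 le_rfl hB (by ring)
      exact V2_up' g.k0 (by linarith)
        (sx_up (by linarith) (by linarith) lv (by linarith) (by linarith))
    · have e2 : V2 nx ny k X Y a v ≤ V2 nx ny k X Y a (1 - B + Y) :=
        V2_up' g.k0 qy (sx_up (by linarith) (by linarith) lv qy (by linarith))
      have hw : 13 / 20 ≤ w := by linarith
      obtain ⟨T0, hb⟩ := big (13 / 20) o1 le_rfl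
      rw [max_eq_left hw] at T0 hb
      rw [show w + w - A - B = 2 * w - A - B by ring] at T0 hb
      rw [V2_le (by linarith : 1 - B + Y ≤ a), sx_eq_st u0 u1] at e2
      have m := sx_le_mj (X := ny - k) (d := Y) (u := 1 - B + Y) (s := B - 1) Y0 (by linarith)
        (by ring) (by linarith)
      have := L.y3 hB a u0 u1 u2 T0
      linarith

/-- the field `r` of the row `y` -/
theorem wr_of (g : Sw nx ny k X Y) (L : LW nx ny k X Y W w A B φ) (o d : ℝ) (ru : Row X u)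
    (rv : Row Y v) (q : 1 - A + X < u) (o0 : 0 < o) (o1 : o ≤ 13 / 20) (d0 : 0 ≤ d)
    (d1 : d ≤ 3 / 10) (dY : d ≤ Y) (hB : B ≤ w + d - 1) (ho : v ≤ Y - d - o) :
    V2 nx ny k X Y u v + (o * (1 + o - d) ^ 2 / 4 - o ^ 3 / 3) + vl w A B ≤ W + φ := by
  have Y0 := g.Y0
  have Y1 := g.Y1
  have ky := g.ky
  have hv1 := rv.hi
  have u0 := le_max_right u 0
  have u1 : max u 0 ≤ 1 := max_le ru.hi zero_le_one
  have u2 : 1 - A + X ≤ max u 0 := q.le.trans (le_max_left _ _)
  have e1 := V2_z (v := v) g ru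
  generalize max u 0 = a at *
  have ss : 0 ≤ d + o := by linarith
  have hvs : v ≤ Y - (d + o) := by linarith
  have e2 : V2 nx ny k X Y a v ≤ V2 nx ny k X Y a (Y - (d + o)) :=
    V2_up' g.k0 hvs (mono_top ky Y1 rv.lo hv1 ss hvs)
  have hs1 : Y - (d + o) ≤ 1 := by linarith
  have ef : fo2 o d = o * (1 + o - d) ^ 2 / 4 - o ^ 3 / 3 := rfl
  rw [← ef]
  rcases le_total (Y - (d + o)) a with h | h
  · rw [V2_le h, sx_eq_st u0 u1] at e2
    have m := sx_le_mj (X := ny - k) (d := Y) (u := Y - (d + o)) Y0 ss (by ring) hs1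
    have := L.r1 a d o u0 u1 u2 d0 d1 dY hB o0.le o1 h
    linarith
  · rw [V2_ge h, sx_eq_st u0 u1] at e2
    have m := sx_le_mj (X := ny) (d := Y) (u := Y - (d + o)) Y0 ss (by ring) hs1
    have := L.r2 a d o u0 u1 u2 d0 d1 dY hB o0.le o1 h
    linarith

/-- **A witness column from the lists.** -/
theorem st2_wit (g : Sw nx ny k X Y) (S : Side (ny - k) Y) (L : LW nx ny k X Y W w A B φ)
    (w1 : w ≤ 1) (A0 : 0 ≤ A) (B0 : 0 ≤ B) (lo : w + 9 / 20 < A + B) (hi : A + B ≤ 1 + w) :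
    St2 nx ny k X Y W (fun u _ => 1 - A + X < u) False True w A B φ := by
  have hB2 : B ≤ 2 := by linarith
  have H' : St1 nx ny k X Y W (fun u _ => 1 - A + X < u) False True w A B φ := by
    refine ⟨fun u v ru rv q _ qy => wc_of g L ru rv q (qy trivial) hB2,
      fun u v o ru rv q _ qy o0 o1 ho ht => wx_of g L w1 B0 hi o ru rv q (qy trivial) o0 ho o1 ht,
      ?_, ?_, ?_⟩
    · intro u v o d ru rv q _ _ o0 o1 d0 d1 dX hA hu
      exfalso
      linarith
    · intro _ hB u v o p ru rv q _ _ o0 o1 ho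
      exfalso
      linarith
    · intro _ hB u v o d p ru rv q _ _ o0 o1 d0 d1 dX hA hu
      exfalso
      linarith
  have H : St1 ny nx k Y X W (fun v u => 1 - A + X < u) True False w B A φ := by
    refine ⟨fun v u rv ru q qy _ => ?_, fun v u o rv ru q qy _ o0 o1 ho ht => ?_,
      fun v u o d rv ru q _ _ o0 o1 d0 d1 dY hB ho => ?_, fun h => h.elim, fun h => h.elim⟩
    · have := wc_of g L ru rv q (qy trivial) hB2
      rw [V2_swap ny nx, vl_comm w B A]
      exact this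
    · have := wy_of g L w1 A0 B0 lo hi o ru rv q (qy trivial) o0 o1 ho (by linarith)
      rw [V2_swap ny nx, vl_comm w B A, show max w o + w - B - A = max w o + w - A - B by ring]
      exact this
    · have := wr_of g L o d ru rv q o0 o1 d0 d1 dY hB ho
      rw [V2_swap ny nx, vl_comm w B A]
      exact this
  have UY : Ups (fun v u => 1 - A + X < u) Y := ⟨fun _ _ h _ => h, fun _ _ h _ => h⟩
  refine ⟨⟨H'.c, H'.x, ?_, H'.xy, ?_⟩, H.toW S g.k0 UY H' w1 B0⟩
  · intro u v o d ru rv q _ _ o0 o1 d0 d1 hA hu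
    exfalso
    have h1 : max w o ≤ 1 := max_le w1 (by linarith)
    have h2 : max (X - d) 0 ≤ X := max_le (by linarith) g.X0
    linarith
  · intro _ hB u v o d p ru rv q _ _ o0 o1 d0 d1 hA hu
    exfalso
    have h1 : max w o ≤ 1 := max_le w1 (by linarith)
    have h2 : max (X - d) 0 ≤ X := max_le (by linarith) g.X0
    linarith

end

end Pool.Agent.Helper70.OL
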