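import Pool.Agent.Helper70.OL.Base
import Pool.Agent.Helper70.OL.Wit
import Pool.Agent.Helper70.OL.Weak

/-!
# Small lemmas for the generated files
-/

set_option autoImplicit false

namespace Pool.Agent.Helper70.OL

open Pool.Agent.Helper74.TS Pool.Agent.Helper83.TS Pool.Agent.Helper78.TS Pool.Agent.Helper36.TS

theorem st_le_mj {c d s : ℝ} (s0 : 0 ≤ s) : st c d (d - s) ≤ mj c (1 - d) d s := by
  have := mul_nonneg (sq_nonneg (d - s)) s0
  unfold st mj
  linarith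

theorem mj_zero (c d : ℝ) : mj c (1 - d) d 0 = st c d d := by
  unfold st mj
  ring

theorem bn_zero {t : ℝ} (h : 0 ≤ t) : bn 0 t = 0 := by
  rw [bn, min_eq_left h]
  ring

/-- the list `LC` of the other side -/
theorem LC.swap {nx ny k X Y W w A B φ : ℝ} (L : LC nx ny k X Y W w A B φ) :
    LC ny nx k Y X W w B A φ := by
  refine ⟨fun u v v0 vu u1 cu cv => ?_, fun u v u0 uv v1 cu cv => ?_, fun hB u u0 u1 cu => ?_,
    fun hA v v0 v1 cv => ?_⟩
  · have := L.c2 v u v0 vu u1 cv cu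
    rw [vl_comm w B A]
    linarith only [this]
  · have := L.c1 v u u0 uv v1 cv cu
    rw [vl_comm w B A]
    linarith only [this]
  · have := L.c4 hB u u0 u1 cu
    rw [vl_comm w B A]
    linarith only [this]
  · have := L.c3 hA v v0 v1 cv
    rw [vl_comm w B A]
    linarith only [this]

/-- a far cell of the row `x` of kind B with `A ≤ 1` is degenerate -/
theorem deg_x1 {nx ny k X Y W w A B φ : ℝ} (A1 : A ≤ 1) (X0 : 0 ≤ X) (X1 : X ≤ 3 / 5)
    (C : ∀ u v, 0 ≤ v → v ≤ u → u ≤ 1 → 1 - A + X ≤ u → v ≤ 1 - B + Y →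
      st nx X u + st (ny - k) Y v + vl w A B ≤ W + φ) :
    ∀ s v, 0 ≤ s → s ≤ 13 / 20 → s ≤ A - 1 → 0 ≤ v → v ≤ X - s → v ≤ 1 - B + Y →
      0 ≤ 2 * w - A - B →
      st nx X (X - s) + st (ny - k) Y v + bn s (2 * w - A - B) + vl w A B ≤ W + φ := by
  intro s v s0 s1 sA v0 vu cv T0
  have hs : s = 0 := by linarith
  have hA : A = 1 := by linarith
  subst hs
  have := C (X - 0) v v0 vu (by linarith) (by linarith) cv
  rw [bn_zero T0]
  linarith only [this]

theorem deg_x2 {nx ny k X Y W w A B φ : ℝ} (A1 : A ≤ 1) (X0 : 0 ≤ X)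
    (C : ∀ u v, 0 ≤ u → u ≤ v → v ≤ 1 → 1 - A + X ≤ u → v ≤ 1 - B + Y →
      st (nx - k) X u + st ny Y v + vl w A B ≤ W + φ) :
    ∀ s v, 0 ≤ s → s ≤ 13 / 20 → s ≤ A - 1 → 0 ≤ v → v ≤ 1 → X - s ≤ v → v ≤ 1 - B + Y →
      0 ≤ 2 * w - A - B →
      mj (nx - k) (1 - X) X s + st ny Y v + bn s (2 * w - A - B) + vl w A B ≤ W + φ := by
  intro s v s0 s1 sA v0 v1 vu cv T0
  have hs : s = 0 := by linarith
  have hA : A = 1 := by linarith
  subst hs
  have := C X v X0 (by linarith) v1 (by linarith) cv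
  rw [bn_zero T0, mj_zero]
  linarith only [this]

end Pool.Agent.Helper70.OL
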