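import Pool.Agent.Helper47.FC.Fin

/-!
# The fast check in the form of `cert`
-/

set_option autoImplicit false

namespace Pool.Agent.Helper70.OL

open Pool.Agent.Helper83.Cert Pool.Agent.Helper47.FC

/-- **Certificates for expressions, nine variables**, checked by helper47's program. -/
theorem certF {gs : List Ex} {p : Ex} {M k1 s1 k2 s2 : ℕ}
    (h : chkA V9 P9 1069 gs p M k1 s1 k2 s2 = true) {y : ℕ → ℝ} (hy : ∀ k, 0 ≤ y k)
    (hg : ∀ g ∈ gs, 0 ≤ exVal y g) : 0 ≤ exVal y p :=
  chkA_sound vars9 (by decide) h hy hg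

end Pool.Agent.Helper70.OL
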