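import Pool.Agent.Helper70.OL.Lst
import Pool.Agent.Helper19.TS.OL0D
import Pool.Agent.Helper34.TS.TwoFar

/-!
# The volume by regions, and the consequences of a volume of at least `3/100`
-/

set_option autoImplicit false

namespace Pool.Agent.Helper70.OL

open Pool.Agent.Helper74.TS Pool.Agent.Helper83.TS Pool.Agent.Helper78.TS
  Pool.Agent.Helper19.TS.OL0

theorem vq1 {w A B : ℝ} (h1 : w ≤ A) (h2 : w ≤ B) : vl w A B = w * A * B - w ^ 3 / 3 := by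
  rw [vl, max_eq_right (by linarith), max_eq_right (by linarith)]
  ring

theorem vq2 {w A B : ℝ} (h1 : A ≤ w) (h2 : w ≤ B) :
    vl w A B = w * A * B - w ^ 2 * A + w * A ^ 2 - A ^ 3 / 3 := by
  rw [vl, max_eq_left (by linarith), max_eq_right (by linarith)]
  ring

theorem vq3 {w A B : ℝ} (h1 : w ≤ A) (h2 : B ≤ w) :
    vl w A B = w * A * B - w ^ 2 * B + w * B ^ 2 - B ^ 3 / 3 := by
  rw [vl, max_eq_right (by linarith), max_eq_left (by linarith)]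
  ring

theorem vq4 {w A B : ℝ} (h1 : A ≤ w) (h2 : B ≤ w) :
    vl w A B = w * A * B - w ^ 3 / 3 + ((w - A) ^ 3 + (w - B) ^ 3) / 3 := by
  rw [vl, max_eq_left (by linarith), max_eq_left (by linarith)]

/-- the heights of the rows and a cell of the low class of height less than `11/20` -/
structure Hc (x y w A B : ℝ) : Prop where
  x0 : 0 ≤ x
  x1 : x ≤ 3 / 5
  y0 : 0 ≤ y
  y1 : y ≤ 3 / 5
  w0 : 0 ≤ w
  w1 : w ≤ 1
  A0 : 0 ≤ A
  B0 : 0 ≤ B
  hi : A + B ≤ 1 + w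
  lo : w + 9 / 20 ≤ A + B

theorem Hc.swap {x y w A B : ℝ} (g : Hc x y w A B) : Hc y x w B A :=
  ⟨g.y0, g.y1, g.x0, g.x1, g.w0, g.w1, g.B0, g.A0, by linarith [g.hi], by linarith [g.lo]⟩

/-- the cell of the low class adds at least `1/800` to the bound of a column -/
theorem W01 {x y : ℝ} (x0 : 0 ≤ x) (x1 : x ≤ 3 / 5) (y0 : 0 ≤ y) (y1 : y ≤ 3 / 5) :
    1 / 800 ≤ W0 x y - W1 x y := by
  unfold W0 W1
  nlinarith [mul_nonneg x0 y0, sq_nonneg (x - y), sq_nonneg (x + y - 1 / 5),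
    sq_nonneg (x + y - 3 / 5), sq_nonneg (x - 3 / 5), sq_nonneg (y - 3 / 5)]

/-- consequences of a volume of at least `3/100` -/
structure Li (w A B : ℝ) : Prop where
  l1 : 677 / 1000 ≤ A + B
  l2 : w + 1 / 20 ≤ A + B
  l3 : 32 / 100 + 7 / 10 * w ≤ A + B
  l4 : 12 / 100 + w ^ 3 ≤ w * (A + B) ^ 2
  lA : 3 / 100 ≤ w * A
  lB : 3 / 100 ≤ w * B
  lw : 1 / 10 ≤ w

/-- `4 vl + w³ ≤ w (A + B)²` -/
theorem vl_four {w A B : ℝ} (w0 : 0 ≤ w) (A0 : 0 ≤ A) (B0 : 0 ≤ B) (lo : w ≤ A + B) :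
    4 * vl w A B + w ^ 3 ≤ w * (A + B) ^ 2 := by
  have h := Pool.Agent.Helper34.TS.vl_mid34 w0 A0 B0 lo
  have h1 : (max (w - (A + B) / 2) 0) ^ 3 ≤ (w / 2) ^ 3 :=
    pow_le_pow_left₀ (le_max_right _ _) (max_le (by linarith) (by linarith)) 3
  nlinarith

/-- `vl ≤ w A B` -/
theorem vl_prod {w A B : ℝ} (w0 : 0 ≤ w) (A0 : 0 ≤ A) (B0 : 0 ≤ B) (lo : w ≤ A + B) :
    vl w A B ≤ w * A * B := by
  rcases le_total w A with a | a <;> rcases le_total w B with b | b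
  · rw [vq1 a b]
    linarith [pow_nonneg w0 3]
  · rw [vq3 a b]
    nlinarith [pow_nonneg B0 3, mul_nonneg (mul_nonneg w0 B0) (sub_nonneg.2 b)]
  · rw [vq2 a b]
    nlinarith [pow_nonneg A0 3, mul_nonneg (mul_nonneg w0 A0) (sub_nonneg.2 a)]
  · rw [vq4 a b]
    have h1 : (w - A) ^ 3 + (w - B) ^ 3 ≤ ((w - A) + (w - B)) ^ 3 := by
      nlinarith [mul_nonneg (mul_nonneg (sub_nonneg.2 a) (sub_nonneg.2 b))
        (add_nonneg (sub_nonneg.2 a) (sub_nonneg.2 b))]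
    have h2 : ((w - A) + (w - B)) ^ 3 ≤ w ^ 3 :=
      pow_le_pow_left₀ (by linarith) (by linarith) 3
    linarith

theorem li_w {w A B : ℝ} (w0 : 0 ≤ w) (w1 : w ≤ 1) (A0 : 0 ≤ A) (B0 : 0 ≤ B) (lo : w ≤ A + B)
    (hi : A + B ≤ w + 9 / 20) (h : 3 / 100 + 1 / 800 ≤ vl w A B) : 27 / 100 ≤ w := by
  have h4 := vl_four w0 A0 B0 lo
  have h5 : (A + B) ^ 2 ≤ (w + 9 / 20) ^ 2 := pow_le_pow_left₀ (by linarith) hi 2
  have h6 := mul_le_mul_of_nonneg_left h5 w0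
  by_contra hc
  push Not at hc
  nlinarith

theorem li_of {w A B : ℝ} (w0 : 0 ≤ w) (w1 : w ≤ 1) (A0 : 0 ≤ A) (B0 : 0 ≤ B) (A1 : A ≤ 1)
    (B1 : B ≤ 1) (lo : w ≤ A + B) (hi : A + B ≤ 1 + w) (h : 3 / 100 + 1 / 800 ≤ vl w A B) :
    Li w A B := by
  have h4 := vl_four w0 A0 B0 lo
  have hp := vl_prod w0 A0 B0 lo
  have l4 : 12 / 100 + w ^ 3 ≤ w * (A + B) ^ 2 := by linarith
  obtain ⟨S, hS⟩ : ∃ S, S = A + B := ⟨_, rfl⟩
  have hA := mul_le_mul_of_nonneg_left B1 (mul_nonneg w0 A0)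
  have hB := mul_le_mul_of_nonneg_left A1 (mul_nonneg w0 B0)
  refine ⟨?_, ?_, ?_, l4, by linarith, by nlinarith, ?_⟩
  · rw [← hS] at l4 lo ⊢
    by_contra hc
    push Not at hc
    have h1 : S ^ 2 ≤ (677 / 1000) ^ 2 := pow_le_pow_left₀ (by linarith) hc.le 2
    have h2 := mul_le_mul_of_nonneg_left h1 w0
    nlinarith [mul_nonneg w0 (sq_nonneg (w - 39 / 100)), sq_nonneg (w - 39 / 100)]
  · rw [← hS] at l4 lo ⊢
    by_contra hc
    push Not at hc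
    have h1 : S ^ 2 ≤ (w + 1 / 20) ^ 2 := pow_le_pow_left₀ (by linarith) hc.le 2
    have h2 := mul_le_mul_of_nonneg_left h1 w0
    nlinarith [mul_nonneg w0 (sub_nonneg.2 w1)]
  · rw [← hS] at l4 lo ⊢
    by_contra hc
    push Not at hc
    have h1 : S ^ 2 ≤ (32 / 100 + 7 / 10 * w) ^ 2 := pow_le_pow_left₀ (by linarith) hc.le 2
    have h2 := mul_le_mul_of_nonneg_left h1 w0
    nlinarith [mul_nonneg w0 (sq_nonneg (w - 69 / 100)), sq_nonneg (w - 69 / 100),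
      mul_nonneg w0 (sub_nonneg.2 w1)]
  · have h1 : (A + B) ^ 2 ≤ (1 + w) ^ 2 := pow_le_pow_left₀ (by linarith) hi 2
    have h2 := mul_le_mul_of_nonneg_left h1 w0
    by_contra hc
    push Not at hc
    nlinarith

/-! ### Symmetries -/

theorem kk_comm (x y : ℝ) : kk x y = kk y x := by
  unfold kk
  ring

theorem W0_comm (x y : ℝ) : W0 x y = W0 y x := by
  unfold W0
  ring

theorem W1_comm (x y : ℝ) : W1 x y = W1 y x := by
  unfold W1
  ring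

theorem ph_comm (w x y : ℝ) : ph w x y = ph w y x := by
  unfold ph
  ring

theorem gg_comm (x y z : ℝ) : gg x y z = gg y x z := by
  unfold gg
  ring

theorem bb_comm (w c x y : ℝ) : bb w c x y = bb w c y x := by
  unfold bb
  ring

end Pool.Agent.Helper70.OL
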