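import Pool.Agent.Helper70.OL.Base
import Pool.Agent.Helper70.OL.CeF4

/-!
# The states with own far cells, the value `three`
-/

set_option autoImplicit false
set_option linter.unusedSimpArgs false

namespace Pool.Agent.Helper70.OL

open Pool.Agent.Helper74.TS Pool.Agent.Helper83.TS Pool.Agent.Helper78.TS
  Pool.Agent.Helper19.TS.OL0

private theorem sn {a b : ℝ} (h : a ≤ b) : 0 ≤ b - a := sub_nonneg.2 h

private theorem sl {a b : ℝ} (h : a < b) : 0 ≤ b - a := sub_nonneg.2 h.le

private theorem nn {a b : ℝ} (h : a ≤ b) : 0 ≤ -a + b := by linarith only [h]

/-- one own far cell, `v ≤ u` -/
theorem ff4 {x y z w A B s v : ℝ} (g : Hc x y w A B) (z0 : 0 ≤ z) (z1 : z ≤ 3 / 5) (A1 : A ≤ 1) (B1 : B ≤ 1) (ft : 3 / 100 + (W0 x y - W1 x y) < vl w A B)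
    (hv : gg x y z + 3 / 100 - ph (1 - A) x z - ph (1 - B) y z + (W0 x y - W1 x y) < vl w A B)
    (s0 : 0 ≤ s) (s1 : s ≤ 13 / 20) (sA : A - 1 ≤ s) (v0 : 0 ≤ v) (vu : v ≤ x - s)
    (cv : v ≤ 1 - B + y) (T0 : 0 ≤ max w s + w - A - B) :
    st (nu x) x (x - s) + st (nu y - kk x y) y v + bn s (max w s + w - A - B) + vl w A B ≤
      W0 x y + (gg x y z + 3 / 100 - ph (1 - A) x z - ph (1 - B) y z) := by
  obtain ⟨x0, x1, y0, y1, w0, w1, A0, B0, hi, lo⟩ := g
  have hb := bn_le s0 T0
  rcases le_total s w with h | h
  · rw [max_eq_left h] at hb T0 ⊢
    rcases le_total w A with a | a <;> rcases le_total w B with b | b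
    · rw [vq1 a b] at hv ft ⊢
      simp only [st, mj, ng, nu, kk, W0, W1, ph, gg, bb, fo2] at hv ft ⊢
      exact sub_nonneg.1 ((add_nonneg (sub_nonneg.2 hb) (Ce.f411
            x0
            y0
            z0
            w0
            A0
            B0
            s0
            v0
            (sn x1)
            (sn y1)
            ((sn z1).trans_eq (by ring1))
            (sn w1)
            (nn a)
            (nn b)
            (sn A1)
            (sn B1)
            ((sn hi).trans_eq (by ring1))
            ((sn lo).trans_eq (by ring1))
            ((sl hv).trans_eq (by ring1))
            ((sl ft).trans_eq (by ring1))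
            ((sn h).trans_eq (by ring1))
            (T0.trans_eq (by ring1))
            (sn s1)
            ((sn sA).trans_eq (by ring1))
            ((sn vu).trans_eq (by ring1))
            ((sn cv).trans_eq (by ring1)))).trans_eq
              (by ring1))
    · rw [vq3 a b] at hv ft ⊢
      simp only [st, mj, ng, nu, kk, W0, W1, ph, gg, bb, fo2] at hv ft ⊢
      exact sub_nonneg.1 ((add_nonneg (sub_nonneg.2 hb) (Ce.f431
            x0
            y0
            z0
            w0
            A0
            B0
            s0
            v0
            (sn x1)
            (sn y1)
            ((sn z1).trans_eq (by ring1))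
            (sn w1)
            (nn a)
            (sn b)
            (sn A1)
            (sn B1)
            ((sn hi).trans_eq (by ring1))
            ((sn lo).trans_eq (by ring1))
            ((sl hv).trans_eq (by ring1))
            ((sl ft).trans_eq (by ring1))
            ((sn h).trans_eq (by ring1))
            (T0.trans_eq (by ring1))
            (sn s1)
            ((sn sA).trans_eq (by ring1))
            ((sn vu).trans_eq (by ring1))
            ((sn cv).trans_eq (by ring1)))).trans_eq
              (by ring1))
    · rw [vq2 a b] at hv ft ⊢
      simp only [st, mj, ng, nu, kk, W0, W1, ph, gg, bb, fo2] at hv ft ⊢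
      exact sub_nonneg.1 ((add_nonneg (sub_nonneg.2 hb) (Ce.f421
            x0
            y0
            z0
            w0
            A0
            B0
            s0
            v0
            (sn x1)
            (sn y1)
            ((sn z1).trans_eq (by ring1))
            (sn w1)
            (sn a)
            (nn b)
            (sn A1)
            (sn B1)
            ((sn hi).trans_eq (by ring1))
            ((sn lo).trans_eq (by ring1))
            ((sl hv).trans_eq (by ring1))
            ((sl ft).trans_eq (by ring1))
            ((sn h).trans_eq (by ring1))
            (T0.trans_eq (by ring1))
            (sn s1)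
            ((sn sA).trans_eq (by ring1))
            ((sn vu).trans_eq (by ring1))
            ((sn cv).trans_eq (by ring1)))).trans_eq
              (by ring1))
    · rw [vq4 a b] at hv ft ⊢
      simp only [st, mj, ng, nu, kk, W0, W1, ph, gg, bb, fo2] at hv ft ⊢
      exact sub_nonneg.1 ((add_nonneg (sub_nonneg.2 hb) (Ce.f441
            x0
            y0
            z0
            w0
            A0
            B0
            s0
            v0
            (sn x1)
            (sn y1)
            ((sn z1).trans_eq (by ring1))
            (sn w1)
            (sn a)
            (sn b)
            (sn A1)
            (sn B1)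
            ((sn hi).trans_eq (by ring1))
            ((sn lo).trans_eq (by ring1))
            ((sl hv).trans_eq (by ring1))
            ((sl ft).trans_eq (by ring1))
            ((sn h).trans_eq (by ring1))
            (T0.trans_eq (by ring1))
            (sn s1)
            ((sn sA).trans_eq (by ring1))
            ((sn vu).trans_eq (by ring1))
            ((sn cv).trans_eq (by ring1)))).trans_eq
              (by ring1))
  · rw [max_eq_right h] at hb T0 ⊢
    rcases le_total w A with a | a <;> rcases le_total w B with b | b
    · rw [vq1 a b] at hv ft ⊢
      simp only [st, mj, ng, nu, kk, W0, W1, ph, gg, bb, fo2] at hv ft ⊢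
      exact sub_nonneg.1 ((add_nonneg (sub_nonneg.2 hb) (Ce.f410
            x0
            y0
            z0
            w0
            A0
            B0
            s0
            v0
            (sn x1)
            (sn y1)
            ((sn z1).trans_eq (by ring1))
            (sn w1)
            (nn a)
            (nn b)
            (sn A1)
            (sn B1)
            ((sn hi).trans_eq (by ring1))
            ((sn lo).trans_eq (by ring1))
            ((sl hv).trans_eq (by ring1))
            ((sl ft).trans_eq (by ring1))
            ((sn h).trans_eq (by ring1))
            (T0.trans_eq (by ring1))
            (sn s1)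
            ((sn sA).trans_eq (by ring1))
            ((sn vu).trans_eq (by ring1))
            ((sn cv).trans_eq (by ring1)))).trans_eq
              (by ring1))
    · rw [vq3 a b] at hv ft ⊢
      simp only [st, mj, ng, nu, kk, W0, W1, ph, gg, bb, fo2] at hv ft ⊢
      exact sub_nonneg.1 ((add_nonneg (sub_nonneg.2 hb) (Ce.f430
            x0
            y0
            z0
            w0
            A0
            B0
            s0
            v0
            (sn x1)
            (sn y1)
            ((sn z1).trans_eq (by ring1))
            (sn w1)
            (nn a)
            (sn b)
            (sn A1)
            (sn B1)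
            ((sn hi).trans_eq (by ring1))
            ((sn lo).trans_eq (by ring1))
            ((sl hv).trans_eq (by ring1))
            ((sl ft).trans_eq (by ring1))
            ((sn h).trans_eq (by ring1))
            (T0.trans_eq (by ring1))
            (sn s1)
            ((sn sA).trans_eq (by ring1))
            ((sn vu).trans_eq (by ring1))
            ((sn cv).trans_eq (by ring1)))).trans_eq
              (by ring1))
    · rw [vq2 a b] at hv ft ⊢
      simp only [st, mj, ng, nu, kk, W0, W1, ph, gg, bb, fo2] at hv ft ⊢
      exact sub_nonneg.1 ((add_nonneg (sub_nonneg.2 hb) (Ce.f420
            x0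
            y0
            z0
            w0
            A0
            B0
            s0
            v0
            (sn x1)
            (sn y1)
            ((sn z1).trans_eq (by ring1))
            (sn w1)
            (sn a)
            (nn b)
            (sn A1)
            (sn B1)
            ((sn hi).trans_eq (by ring1))
            ((sn lo).trans_eq (by ring1))
            ((sl hv).trans_eq (by ring1))
            ((sl ft).trans_eq (by ring1))
            ((sn h).trans_eq (by ring1))
            (T0.trans_eq (by ring1))
            (sn s1)
            ((sn sA).trans_eq (by ring1))
            ((sn vu).trans_eq (by ring1))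
            ((sn cv).trans_eq (by ring1)))).trans_eq
              (by ring1))
    · rw [vq4 a b] at hv ft ⊢
      simp only [st, mj, ng, nu, kk, W0, W1, ph, gg, bb, fo2] at hv ft ⊢
      exact sub_nonneg.1 ((add_nonneg (sub_nonneg.2 hb) (Ce.f440
            x0
            y0
            z0
            w0
            A0
            B0
            s0
            v0
            (sn x1)
            (sn y1)
            ((sn z1).trans_eq (by ring1))
            (sn w1)
            (sn a)
            (sn b)
            (sn A1)
            (sn B1)
            ((sn hi).trans_eq (by ring1))
            ((sn lo).trans_eq (by ring1))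
            ((sl hv).trans_eq (by ring1))
            ((sl ft).trans_eq (by ring1))
            ((sn h).trans_eq (by ring1))
            (T0.trans_eq (by ring1))
            (sn s1)
            ((sn sA).trans_eq (by ring1))
            ((sn vu).trans_eq (by ring1))
            ((sn cv).trans_eq (by ring1)))).trans_eq
              (by ring1))

/-- one own far cell, `u ≤ v` -/
theorem gf4 {x y z w A B s v : ℝ} (g : Hc x y w A B) (z0 : 0 ≤ z) (z1 : z ≤ 3 / 5) (A1 : A ≤ 1) (B1 : B ≤ 1) (ft : 3 / 100 + (W0 x y - W1 x y) < vl w A B)
    (hv : gg x y z + 3 / 100 - ph (1 - A) x z - ph (1 - B) y z + (W0 x y - W1 x y) < vl w A B)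
    (s0 : 0 ≤ s) (s1 : s ≤ 13 / 20) (sA : A - 1 ≤ s) (v0 : 0 ≤ v) (v1 : v ≤ 1) (vu : x - s ≤ v)
    (cv : v ≤ 1 - B + y) (T0 : 0 ≤ max w s + w - A - B) :
    mj (nu x - kk x y) (1 - x) x s + st (nu y) y v + bn s (max w s + w - A - B) + vl w A B ≤
      W0 x y + (gg x y z + 3 / 100 - ph (1 - A) x z - ph (1 - B) y z) := by
  obtain ⟨x0, x1, y0, y1, w0, w1, A0, B0, hi, lo⟩ := g
  have hb := bn_le s0 T0
  rcases le_total s w with h | h
  · rw [max_eq_left h] at hb T0 ⊢
    rcases le_total w A with a | a <;> rcases le_total w B with b | b
    · rw [vq1 a b] at hv ft ⊢
      simp only [st, mj, ng, nu, kk, W0, W1, ph, gg, bb, fo2] at hv ft ⊢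
      exact sub_nonneg.1 ((add_nonneg (sub_nonneg.2 hb) (Ce.g411
            x0
            y0
            z0
            w0
            A0
            B0
            s0
            v0
            (sn x1)
            (sn y1)
            ((sn z1).trans_eq (by ring1))
            (sn w1)
            (nn a)
            (nn b)
            (sn A1)
            (sn B1)
            ((sn hi).trans_eq (by ring1))
            ((sn lo).trans_eq (by ring1))
            ((sl hv).trans_eq (by ring1))
            ((sl ft).trans_eq (by ring1))
            ((sn h).trans_eq (by ring1))
            (T0.trans_eq (by ring1))
            (sn s1)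
            (sn v1)
            ((sn sA).trans_eq (by ring1))
            ((sn vu).trans_eq (by ring1))
            ((sn cv).trans_eq (by ring1)))).trans_eq
              (by ring1))
    · rw [vq3 a b] at hv ft ⊢
      simp only [st, mj, ng, nu, kk, W0, W1, ph, gg, bb, fo2] at hv ft ⊢
      exact sub_nonneg.1 ((add_nonneg (sub_nonneg.2 hb) (Ce.g431
            x0
            y0
            z0
            w0
            A0
            B0
            s0
            v0
            (sn x1)
            (sn y1)
            ((sn z1).trans_eq (by ring1))
            (sn w1)
            (nn a)
            (sn b)
            (sn A1)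
            (sn B1)
            ((sn hi).trans_eq (by ring1))
            ((sn lo).trans_eq (by ring1))
            ((sl hv).trans_eq (by ring1))
            ((sl ft).trans_eq (by ring1))
            ((sn h).trans_eq (by ring1))
            (T0.trans_eq (by ring1))
            (sn s1)
            (sn v1)
            ((sn sA).trans_eq (by ring1))
            ((sn vu).trans_eq (by ring1))
            ((sn cv).trans_eq (by ring1)))).trans_eq
              (by ring1))
    · rw [vq2 a b] at hv ft ⊢
      simp only [st, mj, ng, nu, kk, W0, W1, ph, gg, bb, fo2] at hv ft ⊢
      exact sub_nonneg.1 ((add_nonneg (sub_nonneg.2 hb) (Ce.g421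
            x0
            y0
            z0
            w0
            A0
            B0
            s0
            v0
            (sn x1)
            (sn y1)
            ((sn z1).trans_eq (by ring1))
            (sn w1)
            (sn a)
            (nn b)
            (sn A1)
            (sn B1)
            ((sn hi).trans_eq (by ring1))
            ((sn lo).trans_eq (by ring1))
            ((sl hv).trans_eq (by ring1))
            ((sl ft).trans_eq (by ring1))
            ((sn h).trans_eq (by ring1))
            (T0.trans_eq (by ring1))
            (sn s1)
            (sn v1)
            ((sn sA).trans_eq (by ring1))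
            ((sn vu).trans_eq (by ring1))
            ((sn cv).trans_eq (by ring1)))).trans_eq
              (by ring1))
    · rw [vq4 a b] at hv ft ⊢
      simp only [st, mj, ng, nu, kk, W0, W1, ph, gg, bb, fo2] at hv ft ⊢
      exact sub_nonneg.1 ((add_nonneg (sub_nonneg.2 hb) (Ce.g441
            x0
            y0
            z0
            w0
            A0
            B0
            s0
            v0
            (sn x1)
            (sn y1)
            ((sn z1).trans_eq (by ring1))
            (sn w1)
            (sn a)
            (sn b)
            (sn A1)
            (sn B1)
            ((sn hi).trans_eq (by ring1))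
            ((sn lo).trans_eq (by ring1))
            ((sl hv).trans_eq (by ring1))
            ((sl ft).trans_eq (by ring1))
            ((sn h).trans_eq (by ring1))
            (T0.trans_eq (by ring1))
            (sn s1)
            (sn v1)
            ((sn sA).trans_eq (by ring1))
            ((sn vu).trans_eq (by ring1))
            ((sn cv).trans_eq (by ring1)))).trans_eq
              (by ring1))
  · rw [max_eq_right h] at hb T0 ⊢
    rcases le_total w A with a | a <;> rcases le_total w B with b | b
    · rw [vq1 a b] at hv ft ⊢
      simp only [st, mj, ng, nu, kk, W0, W1, ph, gg, bb, fo2] at hv ft ⊢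
      exact sub_nonneg.1 ((add_nonneg (sub_nonneg.2 hb) (Ce.g410
            x0
            y0
            z0
            w0
            A0
            B0
            s0
            v0
            (sn x1)
            (sn y1)
            ((sn z1).trans_eq (by ring1))
            (sn w1)
            (nn a)
            (nn b)
            (sn A1)
            (sn B1)
            ((sn hi).trans_eq (by ring1))
            ((sn lo).trans_eq (by ring1))
            ((sl hv).trans_eq (by ring1))
            ((sl ft).trans_eq (by ring1))
            ((sn h).trans_eq (by ring1))
            (T0.trans_eq (by ring1))
            (sn s1)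
            (sn v1)
            ((sn sA).trans_eq (by ring1))
            ((sn vu).trans_eq (by ring1))
            ((sn cv).trans_eq (by ring1)))).trans_eq
              (by ring1))
    · rw [vq3 a b] at hv ft ⊢
      simp only [st, mj, ng, nu, kk, W0, W1, ph, gg, bb, fo2] at hv ft ⊢
      exact sub_nonneg.1 ((add_nonneg (sub_nonneg.2 hb) (Ce.g430
            x0
            y0
            z0
            w0
            A0
            B0
            s0
            v0
            (sn x1)
            (sn y1)
            ((sn z1).trans_eq (by ring1))
            (sn w1)
            (nn a)
            (sn b)
            (sn A1)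
            (sn B1)
            ((sn hi).trans_eq (by ring1))
            ((sn lo).trans_eq (by ring1))
            ((sl hv).trans_eq (by ring1))
            ((sl ft).trans_eq (by ring1))
            ((sn h).trans_eq (by ring1))
            (T0.trans_eq (by ring1))
            (sn s1)
            (sn v1)
            ((sn sA).trans_eq (by ring1))
            ((sn vu).trans_eq (by ring1))
            ((sn cv).trans_eq (by ring1)))).trans_eq
              (by ring1))
    · rw [vq2 a b] at hv ft ⊢
      simp only [st, mj, ng, nu, kk, W0, W1, ph, gg, bb, fo2] at hv ft ⊢
      exact sub_nonneg.1 ((add_nonneg (sub_nonneg.2 hb) (Ce.g420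
            x0
            y0
            z0
            w0
            A0
            B0
            s0
            v0
            (sn x1)
            (sn y1)
            ((sn z1).trans_eq (by ring1))
            (sn w1)
            (sn a)
            (nn b)
            (sn A1)
            (sn B1)
            ((sn hi).trans_eq (by ring1))
            ((sn lo).trans_eq (by ring1))
            ((sl hv).trans_eq (by ring1))
            ((sl ft).trans_eq (by ring1))
            ((sn h).trans_eq (by ring1))
            (T0.trans_eq (by ring1))
            (sn s1)
            (sn v1)
            ((sn sA).trans_eq (by ring1))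
            ((sn vu).trans_eq (by ring1))
            ((sn cv).trans_eq (by ring1)))).trans_eq
              (by ring1))
    · rw [vq4 a b] at hv ft ⊢
      simp only [st, mj, ng, nu, kk, W0, W1, ph, gg, bb, fo2] at hv ft ⊢
      exact sub_nonneg.1 ((add_nonneg (sub_nonneg.2 hb) (Ce.g440
            x0
            y0
            z0
            w0
            A0
            B0
            s0
            v0
            (sn x1)
            (sn y1)
            ((sn z1).trans_eq (by ring1))
            (sn w1)
            (sn a)
            (sn b)
            (sn A1)
            (sn B1)
            ((sn hi).trans_eq (by ring1))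
            ((sn lo).trans_eq (by ring1))
            ((sl hv).trans_eq (by ring1))
            ((sl ft).trans_eq (by ring1))
            ((sn h).trans_eq (by ring1))
            (T0.trans_eq (by ring1))
            (sn s1)
            (sn v1)
            ((sn sA).trans_eq (by ring1))
            ((sn vu).trans_eq (by ring1))
            ((sn cv).trans_eq (by ring1)))).trans_eq
              (by ring1))

end Pool.Agent.Helper70.OL
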