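import Pool.Agent.Helper70.OL.Base
import Pool.Agent.Helper70.OL.CeF5
import Pool.Agent.Helper70.OL.CeG
import Pool.Agent.Helper70.OL.CeY

/-!
# The states with own far cells, the value `the cap of the column `y``
-/

set_option autoImplicit false
set_option linter.unusedSimpArgs false

namespace Pool.Agent.Helper70.OL

open Pool.Agent.Helper74.TS Pool.Agent.Helper83.TS Pool.Agent.Helper78.TS
  Pool.Agent.Helper19.TS.OL0

private theorem sn {a b : ℝ} (h : a ≤ b) : 0 ≤ b - a := sub_nonneg.2 h

private theorem sl {a b : ℝ} (h : a < b) : 0 ≤ b - a := sub_nonneg.2 h.le

private theorem nn {a b : ℝ} (h : a ≤ b) : 0 ≤ -a + b := by linarith only [h]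

/-- one own far cell, `v ≤ u` -/
theorem ff5 {x y w A B s v : ℝ} (g : Hc x y w A B) (A1 : A ≤ 1)
    (hv : bb w (1 - A) x y + (W0 x y - W1 x y) < vl w A B)
    (s0 : 0 ≤ s) (s1 : s ≤ 13 / 20) (sA : A - 1 ≤ s) (v0 : 0 ≤ v) (vu : v ≤ x - s)
    (cv : v ≤ 1 - B + y) (T0 : 0 ≤ max w s + w - A - B) :
    st (nu x) x (x - s) + st (nu y - kk x y) y v + bn s (max w s + w - A - B) + vl w A B ≤
      W0 x y + bb w (1 - A) x y := by
  obtain ⟨x0, x1, y0, y1, w0, w1, A0, B0, hi, lo⟩ := g
  have hb := bn_le s0 T0
  rcases le_total s w with h | h
  · rw [max_eq_left h] at hb T0 ⊢
    rcases le_total w A with a | a <;> rcases le_total w B with b | b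
    · rw [vq1 a b] at hv ⊢
      simp only [st, mj, ng, nu, kk, W0, W1, ph, gg, bb, fo2] at hv ⊢
      exact sub_nonneg.1 ((add_nonneg (sub_nonneg.2 hb) (Ce.f511
            x0
            y0
            w0
            A0
            B0
            s0
            v0
            (sn x1)
            (sn y1)
            (sn w1)
            (nn a)
            (nn b)
            (sn A1)
            ((sn hi).trans_eq (by ring1))
            ((sn lo).trans_eq (by ring1))
            ((sl hv).trans_eq (by ring1))
            ((sn h).trans_eq (by ring1))
            (T0.trans_eq (by ring1))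
            (sn s1)
            ((sn sA).trans_eq (by ring1))
            ((sn vu).trans_eq (by ring1))
            ((sn cv).trans_eq (by ring1)))).trans_eq
              (by ring1))
    · rw [vq3 a b] at hv ⊢
      simp only [st, mj, ng, nu, kk, W0, W1, ph, gg, bb, fo2] at hv ⊢
      exact sub_nonneg.1 ((add_nonneg (sub_nonneg.2 hb) (Ce.f531
            x0
            y0
            w0
            A0
            B0
            s0
            v0
            (sn x1)
            (sn y1)
            (sn w1)
            (nn a)
            (sn b)
            (sn A1)
            ((sn hi).trans_eq (by ring1))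
            ((sn lo).trans_eq (by ring1))
            ((sl hv).trans_eq (by ring1))
            ((sn h).trans_eq (by ring1))
            (T0.trans_eq (by ring1))
            (sn s1)
            ((sn sA).trans_eq (by ring1))
            ((sn vu).trans_eq (by ring1))
            ((sn cv).trans_eq (by ring1)))).trans_eq
              (by ring1))
    · rw [vq2 a b] at hv ⊢
      simp only [st, mj, ng, nu, kk, W0, W1, ph, gg, bb, fo2] at hv ⊢
      exact sub_nonneg.1 ((add_nonneg (sub_nonneg.2 hb) (Ce.f521
            x0
            y0
            w0
            A0
            B0
            s0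
            v0
            (sn x1)
            (sn y1)
            (sn w1)
            (sn a)
            (nn b)
            (sn A1)
            ((sn hi).trans_eq (by ring1))
            ((sn lo).trans_eq (by ring1))
            ((sl hv).trans_eq (by ring1))
            ((sn h).trans_eq (by ring1))
            (T0.trans_eq (by ring1))
            (sn s1)
            ((sn sA).trans_eq (by ring1))
            ((sn vu).trans_eq (by ring1))
            ((sn cv).trans_eq (by ring1)))).trans_eq
              (by ring1))
    · rw [vq4 a b] at hv ⊢
      simp only [st, mj, ng, nu, kk, W0, W1, ph, gg, bb, fo2] at hv ⊢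
      exact sub_nonneg.1 ((add_nonneg (sub_nonneg.2 hb) (Ce.f541
            x0
            y0
            w0
            A0
            B0
            s0
            v0
            (sn x1)
            (sn y1)
            (sn w1)
            (sn a)
            (sn b)
            (sn A1)
            ((sn hi).trans_eq (by ring1))
            ((sn lo).trans_eq (by ring1))
            ((sl hv).trans_eq (by ring1))
            ((sn h).trans_eq (by ring1))
            (T0.trans_eq (by ring1))
            (sn s1)
            ((sn sA).trans_eq (by ring1))
            ((sn vu).trans_eq (by ring1))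
            ((sn cv).trans_eq (by ring1)))).trans_eq
              (by ring1))
  · rw [max_eq_right h] at hb T0 ⊢
    rcases le_total w A with a | a <;> rcases le_total w B with b | b
    · rw [vq1 a b] at hv ⊢
      simp only [st, mj, ng, nu, kk, W0, W1, ph, gg, bb, fo2] at hv ⊢
      exact sub_nonneg.1 ((add_nonneg (sub_nonneg.2 hb) (Ce.f510
            x0
            y0
            w0
            A0
            B0
            s0
            v0
            (sn x1)
            (sn y1)
            (sn w1)
            (nn a)
            (nn b)
            (sn A1)
            ((sn hi).trans_eq (by ring1))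
            ((sn lo).trans_eq (by ring1))
            ((sl hv).trans_eq (by ring1))
            ((sn h).trans_eq (by ring1))
            (T0.trans_eq (by ring1))
            (sn s1)
            ((sn sA).trans_eq (by ring1))
            ((sn vu).trans_eq (by ring1))
            ((sn cv).trans_eq (by ring1)))).trans_eq
              (by ring1))
    · rw [vq3 a b] at hv ⊢
      simp only [st, mj, ng, nu, kk, W0, W1, ph, gg, bb, fo2] at hv ⊢
      exact sub_nonneg.1 ((add_nonneg (sub_nonneg.2 hb) (Ce.f530
            x0
            y0
            w0
            A0
            B0
            s0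
            v0
            (sn x1)
            (sn y1)
            (sn w1)
            (nn a)
            (sn b)
            (sn A1)
            ((sn hi).trans_eq (by ring1))
            ((sn lo).trans_eq (by ring1))
            ((sl hv).trans_eq (by ring1))
            ((sn h).trans_eq (by ring1))
            (T0.trans_eq (by ring1))
            (sn s1)
            ((sn sA).trans_eq (by ring1))
            ((sn vu).trans_eq (by ring1))
            ((sn cv).trans_eq (by ring1)))).trans_eq
              (by ring1))
    · rw [vq2 a b] at hv ⊢
      simp only [st, mj, ng, nu, kk, W0, W1, ph, gg, bb, fo2] at hv ⊢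
      exact sub_nonneg.1 ((add_nonneg (sub_nonneg.2 hb) (Ce.f520
            x0
            y0
            w0
            A0
            B0
            s0
            v0
            (sn x1)
            (sn y1)
            (sn w1)
            (sn a)
            (nn b)
            (sn A1)
            ((sn hi).trans_eq (by ring1))
            ((sn lo).trans_eq (by ring1))
            ((sl hv).trans_eq (by ring1))
            ((sn h).trans_eq (by ring1))
            (T0.trans_eq (by ring1))
            (sn s1)
            ((sn sA).trans_eq (by ring1))
            ((sn vu).trans_eq (by ring1))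
            ((sn cv).trans_eq (by ring1)))).trans_eq
              (by ring1))
    · rw [vq4 a b] at hv ⊢
      simp only [st, mj, ng, nu, kk, W0, W1, ph, gg, bb, fo2] at hv ⊢
      exact sub_nonneg.1 ((add_nonneg (sub_nonneg.2 hb) (Ce.f540
            x0
            y0
            w0
            A0
            B0
            s0
            v0
            (sn x1)
            (sn y1)
            (sn w1)
            (sn a)
            (sn b)
            (sn A1)
            ((sn hi).trans_eq (by ring1))
            ((sn lo).trans_eq (by ring1))
            ((sl hv).trans_eq (by ring1))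
            ((sn h).trans_eq (by ring1))
            (T0.trans_eq (by ring1))
            (sn s1)
            ((sn sA).trans_eq (by ring1))
            ((sn vu).trans_eq (by ring1))
            ((sn cv).trans_eq (by ring1)))).trans_eq
              (by ring1))

/-- one own far cell, `u ≤ v` -/
theorem gf5 {x y w A B s v : ℝ} (g : Hc x y w A B) (A1 : A ≤ 1)
    (hv : bb w (1 - A) x y + (W0 x y - W1 x y) < vl w A B)
    (s0 : 0 ≤ s) (s1 : s ≤ 13 / 20) (sA : A - 1 ≤ s) (v0 : 0 ≤ v) (v1 : v ≤ 1) (vu : x - s ≤ v)
    (cv : v ≤ 1 - B + y) (T0 : 0 ≤ max w s + w - A - B) :
    mj (nu x - kk x y) (1 - x) x s + st (nu y) y v + bn s (max w s + w - A - B) + vl w A B ≤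
      W0 x y + bb w (1 - A) x y := by
  obtain ⟨x0, x1, y0, y1, w0, w1, A0, B0, hi, lo⟩ := g
  have hb := bn_le s0 T0
  rcases le_total s w with h | h
  · rw [max_eq_left h] at hb T0 ⊢
    rcases le_total w A with a | a <;> rcases le_total w B with b | b
    · rw [vq1 a b] at hv ⊢
      simp only [st, mj, ng, nu, kk, W0, W1, ph, gg, bb, fo2] at hv ⊢
      exact sub_nonneg.1 ((add_nonneg (sub_nonneg.2 hb) (Ce.g511
            x0
            y0
            w0
            A0
            B0
            s0
            v0
            (sn x1)
            (sn y1)
            (sn w1)
            (nn a)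
            (nn b)
            (sn A1)
            ((sn hi).trans_eq (by ring1))
            ((sn lo).trans_eq (by ring1))
            ((sl hv).trans_eq (by ring1))
            ((sn h).trans_eq (by ring1))
            (T0.trans_eq (by ring1))
            (sn s1)
            (sn v1)
            ((sn sA).trans_eq (by ring1))
            ((sn vu).trans_eq (by ring1))
            ((sn cv).trans_eq (by ring1)))).trans_eq
              (by ring1))
    · rw [vq3 a b] at hv ⊢
      simp only [st, mj, ng, nu, kk, W0, W1, ph, gg, bb, fo2] at hv ⊢
      exact sub_nonneg.1 ((add_nonneg (sub_nonneg.2 hb) (Ce.g531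
            x0
            y0
            w0
            A0
            B0
            s0
            v0
            (sn x1)
            (sn y1)
            (sn w1)
            (nn a)
            (sn b)
            (sn A1)
            ((sn hi).trans_eq (by ring1))
            ((sn lo).trans_eq (by ring1))
            ((sl hv).trans_eq (by ring1))
            ((sn h).trans_eq (by ring1))
            (T0.trans_eq (by ring1))
            (sn s1)
            (sn v1)
            ((sn sA).trans_eq (by ring1))
            ((sn vu).trans_eq (by ring1))
            ((sn cv).trans_eq (by ring1)))).trans_eq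
              (by ring1))
    · rw [vq2 a b] at hv ⊢
      simp only [st, mj, ng, nu, kk, W0, W1, ph, gg, bb, fo2] at hv ⊢
      exact sub_nonneg.1 ((add_nonneg (sub_nonneg.2 hb) (Ce.g521
            x0
            y0
            w0
            A0
            B0
            s0
            v0
            (sn x1)
            (sn y1)
            (sn w1)
            (sn a)
            (nn b)
            (sn A1)
            ((sn hi).trans_eq (by ring1))
            ((sn lo).trans_eq (by ring1))
            ((sl hv).trans_eq (by ring1))
            ((sn h).trans_eq (by ring1))
            (T0.trans_eq (by ring1))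
            (sn s1)
            (sn v1)
            ((sn sA).trans_eq (by ring1))
            ((sn vu).trans_eq (by ring1))
            ((sn cv).trans_eq (by ring1)))).trans_eq
              (by ring1))
    · rw [vq4 a b] at hv ⊢
      simp only [st, mj, ng, nu, kk, W0, W1, ph, gg, bb, fo2] at hv ⊢
      exact sub_nonneg.1 ((add_nonneg (sub_nonneg.2 hb) (Ce.g541
            x0
            y0
            w0
            A0
            B0
            s0
            v0
            (sn x1)
            (sn y1)
            (sn w1)
            (sn a)
            (sn b)
            (sn A1)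
            ((sn hi).trans_eq (by ring1))
            ((sn lo).trans_eq (by ring1))
            ((sl hv).trans_eq (by ring1))
            ((sn h).trans_eq (by ring1))
            (T0.trans_eq (by ring1))
            (sn s1)
            (sn v1)
            ((sn sA).trans_eq (by ring1))
            ((sn vu).trans_eq (by ring1))
            ((sn cv).trans_eq (by ring1)))).trans_eq
              (by ring1))
  · rw [max_eq_right h] at hb T0 ⊢
    rcases le_total w A with a | a <;> rcases le_total w B with b | b
    · rw [vq1 a b] at hv ⊢
      simp only [st, mj, ng, nu, kk, W0, W1, ph, gg, bb, fo2] at hv ⊢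
      exact sub_nonneg.1 ((add_nonneg (sub_nonneg.2 hb) (Ce.g510
            x0
            y0
            w0
            A0
            B0
            s0
            v0
            (sn x1)
            (sn y1)
            (sn w1)
            (nn a)
            (nn b)
            (sn A1)
            ((sn hi).trans_eq (by ring1))
            ((sn lo).trans_eq (by ring1))
            ((sl hv).trans_eq (by ring1))
            ((sn h).trans_eq (by ring1))
            (T0.trans_eq (by ring1))
            (sn s1)
            (sn v1)
            ((sn sA).trans_eq (by ring1))
            ((sn vu).trans_eq (by ring1))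
            ((sn cv).trans_eq (by ring1)))).trans_eq
              (by ring1))
    · rw [vq3 a b] at hv ⊢
      simp only [st, mj, ng, nu, kk, W0, W1, ph, gg, bb, fo2] at hv ⊢
      exact sub_nonneg.1 ((add_nonneg (sub_nonneg.2 hb) (Ce.g530
            x0
            y0
            w0
            A0
            B0
            s0
            v0
            (sn x1)
            (sn y1)
            (sn w1)
            (nn a)
            (sn b)
            (sn A1)
            ((sn hi).trans_eq (by ring1))
            ((sn lo).trans_eq (by ring1))
            ((sl hv).trans_eq (by ring1))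
            ((sn h).trans_eq (by ring1))
            (T0.trans_eq (by ring1))
            (sn s1)
            (sn v1)
            ((sn sA).trans_eq (by ring1))
            ((sn vu).trans_eq (by ring1))
            ((sn cv).trans_eq (by ring1)))).trans_eq
              (by ring1))
    · rw [vq2 a b] at hv ⊢
      simp only [st, mj, ng, nu, kk, W0, W1, ph, gg, bb, fo2] at hv ⊢
      exact sub_nonneg.1 ((add_nonneg (sub_nonneg.2 hb) (Ce.g520
            x0
            y0
            w0
            A0
            B0
            s0
            v0
            (sn x1)
            (sn y1)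
            (sn w1)
            (sn a)
            (nn b)
            (sn A1)
            ((sn hi).trans_eq (by ring1))
            ((sn lo).trans_eq (by ring1))
            ((sl hv).trans_eq (by ring1))
            ((sn h).trans_eq (by ring1))
            (T0.trans_eq (by ring1))
            (sn s1)
            (sn v1)
            ((sn sA).trans_eq (by ring1))
            ((sn vu).trans_eq (by ring1))
            ((sn cv).trans_eq (by ring1)))).trans_eq
              (by ring1))
    · rw [vq4 a b] at hv ⊢
      simp only [st, mj, ng, nu, kk, W0, W1, ph, gg, bb, fo2] at hv ⊢
      exact sub_nonneg.1 ((add_nonneg (sub_nonneg.2 hb) (Ce.g540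
            x0
            y0
            w0
            A0
            B0
            s0
            v0
            (sn x1)
            (sn y1)
            (sn w1)
            (sn a)
            (sn b)
            (sn A1)
            ((sn hi).trans_eq (by ring1))
            ((sn lo).trans_eq (by ring1))
            ((sl hv).trans_eq (by ring1))
            ((sn h).trans_eq (by ring1))
            (T0.trans_eq (by ring1))
            (sn s1)
            (sn v1)
            ((sn sA).trans_eq (by ring1))
            ((sn vu).trans_eq (by ring1))
            ((sn cv).trans_eq (by ring1)))).trans_eq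
              (by ring1))

/-- one own far cell, `v < 0` -/
theorem hh51 {x y w A B s : ℝ} (g : Hc x y w A B) (A1 : A ≤ 1)
    (hv : bb w (1 - A) x y + (W0 x y - W1 x y) < vl w A B)
    (hB : 1 + y < B) (s0 : 0 ≤ s) (s1 : s ≤ 13 / 20) (od : s ≤ x + (B - 1 - y))
    (T0 : 0 ≤ max w s + w - A - B) :
    mj (nu x) (1 - x) x s + ng (nu y - kk x y) y (B - 1 - y) + bn s (max w s + w - A - B)
      + vl w A B ≤ W0 x y + bb w (1 - A) x y := by
  obtain ⟨x0, x1, y0, y1, w0, w1, A0, B0, hi, lo⟩ := g
  have hb := bn_le s0 T0
  have a : A ≤ w := by linarith
  have b : w ≤ B := by linarith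
  rw [vq2 a b] at hv ⊢
  simp only [st, mj, ng, nu, kk, W0, W1, ph, gg, bb, fo2] at hv ⊢
  rcases le_total s w with h | h
  · rw [max_eq_left h] at hb T0 ⊢
    exact sub_nonneg.1 ((add_nonneg (sub_nonneg.2 hb) (Ce.h511
          x0
          y0
          w0
          A0
          B0
          s0
          (sn x1)
          (sn y1)
          (sn w1)
          (sn a)
          (nn b)
          (sn A1)
          ((sn hi).trans_eq (by ring1))
          ((sn lo).trans_eq (by ring1))
          ((sl hv).trans_eq (by ring1))
          ((sn h).trans_eq (by ring1))
          (T0.trans_eq (by ring1))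
          (sn s1)
          (by linarith only [hB])
          ((sn od).trans_eq (by ring1)))).trans_eq
            (by ring1))
  · rw [max_eq_right h] at hb T0 ⊢
    exact sub_nonneg.1 ((add_nonneg (sub_nonneg.2 hb) (Ce.h510
          x0
          y0
          w0
          A0
          B0
          s0
          (sn x1)
          (sn y1)
          (sn w1)
          (sn a)
          (nn b)
          (sn A1)
          ((sn hi).trans_eq (by ring1))
          ((sn lo).trans_eq (by ring1))
          ((sl hv).trans_eq (by ring1))
          ((sn h).trans_eq (by ring1))
          (T0.trans_eq (by ring1))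
          (sn s1)
          (by linarith only [hB])
          ((sn od).trans_eq (by ring1)))).trans_eq
            (by ring1))

/-- one own far cell, `v < 0` -/
theorem hh52 {x y w A B s : ℝ} (g : Hc x y w A B) (A1 : A ≤ 1)
    (hv : bb w (1 - A) x y + (W0 x y - W1 x y) < vl w A B)
    (hB : 1 + y < B) (s0 : 0 ≤ s) (s1 : s ≤ 13 / 20) (od : x + (B - 1 - y) ≤ s)
    (T0 : 0 ≤ max w s + w - A - B) :
    mj (nu x - kk x y) (1 - x) x s + ng (nu y) y (B - 1 - y) + bn s (max w s + w - A - B)
      + vl w A B ≤ W0 x y + bb w (1 - A) x y := by
  obtain ⟨x0, x1, y0, y1, w0, w1, A0, B0, hi, lo⟩ := g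
  have hb := bn_le s0 T0
  have a : A ≤ w := by linarith
  have b : w ≤ B := by linarith
  rw [vq2 a b] at hv ⊢
  simp only [st, mj, ng, nu, kk, W0, W1, ph, gg, bb, fo2] at hv ⊢
  rcases le_total s w with h | h
  · rw [max_eq_left h] at hb T0 ⊢
    exact sub_nonneg.1 ((add_nonneg (sub_nonneg.2 hb) (Ce.h521
          x0
          y0
          w0
          A0
          B0
          s0
          (sn x1)
          (sn y1)
          (sn w1)
          (sn a)
          (nn b)
          (sn A1)
          ((sn hi).trans_eq (by ring1))
          ((sn lo).trans_eq (by ring1))
          ((sl hv).trans_eq (by ring1))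
          ((sn h).trans_eq (by ring1))
          (T0.trans_eq (by ring1))
          (sn s1)
          (by linarith only [hB])
          ((sn od).trans_eq (by ring1)))).trans_eq
            (by ring1))
  · rw [max_eq_right h] at hb T0 ⊢
    exact sub_nonneg.1 ((add_nonneg (sub_nonneg.2 hb) (Ce.h520
          x0
          y0
          w0
          A0
          B0
          s0
          (sn x1)
          (sn y1)
          (sn w1)
          (sn a)
          (nn b)
          (sn A1)
          ((sn hi).trans_eq (by ring1))
          ((sn lo).trans_eq (by ring1))
          ((sl hv).trans_eq (by ring1))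
          ((sn h).trans_eq (by ring1))
          (T0.trans_eq (by ring1))
          (sn s1)
          (by linarith only [hB])
          ((sn od).trans_eq (by ring1)))).trans_eq
            (by ring1))

/-- two own far cells -/
theorem yy51 {x y w A B s r T : ℝ} (g : Hc x y w A B) (A1 : A ≤ 1)
    (hv : bb w (1 - A) x y + (W0 x y - W1 x y) < vl w A B)
    (hB : 1 < B) (s0 : 0 ≤ s) (s1 : s ≤ 13 / 20) (r0 : B - 1 ≤ r) (r1 : r ≤ 13 / 20)
    (od : y - r ≤ x - s) (hT : T = max w (13 / 20) + w - A - B) (T0 : 0 ≤ T) :
    mj (nu x) (1 - x) x s + mj (nu y - kk x y) (1 - y) y r + (13 / 20 * s + r) * T + vl w A B ≤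
      W0 x y + bb w (1 - A) x y := by
  obtain ⟨x0, x1, y0, y1, w0, w1, A0, B0, hi, lo⟩ := g
  have a : A ≤ w := by linarith
  have b : w ≤ B := by linarith
  have rr0 : 0 ≤ r := by linarith
  rw [vq2 a b] at hv ⊢
  simp only [st, mj, ng, nu, kk, W0, W1, ph, gg, bb, fo2] at hv ⊢
  rcases le_total (13 / 20) w with h | h
  · rw [max_eq_left h] at hT
    subst hT
    exact sub_nonneg.1 ((Ce.y511
          x0
          y0
          w0
          A0
          B0
          s0
          rr0
          (sn x1)
          (sn y1)
          (sn w1)
          (sn a)
          (nn b)
          (sn A1)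
          ((sn hi).trans_eq (by ring1))
          ((sn lo).trans_eq (by ring1))
          ((sl hv).trans_eq (by ring1))
          ((sn h).trans_eq (by ring1))
          (T0.trans_eq (by ring1))
          (sn s1)
          (sn r1)
          ((sn r0).trans_eq (by ring1))
          (by linarith only [hB])
          ((sn od).trans_eq (by ring1))).trans_eq
            (by ring1))
  · rw [max_eq_right h] at hT
    subst hT
    exact sub_nonneg.1 ((Ce.y510
          x0
          y0
          w0
          A0
          B0
          s0
          rr0
          (sn x1)
          (sn y1)
          (sn w1)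
          (sn a)
          (nn b)
          (sn A1)
          ((sn hi).trans_eq (by ring1))
          ((sn lo).trans_eq (by ring1))
          ((sl hv).trans_eq (by ring1))
          ((sn h).trans_eq (by ring1))
          (T0.trans_eq (by ring1))
          (sn s1)
          (sn r1)
          ((sn r0).trans_eq (by ring1))
          (by linarith only [hB])
          ((sn od).trans_eq (by ring1))).trans_eq
            (by ring1))

/-- two own far cells -/
theorem yy52 {x y w A B s r T : ℝ} (g : Hc x y w A B) (A1 : A ≤ 1)
    (hv : bb w (1 - A) x y + (W0 x y - W1 x y) < vl w A B)
    (hB : 1 < B) (s0 : 0 ≤ s) (s1 : s ≤ 13 / 20) (r0 : B - 1 ≤ r) (r1 : r ≤ 13 / 20)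
    (od : x - s ≤ y - r) (hT : T = max w (13 / 20) + w - A - B) (T0 : 0 ≤ T) :
    mj (nu x - kk x y) (1 - x) x s + mj (nu y) (1 - y) y r + (13 / 20 * s + r) * T + vl w A B ≤
      W0 x y + bb w (1 - A) x y := by
  obtain ⟨x0, x1, y0, y1, w0, w1, A0, B0, hi, lo⟩ := g
  have a : A ≤ w := by linarith
  have b : w ≤ B := by linarith
  have rr0 : 0 ≤ r := by linarith
  rw [vq2 a b] at hv ⊢
  simp only [st, mj, ng, nu, kk, W0, W1, ph, gg, bb, fo2] at hv ⊢
  rcases le_total (13 / 20) w with h | h
  · rw [max_eq_left h] at hT
    subst hT
    exact sub_nonneg.1 ((Ce.y521
          x0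
          y0
          w0
          A0
          B0
          s0
          rr0
          (sn x1)
          (sn y1)
          (sn w1)
          (sn a)
          (nn b)
          (sn A1)
          ((sn hi).trans_eq (by ring1))
          ((sn lo).trans_eq (by ring1))
          ((sl hv).trans_eq (by ring1))
          ((sn h).trans_eq (by ring1))
          (T0.trans_eq (by ring1))
          (sn s1)
          (sn r1)
          ((sn r0).trans_eq (by ring1))
          (by linarith only [hB])
          ((sn od).trans_eq (by ring1))).trans_eq
            (by ring1))
  · rw [max_eq_right h] at hT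
    subst hT
    exact sub_nonneg.1 ((Ce.y520
          x0
          y0
          w0
          A0
          B0
          s0
          rr0
          (sn x1)
          (sn y1)
          (sn w1)
          (sn a)
          (nn b)
          (sn A1)
          ((sn hi).trans_eq (by ring1))
          ((sn lo).trans_eq (by ring1))
          ((sl hv).trans_eq (by ring1))
          ((sn h).trans_eq (by ring1))
          (T0.trans_eq (by ring1))
          (sn s1)
          (sn r1)
          ((sn r0).trans_eq (by ring1))
          (by linarith only [hB])
          ((sn od).trans_eq (by ring1))).trans_eq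
            (by ring1))

/-- two own far cells, a very low cap on `y` -/
theorem zz51 {x y w A B s : ℝ} (g : Hc x y w A B) (A1 : A ≤ 1)
    (hv : bb w (1 - A) x y + (W0 x y - W1 x y) < vl w A B)
    (hB : 13 / 20 < B - 1) (s0 : 0 ≤ s) (s1 : s ≤ 13 / 20) (od : y - (B - 1) ≤ x - s)
    (T0 : 0 ≤ 2 * w - A - B) :
    mj (nu x) (1 - x) x s + mj (nu y - kk x y) (1 - y) y (B - 1)
      + (13 / 20 * s + 13 / 20) * (2 * w - A - B) + vl w A B ≤ W0 x y + bb w (1 - A) x y := by
  obtain ⟨x0, x1, y0, y1, w0, w1, A0, B0, hi, lo⟩ := g
  have a : A ≤ w := by linarith
  have b : w ≤ B := by linarith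
  rw [vq2 a b] at hv ⊢
  simp only [st, mj, ng, nu, kk, W0, W1, ph, gg, bb, fo2] at hv ⊢
  exact sub_nonneg.1 ((Ce.z51
        x0
        y0
        w0
        A0
        B0
        s0
        (sn x1)
        (sn y1)
        (sn w1)
        (sn a)
        (nn b)
        (sn A1)
        ((sn hi).trans_eq (by ring1))
        ((sn lo).trans_eq (by ring1))
        ((sl hv).trans_eq (by ring1))
        (sn s1)
        (by linarith only [hB])
        (T0.trans_eq (by ring1))
        ((sn od).trans_eq (by ring1))).trans_eq
          (by ring1))

/-- two own far cells, a very low cap on `y` -/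
theorem zz52 {x y w A B s : ℝ} (g : Hc x y w A B) (A1 : A ≤ 1)
    (hv : bb w (1 - A) x y + (W0 x y - W1 x y) < vl w A B)
    (hB : 13 / 20 < B - 1) (s0 : 0 ≤ s) (s1 : s ≤ 13 / 20) (od : x - s ≤ y - (B - 1))
    (T0 : 0 ≤ 2 * w - A - B) :
    mj (nu x - kk x y) (1 - x) x s + mj (nu y) (1 - y) y (B - 1)
      + (13 / 20 * s + 13 / 20) * (2 * w - A - B) + vl w A B ≤ W0 x y + bb w (1 - A) x y := by
  obtain ⟨x0, x1, y0, y1, w0, w1, A0, B0, hi, lo⟩ := g
  have a : A ≤ w := by linarith
  have b : w ≤ B := by linarith
  rw [vq2 a b] at hv ⊢
  simp only [st, mj, ng, nu, kk, W0, W1, ph, gg, bb, fo2] at hv ⊢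
  exact sub_nonneg.1 ((Ce.z52
        x0
        y0
        w0
        A0
        B0
        s0
        (sn x1)
        (sn y1)
        (sn w1)
        (sn a)
        (nn b)
        (sn A1)
        ((sn hi).trans_eq (by ring1))
        ((sn lo).trans_eq (by ring1))
        ((sl hv).trans_eq (by ring1))
        (sn s1)
        (by linarith only [hB])
        (T0.trans_eq (by ring1))
        ((sn od).trans_eq (by ring1))).trans_eq
          (by ring1))

end Pool.Agent.Helper70.OL
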