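import Pool.Agent.Helper70.OL.Base
import Pool.Agent.Helper70.OL.CeF6
import Pool.Agent.Helper70.OL.CeG

/-!
# The states with own far cells, the value `the cap of the column `x``
-/

set_option autoImplicit false
set_option linter.unusedSimpArgs false

namespace Pool.Agent.Helper70.OL

open Pool.Agent.Helper74.TS Pool.Agent.Helper83.TS Pool.Agent.Helper78.TS
  Pool.Agent.Helper19.TS.OL0

private theorem sn {a b : ℝ} (h : a ≤ b) : 0 ≤ b - a := sub_nonneg.2 h

private theorem sl {a b : ℝ} (h : a < b) : 0 ≤ b - a := sub_nonneg.2 h.le

private theorem nn {a b : ℝ} (h : a ≤ b) : 0 ≤ -a + b := by linarith only [h]

/-- one own far cell, `v ≤ u` -/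
theorem ff6 {x y w A B s v : ℝ} (g : Hc x y w A B) (B1 : B ≤ 1)
    (hv : bb w (1 - B) x y + (W0 x y - W1 x y) < vl w A B)
    (s0 : 0 ≤ s) (s1 : s ≤ 13 / 20) (sA : A - 1 ≤ s) (v0 : 0 ≤ v) (vu : v ≤ x - s)
    (cv : v ≤ 1 - B + y) (T0 : 0 ≤ max w s + w - A - B) :
    st (nu x) x (x - s) + st (nu y - kk x y) y v + bn s (max w s + w - A - B) + vl w A B ≤
      W0 x y + bb w (1 - B) x y := by
  obtain ⟨x0, x1, y0, y1, w0, w1, A0, B0, hi, lo⟩ := g
  have hb := bn_le s0 T0
  rcases le_total s w with h | h
  · rw [max_eq_left h] at hb T0 ⊢
    rcases le_total w A with a | a <;> rcases le_total w B with b | b
    · rw [vq1 a b] at hv ⊢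
      simp only [st, mj, ng, nu, kk, W0, W1, ph, gg, bb, fo2] at hv ⊢
      exact sub_nonneg.1 ((add_nonneg (sub_nonneg.2 hb) (Ce.f611
            x0
            y0
            w0
            A0
            B0
            s0
            v0
            (sn x1)
            (sn y1)
            (sn w1)
            (nn a)
            (nn b)
            (sn B1)
            ((sn hi).trans_eq (by ring1))
            ((sn lo).trans_eq (by ring1))
            ((sl hv).trans_eq (by ring1))
            ((sn h).trans_eq (by ring1))
            (T0.trans_eq (by ring1))
            (sn s1)
            ((sn sA).trans_eq (by ring1))
            ((sn vu).trans_eq (by ring1))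
            ((sn cv).trans_eq (by ring1)))).trans_eq
              (by ring1))
    · rw [vq3 a b] at hv ⊢
      simp only [st, mj, ng, nu, kk, W0, W1, ph, gg, bb, fo2] at hv ⊢
      exact sub_nonneg.1 ((add_nonneg (sub_nonneg.2 hb) (Ce.f631
            x0
            y0
            w0
            A0
            B0
            s0
            v0
            (sn x1)
            (sn y1)
            (sn w1)
            (nn a)
            (sn b)
            (sn B1)
            ((sn hi).trans_eq (by ring1))
            ((sn lo).trans_eq (by ring1))
            ((sl hv).trans_eq (by ring1))
            ((sn h).trans_eq (by ring1))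
            (T0.trans_eq (by ring1))
            (sn s1)
            ((sn sA).trans_eq (by ring1))
            ((sn vu).trans_eq (by ring1))
            ((sn cv).trans_eq (by ring1)))).trans_eq
              (by ring1))
    · rw [vq2 a b] at hv ⊢
      simp only [st, mj, ng, nu, kk, W0, W1, ph, gg, bb, fo2] at hv ⊢
      exact sub_nonneg.1 ((add_nonneg (sub_nonneg.2 hb) (Ce.f621
            x0
            y0
            w0
            A0
            B0
            s0
            v0
            (sn x1)
            (sn y1)
            (sn w1)
            (sn a)
            (nn b)
            (sn B1)
            ((sn hi).trans_eq (by ring1))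
            ((sn lo).trans_eq (by ring1))
            ((sl hv).trans_eq (by ring1))
            ((sn h).trans_eq (by ring1))
            (T0.trans_eq (by ring1))
            (sn s1)
            ((sn sA).trans_eq (by ring1))
            ((sn vu).trans_eq (by ring1))
            ((sn cv).trans_eq (by ring1)))).trans_eq
              (by ring1))
    · rw [vq4 a b] at hv ⊢
      simp only [st, mj, ng, nu, kk, W0, W1, ph, gg, bb, fo2] at hv ⊢
      exact sub_nonneg.1 ((add_nonneg (sub_nonneg.2 hb) (Ce.f641
            x0
            y0
            w0
            A0
            B0
            s0
            v0
            (sn x1)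
            (sn y1)
            (sn w1)
            (sn a)
            (sn b)
            (sn B1)
            ((sn hi).trans_eq (by ring1))
            ((sn lo).trans_eq (by ring1))
            ((sl hv).trans_eq (by ring1))
            ((sn h).trans_eq (by ring1))
            (T0.trans_eq (by ring1))
            (sn s1)
            ((sn sA).trans_eq (by ring1))
            ((sn vu).trans_eq (by ring1))
            ((sn cv).trans_eq (by ring1)))).trans_eq
              (by ring1))
  · rw [max_eq_right h] at hb T0 ⊢
    rcases le_total w A with a | a <;> rcases le_total w B with b | b
    · rw [vq1 a b] at hv ⊢
      simp only [st, mj, ng, nu, kk, W0, W1, ph, gg, bb, fo2] at hv ⊢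
      exact sub_nonneg.1 ((add_nonneg (sub_nonneg.2 hb) (Ce.f610
            x0
            y0
            w0
            A0
            B0
            s0
            v0
            (sn x1)
            (sn y1)
            (sn w1)
            (nn a)
            (nn b)
            (sn B1)
            ((sn hi).trans_eq (by ring1))
            ((sn lo).trans_eq (by ring1))
            ((sl hv).trans_eq (by ring1))
            ((sn h).trans_eq (by ring1))
            (T0.trans_eq (by ring1))
            (sn s1)
            ((sn sA).trans_eq (by ring1))
            ((sn vu).trans_eq (by ring1))
            ((sn cv).trans_eq (by ring1)))).trans_eq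
              (by ring1))
    · rw [vq3 a b] at hv ⊢
      simp only [st, mj, ng, nu, kk, W0, W1, ph, gg, bb, fo2] at hv ⊢
      exact sub_nonneg.1 ((add_nonneg (sub_nonneg.2 hb) (Ce.f630
            x0
            y0
            w0
            A0
            B0
            s0
            v0
            (sn x1)
            (sn y1)
            (sn w1)
            (nn a)
            (sn b)
            (sn B1)
            ((sn hi).trans_eq (by ring1))
            ((sn lo).trans_eq (by ring1))
            ((sl hv).trans_eq (by ring1))
            ((sn h).trans_eq (by ring1))
            (T0.trans_eq (by ring1))
            (sn s1)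
            ((sn sA).trans_eq (by ring1))
            ((sn vu).trans_eq (by ring1))
            ((sn cv).trans_eq (by ring1)))).trans_eq
              (by ring1))
    · rw [vq2 a b] at hv ⊢
      simp only [st, mj, ng, nu, kk, W0, W1, ph, gg, bb, fo2] at hv ⊢
      exact sub_nonneg.1 ((add_nonneg (sub_nonneg.2 hb) (Ce.f620
            x0
            y0
            w0
            A0
            B0
            s0
            v0
            (sn x1)
            (sn y1)
            (sn w1)
            (sn a)
            (nn b)
            (sn B1)
            ((sn hi).trans_eq (by ring1))
            ((sn lo).trans_eq (by ring1))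
            ((sl hv).trans_eq (by ring1))
            ((sn h).trans_eq (by ring1))
            (T0.trans_eq (by ring1))
            (sn s1)
            ((sn sA).trans_eq (by ring1))
            ((sn vu).trans_eq (by ring1))
            ((sn cv).trans_eq (by ring1)))).trans_eq
              (by ring1))
    · rw [vq4 a b] at hv ⊢
      simp only [st, mj, ng, nu, kk, W0, W1, ph, gg, bb, fo2] at hv ⊢
      exact sub_nonneg.1 ((add_nonneg (sub_nonneg.2 hb) (Ce.f640
            x0
            y0
            w0
            A0
            B0
            s0
            v0
            (sn x1)
            (sn y1)
            (sn w1)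
            (sn a)
            (sn b)
            (sn B1)
            ((sn hi).trans_eq (by ring1))
            ((sn lo).trans_eq (by ring1))
            ((sl hv).trans_eq (by ring1))
            ((sn h).trans_eq (by ring1))
            (T0.trans_eq (by ring1))
            (sn s1)
            ((sn sA).trans_eq (by ring1))
            ((sn vu).trans_eq (by ring1))
            ((sn cv).trans_eq (by ring1)))).trans_eq
              (by ring1))

/-- one own far cell, `u ≤ v` -/
theorem gf6 {x y w A B s v : ℝ} (g : Hc x y w A B) (B1 : B ≤ 1)
    (hv : bb w (1 - B) x y + (W0 x y - W1 x y) < vl w A B)
    (s0 : 0 ≤ s) (s1 : s ≤ 13 / 20) (sA : A - 1 ≤ s) (v0 : 0 ≤ v) (v1 : v ≤ 1) (vu : x - s ≤ v)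
    (cv : v ≤ 1 - B + y) (T0 : 0 ≤ max w s + w - A - B) :
    mj (nu x - kk x y) (1 - x) x s + st (nu y) y v + bn s (max w s + w - A - B) + vl w A B ≤
      W0 x y + bb w (1 - B) x y := by
  obtain ⟨x0, x1, y0, y1, w0, w1, A0, B0, hi, lo⟩ := g
  have hb := bn_le s0 T0
  rcases le_total s w with h | h
  · rw [max_eq_left h] at hb T0 ⊢
    rcases le_total w A with a | a <;> rcases le_total w B with b | b
    · rw [vq1 a b] at hv ⊢
      simp only [st, mj, ng, nu, kk, W0, W1, ph, gg, bb, fo2] at hv ⊢
      exact sub_nonneg.1 ((add_nonneg (sub_nonneg.2 hb) (Ce.g611
            x0
            y0
            w0
            A0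
            B0
            s0
            v0
            (sn x1)
            (sn y1)
            (sn w1)
            (nn a)
            (nn b)
            (sn B1)
            ((sn hi).trans_eq (by ring1))
            ((sn lo).trans_eq (by ring1))
            ((sl hv).trans_eq (by ring1))
            ((sn h).trans_eq (by ring1))
            (T0.trans_eq (by ring1))
            (sn s1)
            (sn v1)
            ((sn sA).trans_eq (by ring1))
            ((sn vu).trans_eq (by ring1))
            ((sn cv).trans_eq (by ring1)))).trans_eq
              (by ring1))
    · rw [vq3 a b] at hv ⊢
      simp only [st, mj, ng, nu, kk, W0, W1, ph, gg, bb, fo2] at hv ⊢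
      rcases le_total A 1 with q | q
      · exact sub_nonneg.1 ((add_nonneg (sub_nonneg.2 hb) (Ce.g631a
            x0
            y0
            w0
            A0
            B0
            s0
            v0
            (sn x1)
            (sn y1)
            (sn w1)
            (nn a)
            (sn b)
            (sn B1)
            ((sn hi).trans_eq (by ring1))
            ((sn lo).trans_eq (by ring1))
            ((sl hv).trans_eq (by ring1))
            ((sn h).trans_eq (by ring1))
            (T0.trans_eq (by ring1))
            (sn s1)
            (sn v1)
            ((sn sA).trans_eq (by ring1))
            ((sn vu).trans_eq (by ring1))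
            ((sn cv).trans_eq (by ring1))
            ((sn q).trans_eq (by ring1)))).trans_eq
              (by ring1))
      rcases le_total s (w + w - A - B) with q2 | q2
      · have hb2 : bn s (w + w - A - B) = s * (w + w - A - B) - s ^ 3 / 3 := by
          rw [bn, min_eq_left q2]
        rcases le_total B (2 / 5) with q3 | q3
        · exact sub_nonneg.1 ((add_nonneg (sub_nonneg.2 hb2.le) (Ce.g631s0
              x0
              y0
              w0
              A0
              B0
              s0
              v0
              (sn x1)
              (sn y1)
              (sn w1)
              (nn a)
              (sn b)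
              (sn B1)
              ((sn hi).trans_eq (by ring1))
              ((sn lo).trans_eq (by ring1))
              ((sl hv).trans_eq (by ring1))
              ((sn h).trans_eq (by ring1))
              (T0.trans_eq (by ring1))
              (sn s1)
              (sn v1)
              ((sn sA).trans_eq (by ring1))
              ((sn vu).trans_eq (by ring1))
              ((sn cv).trans_eq (by ring1))
              ((sn q2).trans_eq (by ring1))
              ((sn q).trans_eq (by ring1))
              ((sn q3).trans_eq (by ring1)))).trans_eq
                (by ring1))
        · exact sub_nonneg.1 ((add_nonneg (sub_nonneg.2 hb2.le) (Ce.g631s1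
              x0
              y0
              w0
              A0
              B0
              s0
              v0
              (sn x1)
              (sn y1)
              (sn w1)
              (nn a)
              (sn b)
              (sn B1)
              ((sn hi).trans_eq (by ring1))
              ((sn lo).trans_eq (by ring1))
              ((sl hv).trans_eq (by ring1))
              ((sn h).trans_eq (by ring1))
              (T0.trans_eq (by ring1))
              (sn s1)
              (sn v1)
              ((sn sA).trans_eq (by ring1))
              ((sn vu).trans_eq (by ring1))
              ((sn cv).trans_eq (by ring1))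
              ((sn q2).trans_eq (by ring1))
              ((sn q).trans_eq (by ring1))
              ((sn q3).trans_eq (by ring1)))).trans_eq
                (by ring1))
      · have hb2 : bn s (w + w - A - B) = s * (w + w - A - B) - (w + w - A - B) ^ 3 / 3 := by
          rw [bn, min_eq_right q2]
        rcases le_total B (2 / 5) with q3 | q3
        · rcases le_total B (1 / 5) with q4 | q4
          · exact sub_nonneg.1 ((add_nonneg (sub_nonneg.2 hb2.le) (Ce.g631t0
                x0
                y0
                w0
                A0
                B0
                s0
                v0
                (sn x1)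
                (sn y1)
                (sn w1)
                (nn a)
                (sn b)
                (sn B1)
                ((sn hi).trans_eq (by ring1))
                ((sn lo).trans_eq (by ring1))
                ((sl hv).trans_eq (by ring1))
                ((sn h).trans_eq (by ring1))
                (T0.trans_eq (by ring1))
                (sn s1)
                (sn v1)
                ((sn sA).trans_eq (by ring1))
                ((sn vu).trans_eq (by ring1))
                ((sn cv).trans_eq (by ring1))
                ((sn q2).trans_eq (by ring1))
                ((sn q).trans_eq (by ring1))
                ((sn q4).trans_eq (by ring1)))).trans_eq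
                  (by ring1))
          · exact sub_nonneg.1 ((add_nonneg (sub_nonneg.2 hb2.le) (Ce.g631t1
                x0
                y0
                w0
                A0
                B0
                s0
                v0
                (sn x1)
                (sn y1)
                (sn w1)
                (nn a)
                (sn b)
                (sn B1)
                ((sn hi).trans_eq (by ring1))
                ((sn lo).trans_eq (by ring1))
                ((sl hv).trans_eq (by ring1))
                ((sn h).trans_eq (by ring1))
                (T0.trans_eq (by ring1))
                (sn s1)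
                (sn v1)
                ((sn sA).trans_eq (by ring1))
                ((sn vu).trans_eq (by ring1))
                ((sn cv).trans_eq (by ring1))
                ((sn q2).trans_eq (by ring1))
                ((sn q).trans_eq (by ring1))
                ((sn q4).trans_eq (by ring1))
                ((sn q3).trans_eq (by ring1)))).trans_eq
                  (by ring1))
        · exact sub_nonneg.1 ((add_nonneg (sub_nonneg.2 hb2.le) (Ce.g631t2
              x0
              y0
              w0
              A0
              B0
              s0
              v0
              (sn x1)
              (sn y1)
              (sn w1)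
              (nn a)
              (sn b)
              (sn B1)
              ((sn hi).trans_eq (by ring1))
              ((sn lo).trans_eq (by ring1))
              ((sl hv).trans_eq (by ring1))
              ((sn h).trans_eq (by ring1))
              (T0.trans_eq (by ring1))
              (sn s1)
              (sn v1)
              ((sn sA).trans_eq (by ring1))
              ((sn vu).trans_eq (by ring1))
              ((sn cv).trans_eq (by ring1))
              ((sn q2).trans_eq (by ring1))
              ((sn q).trans_eq (by ring1))
              ((sn q3).trans_eq (by ring1)))).trans_eq
                (by ring1))
    · rw [vq2 a b] at hv ⊢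
      simp only [st, mj, ng, nu, kk, W0, W1, ph, gg, bb, fo2] at hv ⊢
      exact sub_nonneg.1 ((add_nonneg (sub_nonneg.2 hb) (Ce.g621
            x0
            y0
            w0
            A0
            B0
            s0
            v0
            (sn x1)
            (sn y1)
            (sn w1)
            (sn a)
            (nn b)
            (sn B1)
            ((sn hi).trans_eq (by ring1))
            ((sn lo).trans_eq (by ring1))
            ((sl hv).trans_eq (by ring1))
            ((sn h).trans_eq (by ring1))
            (T0.trans_eq (by ring1))
            (sn s1)
            (sn v1)
            ((sn sA).trans_eq (by ring1))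
            ((sn vu).trans_eq (by ring1))
            ((sn cv).trans_eq (by ring1)))).trans_eq
              (by ring1))
    · rw [vq4 a b] at hv ⊢
      simp only [st, mj, ng, nu, kk, W0, W1, ph, gg, bb, fo2] at hv ⊢
      exact sub_nonneg.1 ((add_nonneg (sub_nonneg.2 hb) (Ce.g641
            x0
            y0
            w0
            A0
            B0
            s0
            v0
            (sn x1)
            (sn y1)
            (sn w1)
            (sn a)
            (sn b)
            (sn B1)
            ((sn hi).trans_eq (by ring1))
            ((sn lo).trans_eq (by ring1))
            ((sl hv).trans_eq (by ring1))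
            ((sn h).trans_eq (by ring1))
            (T0.trans_eq (by ring1))
            (sn s1)
            (sn v1)
            ((sn sA).trans_eq (by ring1))
            ((sn vu).trans_eq (by ring1))
            ((sn cv).trans_eq (by ring1)))).trans_eq
              (by ring1))
  · rw [max_eq_right h] at hb T0 ⊢
    rcases le_total w A with a | a <;> rcases le_total w B with b | b
    · rw [vq1 a b] at hv ⊢
      simp only [st, mj, ng, nu, kk, W0, W1, ph, gg, bb, fo2] at hv ⊢
      exact sub_nonneg.1 ((add_nonneg (sub_nonneg.2 hb) (Ce.g610
            x0
            y0
            w0
            A0
            B0
            s0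
            v0
            (sn x1)
            (sn y1)
            (sn w1)
            (nn a)
            (nn b)
            (sn B1)
            ((sn hi).trans_eq (by ring1))
            ((sn lo).trans_eq (by ring1))
            ((sl hv).trans_eq (by ring1))
            ((sn h).trans_eq (by ring1))
            (T0.trans_eq (by ring1))
            (sn s1)
            (sn v1)
            ((sn sA).trans_eq (by ring1))
            ((sn vu).trans_eq (by ring1))
            ((sn cv).trans_eq (by ring1)))).trans_eq
              (by ring1))
    · rw [vq3 a b] at hv ⊢
      simp only [st, mj, ng, nu, kk, W0, W1, ph, gg, bb, fo2] at hv ⊢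
      exact sub_nonneg.1 ((add_nonneg (sub_nonneg.2 hb) (Ce.g630
            x0
            y0
            w0
            A0
            B0
            s0
            v0
            (sn x1)
            (sn y1)
            (sn w1)
            (nn a)
            (sn b)
            (sn B1)
            ((sn hi).trans_eq (by ring1))
            ((sn lo).trans_eq (by ring1))
            ((sl hv).trans_eq (by ring1))
            ((sn h).trans_eq (by ring1))
            (T0.trans_eq (by ring1))
            (sn s1)
            (sn v1)
            ((sn sA).trans_eq (by ring1))
            ((sn vu).trans_eq (by ring1))
            ((sn cv).trans_eq (by ring1)))).trans_eq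
              (by ring1))
    · rw [vq2 a b] at hv ⊢
      simp only [st, mj, ng, nu, kk, W0, W1, ph, gg, bb, fo2] at hv ⊢
      exact sub_nonneg.1 ((add_nonneg (sub_nonneg.2 hb) (Ce.g620
            x0
            y0
            w0
            A0
            B0
            s0
            v0
            (sn x1)
            (sn y1)
            (sn w1)
            (sn a)
            (nn b)
            (sn B1)
            ((sn hi).trans_eq (by ring1))
            ((sn lo).trans_eq (by ring1))
            ((sl hv).trans_eq (by ring1))
            ((sn h).trans_eq (by ring1))
            (T0.trans_eq (by ring1))
            (sn s1)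
            (sn v1)
            ((sn sA).trans_eq (by ring1))
            ((sn vu).trans_eq (by ring1))
            ((sn cv).trans_eq (by ring1)))).trans_eq
              (by ring1))
    · rw [vq4 a b] at hv ⊢
      simp only [st, mj, ng, nu, kk, W0, W1, ph, gg, bb, fo2] at hv ⊢
      exact sub_nonneg.1 ((add_nonneg (sub_nonneg.2 hb) (Ce.g640
            x0
            y0
            w0
            A0
            B0
            s0
            v0
            (sn x1)
            (sn y1)
            (sn w1)
            (sn a)
            (sn b)
            (sn B1)
            ((sn hi).trans_eq (by ring1))
            ((sn lo).trans_eq (by ring1))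
            ((sl hv).trans_eq (by ring1))
            ((sn h).trans_eq (by ring1))
            (T0.trans_eq (by ring1))
            (sn s1)
            (sn v1)
            ((sn sA).trans_eq (by ring1))
            ((sn vu).trans_eq (by ring1))
            ((sn cv).trans_eq (by ring1)))).trans_eq
              (by ring1))

/-- one own far cell, a very low cap on `x` -/
theorem kf6 {x y w A B v : ℝ} (g : Hc x y w A B) (B1 : B ≤ 1)
    (hv : bb w (1 - B) x y + (W0 x y - W1 x y) < vl w A B)
    (hA : 13 / 20 < A - 1) (v0 : 0 ≤ v) (v1 : v ≤ 1) (cv : v ≤ 1 - B + y)
    (T0 : 0 ≤ 2 * w - A - B) :
    mj (nu x - kk x y) (1 - x) x (A - 1) + st (nu y) y v + bn (13 / 20) (2 * w - A - B)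
      + vl w A B ≤ W0 x y + bb w (1 - B) x y := by
  obtain ⟨x0, x1, y0, y1, w0, w1, A0, B0, hi, lo⟩ := g
  have hb := bn_le (by norm_num : (0 : ℝ) ≤ 13 / 20) T0
  have a : w ≤ A := by linarith
  have b : B ≤ w := by linarith
  rw [vq3 a b] at hv ⊢
  simp only [st, mj, ng, nu, kk, W0, W1, ph, gg, bb, fo2] at hv ⊢
  exact sub_nonneg.1 ((add_nonneg (sub_nonneg.2 hb) (Ce.k6
        x0
        y0
        w0
        A0
        B0
        v0
        (sn x1)
        (sn y1)
        (sn w1)
        (nn a)
        (sn b)
        (sn B1)
        ((sn hi).trans_eq (by ring1))
        ((sn lo).trans_eq (by ring1))
        ((sl hv).trans_eq (by ring1))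
        (by linarith only [hA])
        (sn v1)
        ((sn cv).trans_eq (by ring1))
        (T0.trans_eq (by ring1)))).trans_eq
          (by ring1))

end Pool.Agent.Helper70.OL
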