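import Pool.Agent.Helper70.OL.Base
import Pool.Agent.Helper70.OL.CeR

/-!
# The crude states, and the cells of height at least `11/20`
-/

set_option autoImplicit false
set_option linter.unusedSimpArgs false

namespace Pool.Agent.Helper70.OL

open Pool.Agent.Helper74.TS Pool.Agent.Helper83.TS Pool.Agent.Helper78.TS
  Pool.Agent.Helper19.TS.OL0

private theorem sn {a b : ℝ} (h : a ≤ b) : 0 ≤ b - a := sub_nonneg.2 h

private theorem sl {a b : ℝ} (h : a < b) : 0 ≤ b - a := sub_nonneg.2 h.le

private theorem nn {a b : ℝ} (h : a ≤ b) : 0 ≤ -a + b := by linarith only [h]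

/-- a crude state -/
theorem rr1 {x y w A B φ d o : ℝ} (g : Hc x y w A B) (hφ : x * y / 4 ≤ φ)
    (dd0 : 0 ≤ d) (d1 : d ≤ 3 / 10) (dx : d ≤ x) (hA : A ≤ w + d - 1) (oo0 : 0 ≤ o)
    (o1 : o ≤ 13 / 20) (B2 : B ≤ 2)
    (od : y - (B - 1) ≤ x - (d + o)) :
    mj (nu x) (1 - x) x (d + o) + mj (nu y - kk x y) (1 - y) y (B - 1) + fo2 o d
      + vl w A B ≤ W0 x y + φ := by
  obtain ⟨x0, x1, y0, y1, w0, w1, A0, B0, hi, lo⟩ := g
  have a : A ≤ w := by linarith
  have b : w ≤ B := by linarith
  rw [vq2 a b]
  simp only [st, mj, ng, nu, kk, W0, W1, ph, gg, bb, fo2]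
  exact sub_nonneg.1 ((add_nonneg (sub_nonneg.2 hφ) (Ce.rr1
        x0
        y0
        w0
        A0
        B0
        dd0
        oo0
        (sn x1)
        (sn y1)
        (sn w1)
        ((sn hi).trans_eq (by ring1))
        ((sn lo).trans_eq (by ring1))
        (sn d1)
        ((sn dx).trans_eq (by ring1))
        ((sn hA).trans_eq (by ring1))
        (sn o1)
        ((sn B2).trans_eq (by ring1))
        ((sn od).trans_eq (by ring1)))).trans_eq
          (by ring1))

/-- a crude state -/
theorem rr2 {x y w A B φ d o : ℝ} (g : Hc x y w A B) (hφ : x * y / 4 ≤ φ)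
    (dd0 : 0 ≤ d) (d1 : d ≤ 3 / 10) (dx : d ≤ x) (hA : A ≤ w + d - 1) (oo0 : 0 ≤ o)
    (o1 : o ≤ 13 / 20) (B2 : B ≤ 2)
    (od : x - (d + o) ≤ y - (B - 1)) :
    mj (nu x - kk x y) (1 - x) x (d + o) + mj (nu y) (1 - y) y (B - 1) + fo2 o d
      + vl w A B ≤ W0 x y + φ := by
  obtain ⟨x0, x1, y0, y1, w0, w1, A0, B0, hi, lo⟩ := g
  have a : A ≤ w := by linarith
  have b : w ≤ B := by linarith
  rw [vq2 a b]
  simp only [st, mj, ng, nu, kk, W0, W1, ph, gg, bb, fo2]
  exact sub_nonneg.1 ((add_nonneg (sub_nonneg.2 hφ) (Ce.rr2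
        x0
        y0
        w0
        A0
        B0
        dd0
        oo0
        (sn x1)
        (sn y1)
        (sn w1)
        ((sn hi).trans_eq (by ring1))
        ((sn lo).trans_eq (by ring1))
        (sn d1)
        ((sn dx).trans_eq (by ring1))
        ((sn hA).trans_eq (by ring1))
        (sn o1)
        ((sn B2).trans_eq (by ring1))
        ((sn od).trans_eq (by ring1)))).trans_eq
          (by ring1))

/-- a crude state -/
theorem rs1 {x y w A B φ d o r : ℝ} (g : Hc x y w A B) (hφ : x * y / 4 ≤ φ)
    (dd0 : 0 ≤ d) (d1 : d ≤ 3 / 10) (dx : d ≤ x) (hA : A ≤ w + d - 1) (oo0 : 0 ≤ o)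
    (o1 : o ≤ 13 / 20) (r0 : B - 1 ≤ r) (r1 : r ≤ 13 / 20) (T0 : 0 ≤ 2 * w - A - B)
    (od : y - r ≤ x - (d + o)) :
    mj (nu x) (1 - x) x (d + o) + mj (nu y - kk x y) (1 - y) y r + fo2 o d + r * (2 * w - A - B)
      + vl w A B ≤ W0 x y + φ := by
  obtain ⟨x0, x1, y0, y1, w0, w1, A0, B0, hi, lo⟩ := g
  have a : A ≤ w := by linarith
  have b : w ≤ B := by linarith
  have rr0 : 0 ≤ r := by linarith
  rw [vq2 a b]
  simp only [st, mj, ng, nu, kk, W0, W1, ph, gg, bb, fo2]
  exact sub_nonneg.1 ((add_nonneg (sub_nonneg.2 hφ) (Ce.rs1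
        x0
        y0
        w0
        A0
        B0
        dd0
        oo0
        rr0
        (sn x1)
        (sn y1)
        (sn w1)
        ((sn hi).trans_eq (by ring1))
        ((sn lo).trans_eq (by ring1))
        (sn d1)
        ((sn dx).trans_eq (by ring1))
        ((sn hA).trans_eq (by ring1))
        (sn o1)
        ((sn r0).trans_eq (by ring1))
        (sn r1)
        (T0.trans_eq (by ring1))
        ((sn od).trans_eq (by ring1)))).trans_eq
          (by ring1))

/-- a crude state -/
theorem rs2 {x y w A B φ d o r : ℝ} (g : Hc x y w A B) (hφ : x * y / 4 ≤ φ)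
    (dd0 : 0 ≤ d) (d1 : d ≤ 3 / 10) (dx : d ≤ x) (hA : A ≤ w + d - 1) (oo0 : 0 ≤ o)
    (o1 : o ≤ 13 / 20) (r0 : B - 1 ≤ r) (r1 : r ≤ 13 / 20) (T0 : 0 ≤ 2 * w - A - B)
    (od : x - (d + o) ≤ y - r) :
    mj (nu x - kk x y) (1 - x) x (d + o) + mj (nu y) (1 - y) y r + fo2 o d + r * (2 * w - A - B)
      + vl w A B ≤ W0 x y + φ := by
  obtain ⟨x0, x1, y0, y1, w0, w1, A0, B0, hi, lo⟩ := g
  have a : A ≤ w := by linarith
  have b : w ≤ B := by linarith
  have rr0 : 0 ≤ r := by linarith
  rw [vq2 a b]
  simp only [st, mj, ng, nu, kk, W0, W1, ph, gg, bb, fo2]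
  exact sub_nonneg.1 ((add_nonneg (sub_nonneg.2 hφ) (Ce.rs2
        x0
        y0
        w0
        A0
        B0
        dd0
        oo0
        rr0
        (sn x1)
        (sn y1)
        (sn w1)
        ((sn hi).trans_eq (by ring1))
        ((sn lo).trans_eq (by ring1))
        (sn d1)
        ((sn dx).trans_eq (by ring1))
        ((sn hA).trans_eq (by ring1))
        (sn o1)
        ((sn r0).trans_eq (by ring1))
        (sn r1)
        (T0.trans_eq (by ring1))
        ((sn od).trans_eq (by ring1)))).trans_eq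
          (by ring1))

/-- a crude state -/
theorem rt1 {x y w A B φ d o : ℝ} (g : Hc x y w A B) (hφ : x * y / 4 ≤ φ)
    (dd0 : 0 ≤ d) (d1 : d ≤ 3 / 10) (dx : d ≤ x) (hA : A ≤ w + d - 1) (oo0 : 0 ≤ o)
    (o1 : o ≤ 13 / 20) (hB : 13 / 20 < B - 1) (T0 : 0 ≤ 2 * w - A - B)
    (od : y - (B - 1) ≤ x - (d + o)) :
    mj (nu x) (1 - x) x (d + o) + mj (nu y - kk x y) (1 - y) y (B - 1) + fo2 o d + 13 / 20 * (2 * w - A - B)
      + vl w A B ≤ W0 x y + φ := by
  obtain ⟨x0, x1, y0, y1, w0, w1, A0, B0, hi, lo⟩ := g
  have a : A ≤ w := by linarith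
  have b : w ≤ B := by linarith
  rw [vq2 a b]
  simp only [st, mj, ng, nu, kk, W0, W1, ph, gg, bb, fo2]
  exact sub_nonneg.1 ((add_nonneg (sub_nonneg.2 hφ) (Ce.rt1
        x0
        y0
        w0
        A0
        B0
        dd0
        oo0
        (sn x1)
        (sn y1)
        (sn w1)
        ((sn hi).trans_eq (by ring1))
        ((sn lo).trans_eq (by ring1))
        (sn d1)
        ((sn dx).trans_eq (by ring1))
        ((sn hA).trans_eq (by ring1))
        (sn o1)
        (by linarith only [hB])
        (T0.trans_eq (by ring1))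
        ((sn od).trans_eq (by ring1)))).trans_eq
          (by ring1))

/-- a crude state -/
theorem rt2 {x y w A B φ d o : ℝ} (g : Hc x y w A B) (hφ : x * y / 4 ≤ φ)
    (dd0 : 0 ≤ d) (d1 : d ≤ 3 / 10) (dx : d ≤ x) (hA : A ≤ w + d - 1) (oo0 : 0 ≤ o)
    (o1 : o ≤ 13 / 20) (hB : 13 / 20 < B - 1) (T0 : 0 ≤ 2 * w - A - B)
    (od : x - (d + o) ≤ y - (B - 1)) :
    mj (nu x - kk x y) (1 - x) x (d + o) + mj (nu y) (1 - y) y (B - 1) + fo2 o d + 13 / 20 * (2 * w - A - B)
      + vl w A B ≤ W0 x y + φ := by
  obtain ⟨x0, x1, y0, y1, w0, w1, A0, B0, hi, lo⟩ := g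
  have a : A ≤ w := by linarith
  have b : w ≤ B := by linarith
  rw [vq2 a b]
  simp only [st, mj, ng, nu, kk, W0, W1, ph, gg, bb, fo2]
  exact sub_nonneg.1 ((add_nonneg (sub_nonneg.2 hφ) (Ce.rt2
        x0
        y0
        w0
        A0
        B0
        dd0
        oo0
        (sn x1)
        (sn y1)
        (sn w1)
        ((sn hi).trans_eq (by ring1))
        ((sn lo).trans_eq (by ring1))
        (sn d1)
        ((sn dx).trans_eq (by ring1))
        ((sn hA).trans_eq (by ring1))
        (sn o1)
        (by linarith only [hB])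
        (T0.trans_eq (by ring1))
        ((sn od).trans_eq (by ring1)))).trans_eq
          (by ring1))

/-- a bound of the gain of a cell with a high cap -/
theorem lm1 {x y w A : ℝ} (x0 : 0 ≤ x) (x1 : x ≤ 3 / 5) (y0 : 0 ≤ y) (y1 : y ≤ 3 / 5) (w0 : 0 ≤ w)
    (w1 : w ≤ 1) (A0 : 0 ≤ A) (wl : 7 / 10 ≤ w) (hA : A ≤ w - 7 / 10) : x * y / 4 ≤ ph w x y := by
  simp only [ph, gg, bb]
  exact sub_nonneg.1 ((Ce.m1
        x0
        y0
        w0
        A0
        (sn x1)
        (sn y1)
        (sn w1)
        ((sn wl).trans_eq (by ring1))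
        ((sn hA).trans_eq (by ring1))).trans_eq
          (by ring1))

/-- a bound of the gain of a cell with a high cap -/
theorem lm2 {x y z w A : ℝ} (x0 : 0 ≤ x) (x1 : x ≤ 3 / 5) (y0 : 0 ≤ y) (y1 : y ≤ 3 / 5) (z0 : 0 ≤ z) (z1 : z ≤ 3 / 5) (w0 : 0 ≤ w)
    (w1 : w ≤ 1) (A0 : 0 ≤ A) (wl : 7 / 10 ≤ w) (hA : A ≤ w - 7 / 10) : x * y / 4 ≤ gg x y z - ph (1 - A) x z := by
  simp only [ph, gg, bb]
  exact sub_nonneg.1 ((Ce.m2
        x0
        y0
        z0
        w0
        A0
        (sn x1)
        (sn y1)
        ((sn z1).trans_eq (by ring1))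
        (sn w1)
        ((sn wl).trans_eq (by ring1))
        ((sn hA).trans_eq (by ring1))).trans_eq
          (by ring1))

/-- a bound of the gain of a cell with a high cap -/
theorem lm5 {x y w A : ℝ} (x0 : 0 ≤ x) (x1 : x ≤ 3 / 5) (y0 : 0 ≤ y) (y1 : y ≤ 3 / 5) (w0 : 0 ≤ w)
    (w1 : w ≤ 1) (A0 : 0 ≤ A) (wl : 7 / 10 ≤ w) (hA : A ≤ w - 7 / 10) : x * y / 4 ≤ bb w (1 - A) x y := by
  simp only [ph, gg, bb]
  exact sub_nonneg.1 ((Ce.m5
        x0
        y0
        w0
        A0
        (sn x1)
        (sn y1)
        (sn w1)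
        ((sn wl).trans_eq (by ring1))
        ((sn hA).trans_eq (by ring1))).trans_eq
          (by ring1))

/-- the value `one`: a cell of height at least `11/20` -/
theorem ll1 {x y w A B : ℝ} (x0 : 0 ≤ x) (x1 : x ≤ 3 / 5) (y0 : 0 ≤ y) (y1 : y ≤ 3 / 5)
    (w0 : 0 ≤ w) (w1 : w ≤ 1) (A0 : 0 ≤ A) (B0 : 0 ≤ B) (lo : w ≤ A + B)
    (hi : A + B ≤ w + 9 / 20) :
    vl w A B ≤ ph w x y + (W0 x y - W1 x y) := by
  rcases le_total w A with a | a <;> rcases le_total w B with b | b
  · rw [vq1 a b]
    simp only [st, mj, ng, nu, kk, W0, W1, ph, gg, bb, fo2]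
    exact sub_nonneg.1 ((Ce.l11
          x0
          y0
          w0
          A0
          B0
          (sn x1)
          (sn y1)
          (sn w1)
          (nn a)
          (nn b)
          ((sn lo).trans_eq (by ring1))
          ((sn hi).trans_eq (by ring1))).trans_eq
            (by ring1))
  · rw [vq3 a b]
    simp only [st, mj, ng, nu, kk, W0, W1, ph, gg, bb, fo2]
    exact sub_nonneg.1 ((Ce.l12
          y0
          x0
          w0
          B0
          A0
          (sn y1)
          (sn x1)
          (sn w1)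
          (sn b)
          (nn a)
          ((sn lo).trans_eq (by ring1))
          ((sn hi).trans_eq (by ring1))).trans_eq
            (by ring1))
  · rw [vq2 a b]
    simp only [st, mj, ng, nu, kk, W0, W1, ph, gg, bb, fo2]
    exact sub_nonneg.1 ((Ce.l12
          x0
          y0
          w0
          A0
          B0
          (sn x1)
          (sn y1)
          (sn w1)
          (sn a)
          (nn b)
          ((sn lo).trans_eq (by ring1))
          ((sn hi).trans_eq (by ring1))).trans_eq
            (by ring1))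
  · rw [vq4 a b]
    simp only [st, mj, ng, nu, kk, W0, W1, ph, gg, bb, fo2]
    exact sub_nonneg.1 ((Ce.l14
          x0
          y0
          w0
          A0
          B0
          (sn x1)
          (sn y1)
          (sn w1)
          (sn a)
          (sn b)
          ((sn lo).trans_eq (by ring1))
          ((sn hi).trans_eq (by ring1))).trans_eq
            (by ring1))

/-- the value `two, the column `y``: a cell of height at least `11/20` -/
theorem ll2 {x y z w A B : ℝ} (x0 : 0 ≤ x) (x1 : x ≤ 3 / 5) (y0 : 0 ≤ y) (y1 : y ≤ 3 / 5) (z0 : 0 ≤ z) (z1 : z ≤ 3 / 5)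
    (w0 : 0 ≤ w) (w1 : w ≤ 1) (A0 : 0 ≤ A) (B0 : 0 ≤ B) (A1 : A ≤ 1) (lo : w ≤ A + B)
    (hi : A + B ≤ w + 9 / 20) :
    vl w A B ≤ gg x y z - ph (1 - A) x z + (W0 x y - W1 x y) := by
  rcases le_total w A with a | a <;> rcases le_total w B with b | b
  · rw [vq1 a b]
    simp only [st, mj, ng, nu, kk, W0, W1, ph, gg, bb, fo2]
    exact sub_nonneg.1 ((Ce.l21
          x0
          y0
          z0
          w0
          A0
          B0
          (sn x1)
          (sn y1)
          ((sn z1).trans_eq (by ring1))
          (sn w1)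
          (nn a)
          (nn b)
          (sn A1)
          ((sn lo).trans_eq (by ring1))
          ((sn hi).trans_eq (by ring1))).trans_eq
            (by ring1))
  · rw [vq3 a b]
    simp only [st, mj, ng, nu, kk, W0, W1, ph, gg, bb, fo2]
    exact sub_nonneg.1 ((Ce.l23
          x0
          y0
          z0
          w0
          A0
          B0
          (sn x1)
          (sn y1)
          ((sn z1).trans_eq (by ring1))
          (sn w1)
          (nn a)
          (sn b)
          (sn A1)
          ((sn lo).trans_eq (by ring1))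
          ((sn hi).trans_eq (by ring1))).trans_eq
            (by ring1))
  · rw [vq2 a b]
    simp only [st, mj, ng, nu, kk, W0, W1, ph, gg, bb, fo2]
    exact sub_nonneg.1 ((Ce.l22
          x0
          y0
          z0
          w0
          A0
          B0
          (sn x1)
          (sn y1)
          ((sn z1).trans_eq (by ring1))
          (sn w1)
          (sn a)
          (nn b)
          (sn A1)
          ((sn lo).trans_eq (by ring1))
          ((sn hi).trans_eq (by ring1))).trans_eq
            (by ring1))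
  · rw [vq4 a b]
    simp only [st, mj, ng, nu, kk, W0, W1, ph, gg, bb, fo2]
    exact sub_nonneg.1 ((Ce.l24
          x0
          y0
          z0
          w0
          A0
          B0
          (sn x1)
          (sn y1)
          ((sn z1).trans_eq (by ring1))
          (sn w1)
          (sn a)
          (sn b)
          (sn A1)
          ((sn lo).trans_eq (by ring1))
          ((sn hi).trans_eq (by ring1))).trans_eq
            (by ring1))

/-- the value `three`: a cell of height at least `11/20` -/
theorem ll4 {x y z w A B : ℝ} (x0 : 0 ≤ x) (x1 : x ≤ 3 / 5) (y0 : 0 ≤ y) (y1 : y ≤ 3 / 5) (z0 : 0 ≤ z) (z1 : z ≤ 3 / 5)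
    (w0 : 0 ≤ w) (w1 : w ≤ 1) (A0 : 0 ≤ A) (B0 : 0 ≤ B) (A1 : A ≤ 1) (B1 : B ≤ 1) (lo : w ≤ A + B)
    (hi : A + B ≤ w + 9 / 20)
    (ft : 3 / 100 + (W0 x y - W1 x y) < vl w A B) :
    vl w A B ≤ gg x y z + 3 / 100 - ph (1 - A) x z - ph (1 - B) y z + (W0 x y - W1 x y) := by
  obtain ⟨l1, l2, l3, l4, lA, lB, lw⟩ := li_of w0 w1 A0 B0 A1 B1 lo (by linarith)
    (by linarith only [ft, W01 x0 x1 y0 y1])
  have l0 : 27 / 100 ≤ w := li_w w0 w1 A0 B0 lo hi (by linarith only [ft, W01 x0 x1 y0 y1])
  rcases le_total w A with a | a <;> rcases le_total w B with b | b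
  · rw [vq1 a b] at ft ⊢
    simp only [st, mj, ng, nu, kk, W0, W1, ph, gg, bb, fo2] at ft ⊢
    exact sub_nonneg.1 ((Ce.l41
          x0
          y0
          z0
          w0
          A0
          B0
          (sn x1)
          (sn y1)
          ((sn z1).trans_eq (by ring1))
          (sn w1)
          (nn a)
          (nn b)
          (sn A1)
          (sn B1)
          ((sn lo).trans_eq (by ring1))
          ((sn hi).trans_eq (by ring1))
          ((sl ft).trans_eq (by ring1))
          ((sn l1).trans_eq (by ring1))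
          ((sn l2).trans_eq (by ring1))
          ((sn l3).trans_eq (by ring1))
          ((sn l4).trans_eq (by ring1))
          ((sn lA).trans_eq (by ring1))
          ((sn lB).trans_eq (by ring1))
          ((sn l0).trans_eq (by ring1))).trans_eq
            (by ring1))
  · rw [vq3 a b] at ft ⊢
    have m3 : 3 / 100 ≤ w * B * (A + B - w) := by
      linarith only [ft, W01 x0 x1 y0 y1, pow_nonneg B0 3]
    have wm : 1 / 15 ≤ w * B := by
      linarith only [m3, mul_le_mul_of_nonneg_left (by linarith only [hi] : A + B - w ≤ 9 / 20)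
        (mul_nonneg w0 B0)]
    have mm : 1 / 15 ≤ B := by
      linarith only [wm, mul_le_mul_of_nonneg_right w1 B0]
    simp only [st, mj, ng, nu, kk, W0, W1, ph, gg, bb, fo2] at ft ⊢
    exact sub_nonneg.1 ((Ce.l42
          y0
          x0
          z0
          w0
          B0
          A0
          (sn y1)
          (sn x1)
          ((sn z1).trans_eq (by ring1))
          (sn w1)
          (sn b)
          (nn a)
          (sn B1)
          (sn A1)
          ((sn lo).trans_eq (by ring1))
          ((sn hi).trans_eq (by ring1))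
          ((sl ft).trans_eq (by ring1))
          ((sn l1).trans_eq (by ring1))
          ((sn l2).trans_eq (by ring1))
          ((sn l3).trans_eq (by ring1))
          ((sn l4).trans_eq (by ring1))
          ((sn lB).trans_eq (by ring1))
          ((sn lA).trans_eq (by ring1))
          ((sn l0).trans_eq (by ring1))
          ((sn wm).trans_eq (by ring1))
          ((sn mm).trans_eq (by ring1))).trans_eq
            (by ring1))
  · rw [vq2 a b] at ft ⊢
    have m3 : 3 / 100 ≤ w * A * (A + B - w) := by
      linarith only [ft, W01 x0 x1 y0 y1, pow_nonneg A0 3]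
    have wm : 1 / 15 ≤ w * A := by
      linarith only [m3, mul_le_mul_of_nonneg_left (by linarith only [hi] : A + B - w ≤ 9 / 20)
        (mul_nonneg w0 A0)]
    have mm : 1 / 15 ≤ A := by
      linarith only [wm, mul_le_mul_of_nonneg_right w1 A0]
    simp only [st, mj, ng, nu, kk, W0, W1, ph, gg, bb, fo2] at ft ⊢
    exact sub_nonneg.1 ((Ce.l42
          x0
          y0
          z0
          w0
          A0
          B0
          (sn x1)
          (sn y1)
          ((sn z1).trans_eq (by ring1))
          (sn w1)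
          (sn a)
          (nn b)
          (sn A1)
          (sn B1)
          ((sn lo).trans_eq (by ring1))
          ((sn hi).trans_eq (by ring1))
          ((sl ft).trans_eq (by ring1))
          ((sn l1).trans_eq (by ring1))
          ((sn l2).trans_eq (by ring1))
          ((sn l3).trans_eq (by ring1))
          ((sn l4).trans_eq (by ring1))
          ((sn lA).trans_eq (by ring1))
          ((sn lB).trans_eq (by ring1))
          ((sn l0).trans_eq (by ring1))
          ((sn wm).trans_eq (by ring1))
          ((sn mm).trans_eq (by ring1))).trans_eq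
            (by ring1))
  · rw [vq4 a b] at ft ⊢
    simp only [st, mj, ng, nu, kk, W0, W1, ph, gg, bb, fo2] at ft ⊢
    exact sub_nonneg.1 ((Ce.l44
          x0
          y0
          z0
          w0
          A0
          B0
          (sn x1)
          (sn y1)
          ((sn z1).trans_eq (by ring1))
          (sn w1)
          (sn a)
          (sn b)
          (sn A1)
          (sn B1)
          ((sn lo).trans_eq (by ring1))
          ((sn hi).trans_eq (by ring1))
          ((sl ft).trans_eq (by ring1))
          ((sn l1).trans_eq (by ring1))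
          ((sn l2).trans_eq (by ring1))
          ((sn l3).trans_eq (by ring1))
          ((sn l4).trans_eq (by ring1))
          ((sn lA).trans_eq (by ring1))
          ((sn lB).trans_eq (by ring1))
          ((sn l0).trans_eq (by ring1))).trans_eq
            (by ring1))

/-- the value `the cap of the column `y``: a cell of height at least `11/20` -/
theorem ll5 {x y w A B : ℝ} (x0 : 0 ≤ x) (x1 : x ≤ 3 / 5) (y0 : 0 ≤ y) (y1 : y ≤ 3 / 5)
    (w0 : 0 ≤ w) (w1 : w ≤ 1) (A0 : 0 ≤ A) (B0 : 0 ≤ B) (A1 : A ≤ 1) (lo : w ≤ A + B)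
    (hi : A + B ≤ w + 9 / 20) :
    vl w A B ≤ bb w (1 - A) x y + (W0 x y - W1 x y) := by
  rcases le_total w A with a | a <;> rcases le_total w B with b | b
  · rw [vq1 a b]
    simp only [st, mj, ng, nu, kk, W0, W1, ph, gg, bb, fo2]
    exact sub_nonneg.1 ((Ce.l51
          x0
          y0
          w0
          A0
          B0
          (sn x1)
          (sn y1)
          (sn w1)
          (nn a)
          (nn b)
          (sn A1)
          ((sn lo).trans_eq (by ring1))
          ((sn hi).trans_eq (by ring1))).trans_eq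
            (by ring1))
  · rw [vq3 a b]
    simp only [st, mj, ng, nu, kk, W0, W1, ph, gg, bb, fo2]
    exact sub_nonneg.1 ((Ce.l53
          x0
          y0
          w0
          A0
          B0
          (sn x1)
          (sn y1)
          (sn w1)
          (nn a)
          (sn b)
          (sn A1)
          ((sn lo).trans_eq (by ring1))
          ((sn hi).trans_eq (by ring1))).trans_eq
            (by ring1))
  · rw [vq2 a b]
    simp only [st, mj, ng, nu, kk, W0, W1, ph, gg, bb, fo2]
    exact sub_nonneg.1 ((Ce.l52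
          x0
          y0
          w0
          A0
          B0
          (sn x1)
          (sn y1)
          (sn w1)
          (sn a)
          (nn b)
          (sn A1)
          ((sn lo).trans_eq (by ring1))
          ((sn hi).trans_eq (by ring1))).trans_eq
            (by ring1))
  · rw [vq4 a b]
    simp only [st, mj, ng, nu, kk, W0, W1, ph, gg, bb, fo2]
    exact sub_nonneg.1 ((Ce.l54
          x0
          y0
          w0
          A0
          B0
          (sn x1)
          (sn y1)
          (sn w1)
          (sn a)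
          (sn b)
          (sn A1)
          ((sn lo).trans_eq (by ring1))
          ((sn hi).trans_eq (by ring1))).trans_eq
            (by ring1))

end Pool.Agent.Helper70.OL
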