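import Pool.Agent.Helper70.OL.WrC
import Pool.Agent.Helper70.OL.WrR
import Pool.Agent.Helper70.OL.WrF1
import Pool.Agent.Helper70.OL.WrF2
import Pool.Agent.Helper70.OL.WrF3
import Pool.Agent.Helper70.OL.WrF4
import Pool.Agent.Helper70.OL.WrF5
import Pool.Agent.Helper70.OL.WrF6

/-!
# The lists of the case `OL0'`
-/

set_option autoImplicit false
set_option linter.unusedSimpArgs false
set_option linter.unusedVariables false

namespace Pool.Agent.Helper70.OL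

open Pool.Agent.Helper74.TS Pool.Agent.Helper83.TS Pool.Agent.Helper78.TS
  Pool.Agent.Helper19.TS.OL0

/-- the crude states -/
theorem lr_of {x y w A B φ : ℝ} (g : Hc x y w A B)
    (h : 7 / 10 ≤ w → A ≤ w - 7 / 10 → 1 < B → x * y / 4 ≤ φ) :
    LR (nu x) (nu y) (kk x y) x y (W0 x y) w A B φ := by
  have key : ∀ d, d ≤ 3 / 10 → A ≤ w + d - 1 → x * y / 4 ≤ φ := fun d d1 hA =>
    h (by linarith [g.A0]) (by linarith) (by linarith [g.lo])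
  exact ⟨fun d o d0 d1 dX hA o0 o1 B2 od => rr1 g (key d d1 hA) d0 d1 dX hA o0 o1 B2 od,
    fun d o d0 d1 dX hA o0 o1 B2 od => rr2 g (key d d1 hA) d0 d1 dX hA o0 o1 B2 od,
    fun d o r d0 d1 dX hA o0 o1 r0 r1 T0 od =>
      rs1 g (key d d1 hA) d0 d1 dX hA o0 o1 r0 r1 T0 od,
    fun d o r d0 d1 dX hA o0 o1 r0 r1 T0 od =>
      rs2 g (key d d1 hA) d0 d1 dX hA o0 o1 r0 r1 T0 od,
    fun hB d o d0 d1 dX hA o0 o1 T0 od => rt1 g (key d d1 hA) d0 d1 dX hA o0 o1 hB T0 od,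
    fun hB d o d0 d1 dX hA o0 o1 T0 od => rt2 g (key d d1 hA) d0 d1 dX hA o0 o1 hB T0 od⟩

theorem lc1 {x y w A B : ℝ} (g : Hc x y w A B) :
    LC (nu x) (nu y) (kk x y) x y (W0 x y) w A B (ph w x y) := by
  have e : ph w y x = ph w x y := ph_comm w y x
  refine ⟨fun u v v0 vu u1 cu cv => cc1 g v0 vu u1 cu cv, fun u v u0 uv v1 cu cv => ?_,
    fun hB => ?_, fun hA => ?_⟩
  · have h := cc1 g.swap u0 uv v1 cv cu
    rw [vl_comm w B A, kk_comm y x, W0_comm y x, e] at h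
    linarith only [h]
  · exact fun u u0 u1 cu => dd1 g hB u0 u1 cu
  · intro v v0 v1 cv
    have h := dd1 g.swap hA v0 v1 cv
    rw [vl_comm w B A, kk_comm y x, W0_comm y x, e] at h
    linarith only [h]

theorem lx1 {x y w A B : ℝ} (g : Hc x y w A B)
    (hv : ph w x y + (W0 x y - W1 x y) < vl w A B) :
    LX (nu x) (nu y) (kk x y) x y (W0 x y) w A B (ph w x y) := by
  refine ⟨fun s v s0 s1 sA v0 vu cv T0 => ff1 g hv s0 s1 sA v0 vu cv T0,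
    fun s v s0 s1 sA v0 v1 vu cv T0 => gf1 g hv s0 s1 sA v0 v1 vu cv T0,
    fun hB => ?_, fun hB => ?_, fun hA => ?_⟩
  · exact fun s s0 s1 od T0 => hh11 g hv hB s0 s1 od T0
  · exact fun s s0 s1 od T0 => hh12 g hv hB s0 s1 od T0
  · exact fun v v0 v1 cv T0 => kf1 g hv hA v0 v1 cv T0

theorem ly1 {x y w A B : ℝ} (g : Hc x y w A B)
    (hv : ph w x y + (W0 x y - W1 x y) < vl w A B) (hB : 1 < B) :
    LY (nu x) (nu y) (kk x y) x y (W0 x y) w A B (ph w x y) := by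
  exact ⟨fun s r T s0 s1 r0 r1 od hT T0 => yy11 g hv hB s0 s1 r0 r1 od hT T0,
    fun s r T s0 s1 r0 r1 od hT T0 => yy12 g hv hB s0 s1 r0 r1 od hT T0,
    fun hB2 s s0 s1 od T0 => zz11 g hv hB2 s0 s1 od T0,
    fun hB2 s s0 s1 od T0 => zz12 g hv hB2 s0 s1 od T0⟩

theorem lr1 {x y w A B : ℝ} (g : Hc x y w A B) :
    LR (nu x) (nu y) (kk x y) x y (W0 x y) w A B (ph w x y) :=
  lr_of g fun wl hA _ => lm1 g.x0 g.x1 g.y0 g.y1 g.w0 g.w1 g.A0 wl hA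

/-- **all the lists of the value `one`** -/
theorem ls1 {x y w A B : ℝ} (g : Hc x y w A B)
    (hv : ph w x y + (W0 x y - W1 x y) < vl w A B) :
    LS (nu x) (nu y) (kk x y) x y (W0 x y) w A B (ph w x y) :=
  ⟨lc1 g, lx1 g hv, lr1 g, ly1 g hv⟩

theorem lc2 {x y z w A B : ℝ} (g : Hc x y w A B) (z0 : 0 ≤ z) (z1 : z ≤ 3 / 5) (A1 : A ≤ 1) :
    LC (nu x) (nu y) (kk x y) x y (W0 x y) w A B (gg x y z - ph (1 - A) x z) := by
  have e : gg y x z - ph (1 - A) x z = gg x y z - ph (1 - A) x z := by rw [gg_comm y x z]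
  refine ⟨fun u v v0 vu u1 cu cv => cc2 g z0 z1 A1 v0 vu u1 cu cv, fun u v u0 uv v1 cu cv => ?_,
    fun hB => ?_, fun hA => ?_⟩
  · have h := cc3 g.swap z0 z1 A1 u0 uv v1 cv cu
    rw [vl_comm w B A, kk_comm y x, W0_comm y x, e] at h
    linarith only [h]
  · exact fun u u0 u1 cu => dd2 g z0 z1 A1 hB u0 u1 cu
  · exact absurd hA (not_lt.2 (by linarith only [g.x0, A1]))

theorem lx2 {x y z w A B : ℝ} (g : Hc x y w A B) (z0 : 0 ≤ z) (z1 : z ≤ 3 / 5) (A1 : A ≤ 1)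
    (hv : gg x y z - ph (1 - A) x z + (W0 x y - W1 x y) < vl w A B) :
    LX (nu x) (nu y) (kk x y) x y (W0 x y) w A B (gg x y z - ph (1 - A) x z) := by
  refine ⟨fun s v s0 s1 sA v0 vu cv T0 => ff2 g z0 z1 A1 hv s0 s1 sA v0 vu cv T0,
    fun s v s0 s1 sA v0 v1 vu cv T0 => gf2 g z0 z1 A1 hv s0 s1 sA v0 v1 vu cv T0,
    fun hB => ?_, fun hB => ?_, fun hA => ?_⟩
  · exact fun s s0 s1 od T0 => hh21 g z0 z1 A1 hv hB s0 s1 od T0
  · exact fun s s0 s1 od T0 => hh22 g z0 z1 A1 hv hB s0 s1 od T0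
  · exact absurd hA (not_lt.2 (by linarith only [A1]))

theorem ly2 {x y z w A B : ℝ} (g : Hc x y w A B) (z0 : 0 ≤ z) (z1 : z ≤ 3 / 5) (A1 : A ≤ 1)
    (hv : gg x y z - ph (1 - A) x z + (W0 x y - W1 x y) < vl w A B) (hB : 1 < B) :
    LY (nu x) (nu y) (kk x y) x y (W0 x y) w A B (gg x y z - ph (1 - A) x z) := by
  exact ⟨fun s r T s0 s1 r0 r1 od hT T0 => yy21 g z0 z1 A1 hv hB s0 s1 r0 r1 od hT T0,
    fun s r T s0 s1 r0 r1 od hT T0 => yy22 g z0 z1 A1 hv hB s0 s1 r0 r1 od hT T0,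
    fun hB2 s s0 s1 od T0 => zz21 g z0 z1 A1 hv hB2 s0 s1 od T0,
    fun hB2 s s0 s1 od T0 => zz22 g z0 z1 A1 hv hB2 s0 s1 od T0⟩

theorem lr2 {x y z w A B : ℝ} (g : Hc x y w A B) (z0 : 0 ≤ z) (z1 : z ≤ 3 / 5) (A1 : A ≤ 1) :
    LR (nu x) (nu y) (kk x y) x y (W0 x y) w A B (gg x y z - ph (1 - A) x z) :=
  lr_of g fun wl hA _ => lm2 g.x0 g.x1 g.y0 g.y1 z0 z1 g.w0 g.w1 g.A0 wl hA

/-- **all the lists of the value `two, the column `y``** -/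
theorem ls2 {x y z w A B : ℝ} (g : Hc x y w A B) (z0 : 0 ≤ z) (z1 : z ≤ 3 / 5) (A1 : A ≤ 1)
    (hv : gg x y z - ph (1 - A) x z + (W0 x y - W1 x y) < vl w A B) :
    LS (nu x) (nu y) (kk x y) x y (W0 x y) w A B (gg x y z - ph (1 - A) x z) :=
  ⟨lc2 g z0 z1 A1, lx2 g z0 z1 A1 hv, lr2 g z0 z1 A1, ly2 g z0 z1 A1 hv⟩

theorem lc3 {x y z w A B : ℝ} (g : Hc x y w A B) (z0 : 0 ≤ z) (z1 : z ≤ 3 / 5) (B1 : B ≤ 1) :
    LC (nu x) (nu y) (kk x y) x y (W0 x y) w A B (gg x y z - ph (1 - B) y z) := by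
  have e : gg y x z - ph (1 - B) y z = gg x y z - ph (1 - B) y z := by rw [gg_comm y x z]
  refine ⟨fun u v v0 vu u1 cu cv => cc3 g z0 z1 B1 v0 vu u1 cu cv, fun u v u0 uv v1 cu cv => ?_,
    fun hB => ?_, fun hA => ?_⟩
  · have h := cc2 g.swap z0 z1 B1 u0 uv v1 cv cu
    rw [vl_comm w B A, kk_comm y x, W0_comm y x, e] at h
    linarith only [h]
  · exact absurd hB (not_lt.2 (by linarith only [g.y0, B1]))
  · intro v v0 v1 cv
    have h := dd2 g.swap z0 z1 B1 hA v0 v1 cv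
    rw [vl_comm w B A, kk_comm y x, W0_comm y x, e] at h
    linarith only [h]

theorem lx3 {x y z w A B : ℝ} (g : Hc x y w A B) (z0 : 0 ≤ z) (z1 : z ≤ 3 / 5) (B1 : B ≤ 1)
    (hv : gg x y z - ph (1 - B) y z + (W0 x y - W1 x y) < vl w A B) :
    LX (nu x) (nu y) (kk x y) x y (W0 x y) w A B (gg x y z - ph (1 - B) y z) := by
  refine ⟨fun s v s0 s1 sA v0 vu cv T0 => ff3 g z0 z1 B1 hv s0 s1 sA v0 vu cv T0,
    fun s v s0 s1 sA v0 v1 vu cv T0 => gf3 g z0 z1 B1 hv s0 s1 sA v0 v1 vu cv T0,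
    fun hB => ?_, fun hB => ?_, fun hA => ?_⟩
  · exact absurd hB (not_lt.2 (by linarith only [g.y0, B1]))
  · exact absurd hB (not_lt.2 (by linarith only [g.y0, B1]))
  · exact fun v v0 v1 cv T0 => kf3 g z0 z1 B1 hv hA v0 v1 cv T0

theorem ly3 {x y z w A B : ℝ} (g : Hc x y w A B) (z0 : 0 ≤ z) (z1 : z ≤ 3 / 5) (B1 : B ≤ 1)
    (hv : gg x y z - ph (1 - B) y z + (W0 x y - W1 x y) < vl w A B) (hB : 1 < B) :
    LY (nu x) (nu y) (kk x y) x y (W0 x y) w A B (gg x y z - ph (1 - B) y z) := by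
  exact absurd hB (not_lt.2 B1)

theorem lr3 {x y z w A B : ℝ} (g : Hc x y w A B) (z0 : 0 ≤ z) (z1 : z ≤ 3 / 5) (B1 : B ≤ 1) :
    LR (nu x) (nu y) (kk x y) x y (W0 x y) w A B (gg x y z - ph (1 - B) y z) :=
  lr_of g fun _ _ h => absurd h (not_lt.2 B1)

/-- **all the lists of the value `two, the column `x``** -/
theorem ls3 {x y z w A B : ℝ} (g : Hc x y w A B) (z0 : 0 ≤ z) (z1 : z ≤ 3 / 5) (B1 : B ≤ 1)
    (hv : gg x y z - ph (1 - B) y z + (W0 x y - W1 x y) < vl w A B) :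
    LS (nu x) (nu y) (kk x y) x y (W0 x y) w A B (gg x y z - ph (1 - B) y z) :=
  ⟨lc3 g z0 z1 B1, lx3 g z0 z1 B1 hv, lr3 g z0 z1 B1, ly3 g z0 z1 B1 hv⟩

theorem lc4 {x y z w A B : ℝ} (g : Hc x y w A B) (z0 : 0 ≤ z) (z1 : z ≤ 3 / 5) (A1 : A ≤ 1) (B1 : B ≤ 1) (ft : 3 / 100 + (W0 x y - W1 x y) < vl w A B) :
    LC (nu x) (nu y) (kk x y) x y (W0 x y) w A B (gg x y z + 3 / 100 - ph (1 - A) x z - ph (1 - B) y z) := by
  have ft' : 3 / 100 + (W0 y x - W1 y x) < vl w B A := by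
    rw [W0_comm y x, W1_comm y x, vl_comm w B A]
    exact ft
  have e : gg y x z + 3 / 100 - ph (1 - B) y z - ph (1 - A) x z = gg x y z + 3 / 100 - ph (1 - A) x z - ph (1 - B) y z := by
    rw [gg_comm y x z]
    ring
  refine ⟨fun u v v0 vu u1 cu cv => cc4 g z0 z1 A1 B1 ft v0 vu u1 cu cv, fun u v u0 uv v1 cu cv => ?_,
    fun hB => ?_, fun hA => ?_⟩
  · have h := cc4 g.swap z0 z1 B1 A1 ft' u0 uv v1 cv cu
    rw [vl_comm w B A, kk_comm y x, W0_comm y x, e] at h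
    linarith only [h]
  · exact absurd hB (not_lt.2 (by linarith only [g.y0, B1]))
  · exact absurd hA (not_lt.2 (by linarith only [g.x0, A1]))

theorem lx4 {x y z w A B : ℝ} (g : Hc x y w A B) (z0 : 0 ≤ z) (z1 : z ≤ 3 / 5) (A1 : A ≤ 1) (B1 : B ≤ 1) (ft : 3 / 100 + (W0 x y - W1 x y) < vl w A B)
    (hv : gg x y z + 3 / 100 - ph (1 - A) x z - ph (1 - B) y z + (W0 x y - W1 x y) < vl w A B) :
    LX (nu x) (nu y) (kk x y) x y (W0 x y) w A B (gg x y z + 3 / 100 - ph (1 - A) x z - ph (1 - B) y z) := by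
  refine ⟨fun s v s0 s1 sA v0 vu cv T0 => ff4 g z0 z1 A1 B1 ft hv s0 s1 sA v0 vu cv T0,
    fun s v s0 s1 sA v0 v1 vu cv T0 => gf4 g z0 z1 A1 B1 ft hv s0 s1 sA v0 v1 vu cv T0,
    fun hB => ?_, fun hB => ?_, fun hA => ?_⟩
  · exact absurd hB (not_lt.2 (by linarith only [g.y0, B1]))
  · exact absurd hB (not_lt.2 (by linarith only [g.y0, B1]))
  · exact absurd hA (not_lt.2 (by linarith only [A1]))

theorem ly4 {x y z w A B : ℝ} (g : Hc x y w A B) (z0 : 0 ≤ z) (z1 : z ≤ 3 / 5) (A1 : A ≤ 1) (B1 : B ≤ 1) (ft : 3 / 100 + (W0 x y - W1 x y) < vl w A B)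
    (hv : gg x y z + 3 / 100 - ph (1 - A) x z - ph (1 - B) y z + (W0 x y - W1 x y) < vl w A B) (hB : 1 < B) :
    LY (nu x) (nu y) (kk x y) x y (W0 x y) w A B (gg x y z + 3 / 100 - ph (1 - A) x z - ph (1 - B) y z) := by
  exact absurd hB (not_lt.2 B1)

theorem lr4 {x y z w A B : ℝ} (g : Hc x y w A B) (z0 : 0 ≤ z) (z1 : z ≤ 3 / 5) (A1 : A ≤ 1) (B1 : B ≤ 1) :
    LR (nu x) (nu y) (kk x y) x y (W0 x y) w A B (gg x y z + 3 / 100 - ph (1 - A) x z - ph (1 - B) y z) :=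
  lr_of g fun _ _ h => absurd h (not_lt.2 B1)

/-- **all the lists of the value `three`** -/
theorem ls4 {x y z w A B : ℝ} (g : Hc x y w A B) (z0 : 0 ≤ z) (z1 : z ≤ 3 / 5) (A1 : A ≤ 1) (B1 : B ≤ 1) (ft : 3 / 100 + (W0 x y - W1 x y) < vl w A B)
    (hv : gg x y z + 3 / 100 - ph (1 - A) x z - ph (1 - B) y z + (W0 x y - W1 x y) < vl w A B) :
    LS (nu x) (nu y) (kk x y) x y (W0 x y) w A B (gg x y z + 3 / 100 - ph (1 - A) x z - ph (1 - B) y z) :=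
  ⟨lc4 g z0 z1 A1 B1 ft, lx4 g z0 z1 A1 B1 ft hv, lr4 g z0 z1 A1 B1, ly4 g z0 z1 A1 B1 ft hv⟩

theorem lc5 {x y w A B : ℝ} (g : Hc x y w A B) (A1 : A ≤ 1) :
    LC (nu x) (nu y) (kk x y) x y (W0 x y) w A B (bb w (1 - A) x y) := by
  have e : bb w (1 - A) y x = bb w (1 - A) x y := bb_comm w (1 - A) y x
  refine ⟨fun u v v0 vu u1 cu cv => cc5 g A1 v0 vu u1 cu cv, fun u v u0 uv v1 cu cv => ?_,
    fun hB => ?_, fun hA => ?_⟩
  · have h := cc6 g.swap A1 u0 uv v1 cv cu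
    rw [vl_comm w B A, kk_comm y x, W0_comm y x, e] at h
    linarith only [h]
  · exact fun u u0 u1 cu => dd5 g A1 hB u0 u1 cu
  · exact absurd hA (not_lt.2 (by linarith only [g.x0, A1]))

theorem lx5 {x y w A B : ℝ} (g : Hc x y w A B) (A1 : A ≤ 1)
    (hv : bb w (1 - A) x y + (W0 x y - W1 x y) < vl w A B) :
    LX (nu x) (nu y) (kk x y) x y (W0 x y) w A B (bb w (1 - A) x y) := by
  refine ⟨fun s v s0 s1 sA v0 vu cv T0 => ff5 g A1 hv s0 s1 sA v0 vu cv T0,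
    fun s v s0 s1 sA v0 v1 vu cv T0 => gf5 g A1 hv s0 s1 sA v0 v1 vu cv T0,
    fun hB => ?_, fun hB => ?_, fun hA => ?_⟩
  · exact fun s s0 s1 od T0 => hh51 g A1 hv hB s0 s1 od T0
  · exact fun s s0 s1 od T0 => hh52 g A1 hv hB s0 s1 od T0
  · exact absurd hA (not_lt.2 (by linarith only [A1]))

theorem ly5 {x y w A B : ℝ} (g : Hc x y w A B) (A1 : A ≤ 1)
    (hv : bb w (1 - A) x y + (W0 x y - W1 x y) < vl w A B) (hB : 1 < B) :
    LY (nu x) (nu y) (kk x y) x y (W0 x y) w A B (bb w (1 - A) x y) := by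
  exact ⟨fun s r T s0 s1 r0 r1 od hT T0 => yy51 g A1 hv hB s0 s1 r0 r1 od hT T0,
    fun s r T s0 s1 r0 r1 od hT T0 => yy52 g A1 hv hB s0 s1 r0 r1 od hT T0,
    fun hB2 s s0 s1 od T0 => zz51 g A1 hv hB2 s0 s1 od T0,
    fun hB2 s s0 s1 od T0 => zz52 g A1 hv hB2 s0 s1 od T0⟩

theorem lr5 {x y w A B : ℝ} (g : Hc x y w A B) (A1 : A ≤ 1) :
    LR (nu x) (nu y) (kk x y) x y (W0 x y) w A B (bb w (1 - A) x y) :=
  lr_of g fun wl hA _ => lm5 g.x0 g.x1 g.y0 g.y1 g.w0 g.w1 g.A0 wl hA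

/-- **all the lists of the value `the cap of the column `y``** -/
theorem ls5 {x y w A B : ℝ} (g : Hc x y w A B) (A1 : A ≤ 1)
    (hv : bb w (1 - A) x y + (W0 x y - W1 x y) < vl w A B) :
    LS (nu x) (nu y) (kk x y) x y (W0 x y) w A B (bb w (1 - A) x y) :=
  ⟨lc5 g A1, lx5 g A1 hv, lr5 g A1, ly5 g A1 hv⟩

theorem lc6 {x y w A B : ℝ} (g : Hc x y w A B) (B1 : B ≤ 1) :
    LC (nu x) (nu y) (kk x y) x y (W0 x y) w A B (bb w (1 - B) x y) := by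
  have e : bb w (1 - B) y x = bb w (1 - B) x y := bb_comm w (1 - B) y x
  refine ⟨fun u v v0 vu u1 cu cv => cc6 g B1 v0 vu u1 cu cv, fun u v u0 uv v1 cu cv => ?_,
    fun hB => ?_, fun hA => ?_⟩
  · have h := cc5 g.swap B1 u0 uv v1 cv cu
    rw [vl_comm w B A, kk_comm y x, W0_comm y x, e] at h
    linarith only [h]
  · exact absurd hB (not_lt.2 (by linarith only [g.y0, B1]))
  · intro v v0 v1 cv
    have h := dd5 g.swap B1 hA v0 v1 cv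
    rw [vl_comm w B A, kk_comm y x, W0_comm y x, e] at h
    linarith only [h]

theorem lx6 {x y w A B : ℝ} (g : Hc x y w A B) (B1 : B ≤ 1)
    (hv : bb w (1 - B) x y + (W0 x y - W1 x y) < vl w A B) :
    LX (nu x) (nu y) (kk x y) x y (W0 x y) w A B (bb w (1 - B) x y) := by
  refine ⟨fun s v s0 s1 sA v0 vu cv T0 => ff6 g B1 hv s0 s1 sA v0 vu cv T0,
    fun s v s0 s1 sA v0 v1 vu cv T0 => gf6 g B1 hv s0 s1 sA v0 v1 vu cv T0,
    fun hB => ?_, fun hB => ?_, fun hA => ?_⟩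
  · exact absurd hB (not_lt.2 (by linarith only [g.y0, B1]))
  · exact absurd hB (not_lt.2 (by linarith only [g.y0, B1]))
  · exact fun v v0 v1 cv T0 => kf6 g B1 hv hA v0 v1 cv T0

theorem ly6 {x y w A B : ℝ} (g : Hc x y w A B) (B1 : B ≤ 1)
    (hv : bb w (1 - B) x y + (W0 x y - W1 x y) < vl w A B) (hB : 1 < B) :
    LY (nu x) (nu y) (kk x y) x y (W0 x y) w A B (bb w (1 - B) x y) := by
  exact absurd hB (not_lt.2 B1)

theorem lr6 {x y w A B : ℝ} (g : Hc x y w A B) (B1 : B ≤ 1) :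
    LR (nu x) (nu y) (kk x y) x y (W0 x y) w A B (bb w (1 - B) x y) :=
  lr_of g fun _ _ h => absurd h (not_lt.2 B1)

/-- **all the lists of the value `the cap of the column `x``** -/
theorem ls6 {x y w A B : ℝ} (g : Hc x y w A B) (B1 : B ≤ 1)
    (hv : bb w (1 - B) x y + (W0 x y - W1 x y) < vl w A B) :
    LS (nu x) (nu y) (kk x y) x y (W0 x y) w A B (bb w (1 - B) x y) :=
  ⟨lc6 g B1, lx6 g B1 hv, lr6 g B1, ly6 g B1 hv⟩

end Pool.Agent.Helper70.OL
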