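import Pool.Agent.Helper78.TS.PieceC
import Pool.Agent.Helper70.OL.Small

/-!
# The two rows of a column of kind A are exchanged
-/

set_option autoImplicit false

namespace Pool.Agent.Helper70.OL

open Pool.Agent.Helper74.TS Pool.Agent.Helper83.TS Pool.Agent.Helper78.TS Pool.Agent.Helper36.TS

theorem cl_swap {w A B : ℝ} (c : Cl w A B) : Cl w B A :=
  ⟨c.w0, c.w1, c.B0, c.A0, by linarith [c.lo], by linarith [c.hi]⟩

theorem bd_swap {nx ny k X Y W' W w A B φ : ℝ}
    (h : Bd ny nx k Y X W' W (fun _ _ => True) flA w B A φ) :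
    Bd nx ny k X Y W' W (fun _ _ => True) flA w A B φ := by
  refine ⟨fun h1 h2 h3 => ?_, fun h1 h2 => ?_⟩
  · obtain ⟨k1, k2, -⟩ := h.1 h1 (by linarith) (by rw [vl_comm w B A]; exact h3)
    exact ⟨fun t => ⟨(k2 t).2, (k2 t).1⟩, fun t => ⟨(k1 t).2, (k1 t).1⟩, fun t => False.elim t⟩
  · have := h.2 (by linarith) (fun hb => by rw [vl_comm w B A]; exact h2 hb)
    exact ⟨this.2, this.1⟩

/-- **The values of the gain of a column of kind A, the rows exchanged.** -/
theorem modes_swap {nx ny k X Y W' W s g τ : ℝ} {φz φx φy : ℝ → ℝ}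
    {Bzx Bzy Bxy Byx : ℝ → ℝ → ℝ}
    (M : ModesC ny nx k Y X W' W s g τ (fun _ _ _ _ _ => True) flA φz φy φx Bzy Bzx Byx Bxy) :
    ModesC nx ny k X Y W' W s g τ (fun _ _ _ _ _ => True) flA φz φx φy Bzx Bzy Bxy Byx where
  one := fun w A B c => by
    rw [add_comm A B]
    exact bd_swap (M.one w B A (cl_swap c))
  top := fun w A B c => by
    rw [add_comm A B]
    exact bd_swap (M.top w B A (cl_swap c))
  twoy := fun w A B c h => by
    rw [add_comm A B]
    exact bd_swap (M.twox w B A (cl_swap c) h)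
  twox := fun w A B c h => by
    rw [add_comm A B]
    exact bd_swap (M.twoy w B A (cl_swap c) h)
  chainy := fun w A B t c h t0 t1 => by
    rw [add_comm A B]
    exact bd_swap (M.chainx w B A t (cl_swap c) h t0 t1)
  chainx := fun w A B t c h t0 t1 => by
    rw [add_comm A B]
    exact bd_swap (M.chainy w B A t (cl_swap c) h t0 t1)
  capy := fun w A B t c t0 t1 => by
    rw [add_comm A B]
    exact bd_swap (M.capx w B A t (cl_swap c) t0 t1)
  capx := fun w A B t c t0 t1 => by
    rw [add_comm A B]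
    exact bd_swap (M.capy w B A t (cl_swap c) t0 t1)

end Pool.Agent.Helper70.OL
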