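import Pool.Agent.Helper70.OL.Base
import Pool.Agent.Helper70.OL.CeC1
import Pool.Agent.Helper70.OL.CeC2

/-!
# The states without an own far cell
-/

set_option autoImplicit false
set_option linter.unusedSimpArgs false

namespace Pool.Agent.Helper70.OL

open Pool.Agent.Helper74.TS Pool.Agent.Helper83.TS Pool.Agent.Helper78.TS
  Pool.Agent.Helper19.TS.OL0

private theorem sn {a b : ℝ} (h : a ≤ b) : 0 ≤ b - a := sub_nonneg.2 h

private theorem sl {a b : ℝ} (h : a < b) : 0 ≤ b - a := sub_nonneg.2 h.le

private theorem nn {a b : ℝ} (h : a ≤ b) : 0 ≤ -a + b := by linarith only [h]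

/-- value `one`, no own far cell -/
theorem cc1 {x y w A B u v : ℝ} (g : Hc x y w A B)
    (v0 : 0 ≤ v) (vu : v ≤ u) (u1 : u ≤ 1) (cu : u ≤ 1 - A + x) (cv : v ≤ 1 - B + y) :
    st (nu x) x u + st (nu y - kk x y) y v + vl w A B ≤ W0 x y + ph w x y := by
  obtain ⟨x0, x1, y0, y1, w0, w1, A0, B0, hi, lo⟩ := g
  have u0 := v0.trans vu
  have v1 := vu.trans u1
  rcases le_total w A with a | a <;> rcases le_total w B with b | b
  · rw [vq1 a b]
    simp only [st, mj, ng, nu, kk, W0, W1, ph, gg, bb, fo2]
    exact sub_nonneg.1 ((Ce.c11
          x0
          y0
          w0
          A0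
          B0
          u0
          v0
          (sn x1)
          (sn y1)
          (sn w1)
          (nn a)
          (nn b)
          ((sn hi).trans_eq (by ring1))
          ((sn lo).trans_eq (by ring1))
          (sn u1)
          (sn v1)
          ((sn cu).trans_eq (by ring1))
          ((sn cv).trans_eq (by ring1))
          ((sn vu).trans_eq (by ring1))).trans_eq
            (by ring1))
  · rw [vq3 a b]
    simp only [st, mj, ng, nu, kk, W0, W1, ph, gg, bb, fo2]
    exact sub_nonneg.1 ((Ce.c13
          x0
          y0
          w0
          A0
          B0
          u0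
          v0
          (sn x1)
          (sn y1)
          (sn w1)
          (nn a)
          (sn b)
          ((sn hi).trans_eq (by ring1))
          ((sn lo).trans_eq (by ring1))
          (sn u1)
          (sn v1)
          ((sn cu).trans_eq (by ring1))
          ((sn cv).trans_eq (by ring1))
          ((sn vu).trans_eq (by ring1))).trans_eq
            (by ring1))
  · rw [vq2 a b]
    simp only [st, mj, ng, nu, kk, W0, W1, ph, gg, bb, fo2]
    exact sub_nonneg.1 ((Ce.c12
          x0
          y0
          w0
          A0
          B0
          u0
          v0
          (sn x1)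
          (sn y1)
          (sn w1)
          (sn a)
          (nn b)
          ((sn hi).trans_eq (by ring1))
          ((sn lo).trans_eq (by ring1))
          (sn u1)
          (sn v1)
          ((sn cu).trans_eq (by ring1))
          ((sn cv).trans_eq (by ring1))
          ((sn vu).trans_eq (by ring1))).trans_eq
            (by ring1))
  · rw [vq4 a b]
    simp only [st, mj, ng, nu, kk, W0, W1, ph, gg, bb, fo2]
    exact sub_nonneg.1 ((Ce.c14
          x0
          y0
          w0
          A0
          B0
          u0
          v0
          (sn x1)
          (sn y1)
          (sn w1)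
          (sn a)
          (sn b)
          ((sn hi).trans_eq (by ring1))
          ((sn lo).trans_eq (by ring1))
          (sn u1)
          (sn v1)
          ((sn cu).trans_eq (by ring1))
          ((sn cv).trans_eq (by ring1))
          ((sn vu).trans_eq (by ring1))).trans_eq
            (by ring1))

/-- value `two, the column `y``, no own far cell -/
theorem cc2 {x y z w A B u v : ℝ} (g : Hc x y w A B) (z0 : 0 ≤ z) (z1 : z ≤ 3 / 5) (A1 : A ≤ 1)
    (v0 : 0 ≤ v) (vu : v ≤ u) (u1 : u ≤ 1) (cu : u ≤ 1 - A + x) (cv : v ≤ 1 - B + y) :
    st (nu x) x u + st (nu y - kk x y) y v + vl w A B ≤ W0 x y + (gg x y z - ph (1 - A) x z) := by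
  obtain ⟨x0, x1, y0, y1, w0, w1, A0, B0, hi, lo⟩ := g
  have u0 := v0.trans vu
  have v1 := vu.trans u1
  rcases le_total w A with a | a <;> rcases le_total w B with b | b
  · rw [vq1 a b]
    simp only [st, mj, ng, nu, kk, W0, W1, ph, gg, bb, fo2]
    exact sub_nonneg.1 ((Ce.c21
          x0
          y0
          z0
          w0
          A0
          B0
          u0
          v0
          (sn x1)
          (sn y1)
          ((sn z1).trans_eq (by ring1))
          (sn w1)
          (nn a)
          (nn b)
          (sn A1)
          ((sn hi).trans_eq (by ring1))
          ((sn lo).trans_eq (by ring1))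
          (sn u1)
          (sn v1)
          ((sn cu).trans_eq (by ring1))
          ((sn cv).trans_eq (by ring1))
          ((sn vu).trans_eq (by ring1))).trans_eq
            (by ring1))
  · rw [vq3 a b]
    simp only [st, mj, ng, nu, kk, W0, W1, ph, gg, bb, fo2]
    exact sub_nonneg.1 ((Ce.c23
          x0
          y0
          z0
          w0
          A0
          B0
          u0
          v0
          (sn x1)
          (sn y1)
          ((sn z1).trans_eq (by ring1))
          (sn w1)
          (nn a)
          (sn b)
          (sn A1)
          ((sn hi).trans_eq (by ring1))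
          ((sn lo).trans_eq (by ring1))
          (sn u1)
          (sn v1)
          ((sn cu).trans_eq (by ring1))
          ((sn cv).trans_eq (by ring1))
          ((sn vu).trans_eq (by ring1))).trans_eq
            (by ring1))
  · rw [vq2 a b]
    simp only [st, mj, ng, nu, kk, W0, W1, ph, gg, bb, fo2]
    exact sub_nonneg.1 ((Ce.c22
          x0
          y0
          z0
          w0
          A0
          B0
          u0
          v0
          (sn x1)
          (sn y1)
          ((sn z1).trans_eq (by ring1))
          (sn w1)
          (sn a)
          (nn b)
          (sn A1)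
          ((sn hi).trans_eq (by ring1))
          ((sn lo).trans_eq (by ring1))
          (sn u1)
          (sn v1)
          ((sn cu).trans_eq (by ring1))
          ((sn cv).trans_eq (by ring1))
          ((sn vu).trans_eq (by ring1))).trans_eq
            (by ring1))
  · rw [vq4 a b]
    simp only [st, mj, ng, nu, kk, W0, W1, ph, gg, bb, fo2]
    exact sub_nonneg.1 ((Ce.c24
          x0
          y0
          z0
          w0
          A0
          B0
          u0
          v0
          (sn x1)
          (sn y1)
          ((sn z1).trans_eq (by ring1))
          (sn w1)
          (sn a)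
          (sn b)
          (sn A1)
          ((sn hi).trans_eq (by ring1))
          ((sn lo).trans_eq (by ring1))
          (sn u1)
          (sn v1)
          ((sn cu).trans_eq (by ring1))
          ((sn cv).trans_eq (by ring1))
          ((sn vu).trans_eq (by ring1))).trans_eq
            (by ring1))

/-- value `two, the column `x``, no own far cell -/
theorem cc3 {x y z w A B u v : ℝ} (g : Hc x y w A B) (z0 : 0 ≤ z) (z1 : z ≤ 3 / 5) (B1 : B ≤ 1)
    (v0 : 0 ≤ v) (vu : v ≤ u) (u1 : u ≤ 1) (cu : u ≤ 1 - A + x) (cv : v ≤ 1 - B + y) :
    st (nu x) x u + st (nu y - kk x y) y v + vl w A B ≤ W0 x y + (gg x y z - ph (1 - B) y z) := by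
  obtain ⟨x0, x1, y0, y1, w0, w1, A0, B0, hi, lo⟩ := g
  have u0 := v0.trans vu
  have v1 := vu.trans u1
  rcases le_total w A with a | a <;> rcases le_total w B with b | b
  · rw [vq1 a b]
    simp only [st, mj, ng, nu, kk, W0, W1, ph, gg, bb, fo2]
    exact sub_nonneg.1 ((Ce.c31
          x0
          y0
          z0
          w0
          A0
          B0
          u0
          v0
          (sn x1)
          (sn y1)
          ((sn z1).trans_eq (by ring1))
          (sn w1)
          (nn a)
          (nn b)
          (sn B1)
          ((sn hi).trans_eq (by ring1))
          ((sn lo).trans_eq (by ring1))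
          (sn u1)
          (sn v1)
          ((sn cu).trans_eq (by ring1))
          ((sn cv).trans_eq (by ring1))
          ((sn vu).trans_eq (by ring1))).trans_eq
            (by ring1))
  · rw [vq3 a b]
    simp only [st, mj, ng, nu, kk, W0, W1, ph, gg, bb, fo2]
    exact sub_nonneg.1 ((Ce.c33
          x0
          y0
          z0
          w0
          A0
          B0
          u0
          v0
          (sn x1)
          (sn y1)
          ((sn z1).trans_eq (by ring1))
          (sn w1)
          (nn a)
          (sn b)
          (sn B1)
          ((sn hi).trans_eq (by ring1))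
          ((sn lo).trans_eq (by ring1))
          (sn u1)
          (sn v1)
          ((sn cu).trans_eq (by ring1))
          ((sn cv).trans_eq (by ring1))
          ((sn vu).trans_eq (by ring1))).trans_eq
            (by ring1))
  · rw [vq2 a b]
    simp only [st, mj, ng, nu, kk, W0, W1, ph, gg, bb, fo2]
    exact sub_nonneg.1 ((Ce.c32
          x0
          y0
          z0
          w0
          A0
          B0
          u0
          v0
          (sn x1)
          (sn y1)
          ((sn z1).trans_eq (by ring1))
          (sn w1)
          (sn a)
          (nn b)
          (sn B1)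
          ((sn hi).trans_eq (by ring1))
          ((sn lo).trans_eq (by ring1))
          (sn u1)
          (sn v1)
          ((sn cu).trans_eq (by ring1))
          ((sn cv).trans_eq (by ring1))
          ((sn vu).trans_eq (by ring1))).trans_eq
            (by ring1))
  · rw [vq4 a b]
    simp only [st, mj, ng, nu, kk, W0, W1, ph, gg, bb, fo2]
    exact sub_nonneg.1 ((Ce.c34
          x0
          y0
          z0
          w0
          A0
          B0
          u0
          v0
          (sn x1)
          (sn y1)
          ((sn z1).trans_eq (by ring1))
          (sn w1)
          (sn a)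
          (sn b)
          (sn B1)
          ((sn hi).trans_eq (by ring1))
          ((sn lo).trans_eq (by ring1))
          (sn u1)
          (sn v1)
          ((sn cu).trans_eq (by ring1))
          ((sn cv).trans_eq (by ring1))
          ((sn vu).trans_eq (by ring1))).trans_eq
            (by ring1))

/-- value `three`, no own far cell -/
theorem cc4 {x y z w A B u v : ℝ} (g : Hc x y w A B) (z0 : 0 ≤ z) (z1 : z ≤ 3 / 5) (A1 : A ≤ 1) (B1 : B ≤ 1) (ft : 3 / 100 + (W0 x y - W1 x y) < vl w A B)
    (v0 : 0 ≤ v) (vu : v ≤ u) (u1 : u ≤ 1) (cu : u ≤ 1 - A + x) (cv : v ≤ 1 - B + y) :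
    st (nu x) x u + st (nu y - kk x y) y v + vl w A B ≤ W0 x y + (gg x y z + 3 / 100 - ph (1 - A) x z - ph (1 - B) y z) := by
  obtain ⟨x0, x1, y0, y1, w0, w1, A0, B0, hi, lo⟩ := g
  have u0 := v0.trans vu
  have v1 := vu.trans u1
  obtain ⟨l1, l2, l3, l4, lA, lB, lw⟩ := li_of w0 w1 A0 B0 A1 B1 (by linarith) hi
    (by linarith only [ft, W01 x0 x1 y0 y1])
  rcases le_total w A with a | a <;> rcases le_total w B with b | b
  · rw [vq1 a b] at ft ⊢
    simp only [st, mj, ng, nu, kk, W0, W1, ph, gg, bb, fo2] at ft ⊢
    rcases le_total w (1 / 2) with q | q
    · exact sub_nonneg.1 ((Ce.c41a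
          x0
          y0
          z0
          w0
          A0
          B0
          u0
          v0
          (sn x1)
          (sn y1)
          ((sn z1).trans_eq (by ring1))
          (sn w1)
          (nn a)
          (nn b)
          (sn A1)
          (sn B1)
          ((sn hi).trans_eq (by ring1))
          ((sn lo).trans_eq (by ring1))
          ((sl ft).trans_eq (by ring1))
          (sn u1)
          (sn v1)
          ((sn cu).trans_eq (by ring1))
          ((sn cv).trans_eq (by ring1))
          ((sn vu).trans_eq (by ring1))
          ((sn l1).trans_eq (by ring1))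
          ((sn l2).trans_eq (by ring1))
          ((sn l3).trans_eq (by ring1))
          ((sn l4).trans_eq (by ring1))
          ((sn lA).trans_eq (by ring1))
          ((sn lB).trans_eq (by ring1))
          ((sn lw).trans_eq (by ring1))
          ((sn q).trans_eq (by ring1))).trans_eq
            (by ring1))
    · exact sub_nonneg.1 ((Ce.c41b
          x0
          y0
          z0
          w0
          A0
          B0
          u0
          v0
          (sn x1)
          (sn y1)
          ((sn z1).trans_eq (by ring1))
          (sn w1)
          (nn a)
          (nn b)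
          (sn A1)
          (sn B1)
          ((sn hi).trans_eq (by ring1))
          ((sn lo).trans_eq (by ring1))
          ((sl ft).trans_eq (by ring1))
          (sn u1)
          (sn v1)
          ((sn cu).trans_eq (by ring1))
          ((sn cv).trans_eq (by ring1))
          ((sn vu).trans_eq (by ring1))
          ((sn l1).trans_eq (by ring1))
          ((sn l2).trans_eq (by ring1))
          ((sn l3).trans_eq (by ring1))
          ((sn l4).trans_eq (by ring1))
          ((sn lA).trans_eq (by ring1))
          ((sn lB).trans_eq (by ring1))
          ((sn q).trans_eq (by ring1))).trans_eq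
            (by ring1))
  · rw [vq3 a b] at ft ⊢
    simp only [st, mj, ng, nu, kk, W0, W1, ph, gg, bb, fo2] at ft ⊢
    exact sub_nonneg.1 ((Ce.c43
          x0
          y0
          z0
          w0
          A0
          B0
          u0
          v0
          (sn x1)
          (sn y1)
          ((sn z1).trans_eq (by ring1))
          (sn w1)
          (nn a)
          (sn b)
          (sn A1)
          (sn B1)
          ((sn hi).trans_eq (by ring1))
          ((sn lo).trans_eq (by ring1))
          ((sl ft).trans_eq (by ring1))
          (sn u1)
          (sn v1)
          ((sn cu).trans_eq (by ring1))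
          ((sn cv).trans_eq (by ring1))
          ((sn vu).trans_eq (by ring1))
          ((sn l1).trans_eq (by ring1))
          ((sn l2).trans_eq (by ring1))
          ((sn l3).trans_eq (by ring1))
          ((sn l4).trans_eq (by ring1))
          ((sn lA).trans_eq (by ring1))
          ((sn lB).trans_eq (by ring1))).trans_eq
            (by ring1))
  · rw [vq2 a b] at ft ⊢
    have m3 : 3 / 100 ≤ w * A * (A + B - w) := by
      linarith only [ft, W01 x0 x1 y0 y1, pow_nonneg A0 3]
    simp only [st, mj, ng, nu, kk, W0, W1, ph, gg, bb, fo2] at ft ⊢
    rcases le_total w (1 / 2) with q | q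
    · exact sub_nonneg.1 ((Ce.c42a
          x0
          y0
          z0
          w0
          A0
          B0
          u0
          v0
          (sn x1)
          (sn y1)
          ((sn z1).trans_eq (by ring1))
          (sn w1)
          (sn a)
          (nn b)
          (sn A1)
          (sn B1)
          ((sn hi).trans_eq (by ring1))
          ((sn lo).trans_eq (by ring1))
          ((sl ft).trans_eq (by ring1))
          (sn u1)
          (sn v1)
          ((sn cu).trans_eq (by ring1))
          ((sn cv).trans_eq (by ring1))
          ((sn vu).trans_eq (by ring1))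
          ((sn l1).trans_eq (by ring1))
          ((sn l2).trans_eq (by ring1))
          ((sn l3).trans_eq (by ring1))
          ((sn l4).trans_eq (by ring1))
          ((sn lA).trans_eq (by ring1))
          ((sn lB).trans_eq (by ring1))
          ((sn m3).trans_eq (by ring1))
          ((sn lw).trans_eq (by ring1))
          ((sn q).trans_eq (by ring1))).trans_eq
            (by ring1))
    · exact sub_nonneg.1 ((Ce.c42b
          x0
          y0
          z0
          w0
          A0
          B0
          u0
          v0
          (sn x1)
          (sn y1)
          ((sn z1).trans_eq (by ring1))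
          (sn w1)
          (sn a)
          (nn b)
          (sn A1)
          (sn B1)
          ((sn hi).trans_eq (by ring1))
          ((sn lo).trans_eq (by ring1))
          ((sl ft).trans_eq (by ring1))
          (sn u1)
          (sn v1)
          ((sn cu).trans_eq (by ring1))
          ((sn cv).trans_eq (by ring1))
          ((sn vu).trans_eq (by ring1))
          ((sn l1).trans_eq (by ring1))
          ((sn l2).trans_eq (by ring1))
          ((sn l3).trans_eq (by ring1))
          ((sn l4).trans_eq (by ring1))
          ((sn lA).trans_eq (by ring1))
          ((sn lB).trans_eq (by ring1))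
          ((sn m3).trans_eq (by ring1))
          ((sn q).trans_eq (by ring1))).trans_eq
            (by ring1))
  · rw [vq4 a b] at ft ⊢
    simp only [st, mj, ng, nu, kk, W0, W1, ph, gg, bb, fo2] at ft ⊢
    exact sub_nonneg.1 ((Ce.c44
          x0
          y0
          z0
          w0
          A0
          B0
          u0
          v0
          (sn x1)
          (sn y1)
          ((sn z1).trans_eq (by ring1))
          (sn w1)
          (sn a)
          (sn b)
          (sn A1)
          (sn B1)
          ((sn hi).trans_eq (by ring1))
          ((sn lo).trans_eq (by ring1))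
          ((sl ft).trans_eq (by ring1))
          (sn u1)
          (sn v1)
          ((sn cu).trans_eq (by ring1))
          ((sn cv).trans_eq (by ring1))
          ((sn vu).trans_eq (by ring1))
          ((sn l1).trans_eq (by ring1))
          ((sn l2).trans_eq (by ring1))
          ((sn l3).trans_eq (by ring1))
          ((sn l4).trans_eq (by ring1))
          ((sn lA).trans_eq (by ring1))
          ((sn lB).trans_eq (by ring1))).trans_eq
            (by ring1))

/-- value `the cap of the column `y``, no own far cell -/
theorem cc5 {x y w A B u v : ℝ} (g : Hc x y w A B) (A1 : A ≤ 1)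
    (v0 : 0 ≤ v) (vu : v ≤ u) (u1 : u ≤ 1) (cu : u ≤ 1 - A + x) (cv : v ≤ 1 - B + y) :
    st (nu x) x u + st (nu y - kk x y) y v + vl w A B ≤ W0 x y + bb w (1 - A) x y := by
  obtain ⟨x0, x1, y0, y1, w0, w1, A0, B0, hi, lo⟩ := g
  have u0 := v0.trans vu
  have v1 := vu.trans u1
  rcases le_total w A with a | a <;> rcases le_total w B with b | b
  · rw [vq1 a b]
    simp only [st, mj, ng, nu, kk, W0, W1, ph, gg, bb, fo2]
    exact sub_nonneg.1 ((Ce.c51
          x0
          y0
          w0
          A0
          B0
          u0
          v0
          (sn x1)
          (sn y1)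
          (sn w1)
          (nn a)
          (nn b)
          (sn A1)
          ((sn hi).trans_eq (by ring1))
          ((sn lo).trans_eq (by ring1))
          (sn u1)
          (sn v1)
          ((sn cu).trans_eq (by ring1))
          ((sn cv).trans_eq (by ring1))
          ((sn vu).trans_eq (by ring1))).trans_eq
            (by ring1))
  · rw [vq3 a b]
    simp only [st, mj, ng, nu, kk, W0, W1, ph, gg, bb, fo2]
    exact sub_nonneg.1 ((Ce.c53
          x0
          y0
          w0
          A0
          B0
          u0
          v0
          (sn x1)
          (sn y1)
          (sn w1)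
          (nn a)
          (sn b)
          (sn A1)
          ((sn hi).trans_eq (by ring1))
          ((sn lo).trans_eq (by ring1))
          (sn u1)
          (sn v1)
          ((sn cu).trans_eq (by ring1))
          ((sn cv).trans_eq (by ring1))
          ((sn vu).trans_eq (by ring1))).trans_eq
            (by ring1))
  · rw [vq2 a b]
    simp only [st, mj, ng, nu, kk, W0, W1, ph, gg, bb, fo2]
    exact sub_nonneg.1 ((Ce.c52
          x0
          y0
          w0
          A0
          B0
          u0
          v0
          (sn x1)
          (sn y1)
          (sn w1)
          (sn a)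
          (nn b)
          (sn A1)
          ((sn hi).trans_eq (by ring1))
          ((sn lo).trans_eq (by ring1))
          (sn u1)
          (sn v1)
          ((sn cu).trans_eq (by ring1))
          ((sn cv).trans_eq (by ring1))
          ((sn vu).trans_eq (by ring1))).trans_eq
            (by ring1))
  · rw [vq4 a b]
    simp only [st, mj, ng, nu, kk, W0, W1, ph, gg, bb, fo2]
    exact sub_nonneg.1 ((Ce.c54
          x0
          y0
          w0
          A0
          B0
          u0
          v0
          (sn x1)
          (sn y1)
          (sn w1)
          (sn a)
          (sn b)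
          (sn A1)
          ((sn hi).trans_eq (by ring1))
          ((sn lo).trans_eq (by ring1))
          (sn u1)
          (sn v1)
          ((sn cu).trans_eq (by ring1))
          ((sn cv).trans_eq (by ring1))
          ((sn vu).trans_eq (by ring1))).trans_eq
            (by ring1))

/-- value `the cap of the column `x``, no own far cell -/
theorem cc6 {x y w A B u v : ℝ} (g : Hc x y w A B) (B1 : B ≤ 1)
    (v0 : 0 ≤ v) (vu : v ≤ u) (u1 : u ≤ 1) (cu : u ≤ 1 - A + x) (cv : v ≤ 1 - B + y) :
    st (nu x) x u + st (nu y - kk x y) y v + vl w A B ≤ W0 x y + bb w (1 - B) x y := by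
  obtain ⟨x0, x1, y0, y1, w0, w1, A0, B0, hi, lo⟩ := g
  have u0 := v0.trans vu
  have v1 := vu.trans u1
  rcases le_total w A with a | a <;> rcases le_total w B with b | b
  · rw [vq1 a b]
    simp only [st, mj, ng, nu, kk, W0, W1, ph, gg, bb, fo2]
    exact sub_nonneg.1 ((Ce.c61
          x0
          y0
          w0
          A0
          B0
          u0
          v0
          (sn x1)
          (sn y1)
          (sn w1)
          (nn a)
          (nn b)
          (sn B1)
          ((sn hi).trans_eq (by ring1))
          ((sn lo).trans_eq (by ring1))
          (sn u1)
          (sn v1)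
          ((sn cu).trans_eq (by ring1))
          ((sn cv).trans_eq (by ring1))
          ((sn vu).trans_eq (by ring1))).trans_eq
            (by ring1))
  · rw [vq3 a b]
    simp only [st, mj, ng, nu, kk, W0, W1, ph, gg, bb, fo2]
    exact sub_nonneg.1 ((Ce.c63
          x0
          y0
          w0
          A0
          B0
          u0
          v0
          (sn x1)
          (sn y1)
          (sn w1)
          (nn a)
          (sn b)
          (sn B1)
          ((sn hi).trans_eq (by ring1))
          ((sn lo).trans_eq (by ring1))
          (sn u1)
          (sn v1)
          ((sn cu).trans_eq (by ring1))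
          ((sn cv).trans_eq (by ring1))
          ((sn vu).trans_eq (by ring1))).trans_eq
            (by ring1))
  · rw [vq2 a b]
    simp only [st, mj, ng, nu, kk, W0, W1, ph, gg, bb, fo2]
    exact sub_nonneg.1 ((Ce.c62
          x0
          y0
          w0
          A0
          B0
          u0
          v0
          (sn x1)
          (sn y1)
          (sn w1)
          (sn a)
          (nn b)
          (sn B1)
          ((sn hi).trans_eq (by ring1))
          ((sn lo).trans_eq (by ring1))
          (sn u1)
          (sn v1)
          ((sn cu).trans_eq (by ring1))
          ((sn cv).trans_eq (by ring1))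
          ((sn vu).trans_eq (by ring1))).trans_eq
            (by ring1))
  · rw [vq4 a b]
    simp only [st, mj, ng, nu, kk, W0, W1, ph, gg, bb, fo2]
    exact sub_nonneg.1 ((Ce.c64
          x0
          y0
          w0
          A0
          B0
          u0
          v0
          (sn x1)
          (sn y1)
          (sn w1)
          (sn a)
          (sn b)
          (sn B1)
          ((sn hi).trans_eq (by ring1))
          ((sn lo).trans_eq (by ring1))
          (sn u1)
          (sn v1)
          ((sn cu).trans_eq (by ring1))
          ((sn cv).trans_eq (by ring1))
          ((sn vu).trans_eq (by ring1))).trans_eq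
            (by ring1))

/-- value `one`, a very low cap on `y` -/
theorem dd1 {x y w A B u : ℝ} (g : Hc x y w A B)
    (hB : 1 + y < B) (u0 : 0 ≤ u) (u1 : u ≤ 1) (cu : u ≤ 1 - A + x) :
    st (nu x) x u + ng (nu y - kk x y) y (B - 1 - y) + vl w A B ≤ W0 x y + ph w x y := by
  obtain ⟨x0, x1, y0, y1, w0, w1, A0, B0, hi, lo⟩ := g
  have a : A ≤ w := by linarith
  have b : w ≤ B := by linarith
  rw [vq2 a b]
  simp only [st, mj, ng, nu, kk, W0, W1, ph, gg, bb, fo2]
  exact sub_nonneg.1 ((Ce.d1
        x0
        y0
        w0
        A0
        B0
        u0
        (sn x1)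
        (sn y1)
        (sn w1)
        (sn a)
        (nn b)
        ((sn hi).trans_eq (by ring1))
        ((sn lo).trans_eq (by ring1))
        (sn u1)
        ((sn cu).trans_eq (by ring1))
        (by linarith only [hB])).trans_eq
          (by ring1))

/-- value `two, the column `y``, a very low cap on `y` -/
theorem dd2 {x y z w A B u : ℝ} (g : Hc x y w A B) (z0 : 0 ≤ z) (z1 : z ≤ 3 / 5) (A1 : A ≤ 1)
    (hB : 1 + y < B) (u0 : 0 ≤ u) (u1 : u ≤ 1) (cu : u ≤ 1 - A + x) :
    st (nu x) x u + ng (nu y - kk x y) y (B - 1 - y) + vl w A B ≤ W0 x y + (gg x y z - ph (1 - A) x z) := by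
  obtain ⟨x0, x1, y0, y1, w0, w1, A0, B0, hi, lo⟩ := g
  have a : A ≤ w := by linarith
  have b : w ≤ B := by linarith
  rw [vq2 a b]
  simp only [st, mj, ng, nu, kk, W0, W1, ph, gg, bb, fo2]
  exact sub_nonneg.1 ((Ce.d2
        x0
        y0
        z0
        w0
        A0
        B0
        u0
        (sn x1)
        (sn y1)
        ((sn z1).trans_eq (by ring1))
        (sn w1)
        (sn a)
        (nn b)
        (sn A1)
        ((sn hi).trans_eq (by ring1))
        ((sn lo).trans_eq (by ring1))
        (sn u1)
        ((sn cu).trans_eq (by ring1))
        (by linarith only [hB])).trans_eq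
          (by ring1))

/-- value `the cap of the column `y``, a very low cap on `y` -/
theorem dd5 {x y w A B u : ℝ} (g : Hc x y w A B) (A1 : A ≤ 1)
    (hB : 1 + y < B) (u0 : 0 ≤ u) (u1 : u ≤ 1) (cu : u ≤ 1 - A + x) :
    st (nu x) x u + ng (nu y - kk x y) y (B - 1 - y) + vl w A B ≤ W0 x y + bb w (1 - A) x y := by
  obtain ⟨x0, x1, y0, y1, w0, w1, A0, B0, hi, lo⟩ := g
  have a : A ≤ w := by linarith
  have b : w ≤ B := by linarith
  rw [vq2 a b]
  simp only [st, mj, ng, nu, kk, W0, W1, ph, gg, bb, fo2]
  exact sub_nonneg.1 ((Ce.d5
        x0
        y0
        w0
        A0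
        B0
        u0
        (sn x1)
        (sn y1)
        (sn w1)
        (sn a)
        (nn b)
        (sn A1)
        ((sn hi).trans_eq (by ring1))
        ((sn lo).trans_eq (by ring1))
        (sn u1)
        ((sn cu).trans_eq (by ring1))
        (by linarith only [hB])).trans_eq
          (by ring1))

end Pool.Agent.Helper70.OL
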